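import Pool.Agent.N913.MG.R2

set_option autoImplicit false

/-! Almost all polynomials. -/

namespace Pool.Agent.N913.MG

open Finset Filter
open Pool.Agent.N913.MT (evt_log_ge)

/-- the family of the polynomials `P + b X + c` -/
noncomputable def FP (P : Polynomial ℤ) (X : ℕ) : Fam where
  c := fun t => P.eval (t : ℤ) - X * t + X
  g := fun _ => 2 * X + 1
  S2 := 2 * X + 1
  hc := fun t t' => by
    have h := Polynomial.sub_dvd_eval_sub (t : ℤ) (t' : ℤ) P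
    have e : P.eval (t : ℤ) - X * t + X - (P.eval (t' : ℤ) - X * t' + X) =
        (P.eval (t : ℤ) - P.eval (t' : ℤ)) - X * ((t : ℤ) - t') := by ring
    rw [e]
    exact dvd_sub h (Dvd.intro_left _ rfl)
  hS := by omega
  hg1 := fun s => le_rfl
  hg2 := fun s => by omega
  hg3 := fun s hs => le_rfl

theorem NN_FP (P : Polynomial ℤ) (X : ℕ) : NN (FP P X) = (2 * X + 1) ^ 2 := by
  have h3 : NN (FP P X) = ∑ s ∈ range (2 * X + 1), ((2 * X + 1 : ℕ) : ℝ) := rfl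
  rw [h3, sum_const, card_range, nsmul_eq_mul]
  push_cast
  ring

/-- the value of `P + b X + c` -/
noncomputable def val (P : Polynomial ℤ) (b c t : ℤ) : ℤ := P.eval t + b * t + c

theorem vv_FP (P : Polynomial ℤ) (X : ℕ) (b c : ℤ) (hb : |b| ≤ X) (hc : |c| ≤ X) (t : ℕ) :
    vv (FP P X) t ((b + X).toNat, (X - c).toNat) = val P b c t := by
  have e : vv (FP P X) t ((b + X).toNat, (X - c).toNat) =
    (((b + X).toNat : ℕ) : ℤ) * (t : ℤ) + (P.eval (t : ℤ) - X * t + X) - (((X - c).toNat : ℕ) : ℤ) := rfl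
  rw [abs_le] at hb hc
  rw [e, Int.toNat_of_nonneg (by linarith), Int.toNat_of_nonneg (by linarith)]
  unfold val
  ring

theorem val_eval (P : Polynomial ℤ) (b c t : ℤ) :
    val P b c t = (P + Polynomial.C b * Polynomial.X + Polynomial.C c).eval t := by
  unfold val
  simp

theorem valP_mod (P : Polynomial ℤ) (b c t t' : ℤ) (p : ℤ) (h : p ∣ t - t') :
    p ∣ val P b c t ↔ p ∣ val P b c t' := by
  have h1 := Polynomial.sub_dvd_eval_sub t t' (P + Polynomial.C b * Polynomial.X + Polynomial.C c)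
  rw [← val_eval, ← val_eval] at h1
  have h2 := h.trans h1
  constructor
  · intro h3
    have := dvd_sub h3 h2
    simpa using this
  · intro h3
    have := dvd_add h2 h3
    simpa using this

theorem locP1 (P : Polynomial ℤ) (b c : ℤ) (p : ℕ) (hp : p.Prime)
    (h : ∃ t : ℤ, ¬ (p : ℤ) ∣ val P b c t) : ∃ t : ℕ, ¬ (p : ℤ) ∣ val P b c t := by
  obtain ⟨t, ht⟩ := h
  have hp0 : (0 : ℤ) < p := by exact_mod_cast hp.pos
  refine ⟨(t % p).toNat, fun h2 => ht ?_⟩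
  apply (valP_mod P b c t ((t % p).toNat : ℕ) p _).2 h2
  rw [Int.toNat_of_nonneg (Int.emod_nonneg _ hp0.ne')]
  exact Int.dvd_self_sub_emod

theorem locP2 (d : ℕ) (P : Polynomial ℤ) (hP : P.natDegree ≤ d) (b c : ℤ) (p : ℕ) (hp : p.Prime)
    (h : ∃ t : ℤ, ¬ (p : ℤ) ∣ val P b c t) :
    ((range p).filter (fun t : ℕ => (p : ℤ) ∣ val P b c t)).card ≤ d + 1 := by
  classical
  have : Fact p.Prime := ⟨hp⟩
  obtain ⟨g, hg⟩ : ∃ g : Polynomial (ZMod p), g =
    (P + Polynomial.C b * Polynomial.X + Polynomial.C c).map (Int.castRingHom (ZMod p)) := ⟨_, rfl⟩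
  have hev : ∀ t : ℤ, g.eval (t : ZMod p) = ((val P b c t : ℤ) : ZMod p) := by
    intro t
    rw [hg, val_eval]
    have := Polynomial.eval_map_apply (f := Int.castRingHom (ZMod p))
      (p := P + Polynomial.C b * Polynomial.X + Polynomial.C c) (x := t)
    simpa using this
  have hzero : ∀ t : ℤ, g.eval (t : ZMod p) = 0 ↔ (p : ℤ) ∣ val P b c t := by
    intro t
    rw [hev, ZMod.intCast_zmod_eq_zero_iff_dvd]
  have hg0 : g ≠ 0 := by
    intro h0
    obtain ⟨t, ht⟩ := h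
    apply ht
    rw [← hzero, h0, Polynomial.eval_zero]
  have hdeg : g.natDegree ≤ d + 1 := by
    rw [hg]
    refine Polynomial.natDegree_map_le.trans ?_
    refine (Polynomial.natDegree_add_le _ _).trans (max_le ?_ ?_)
    · refine (Polynomial.natDegree_add_le _ _).trans (max_le (by omega) ?_)
      refine (Polynomial.natDegree_C_mul_le b Polynomial.X).trans (Polynomial.natDegree_X_le.trans (by omega))
    · rw [Polynomial.natDegree_C]; omega
  calc ((range p).filter (fun t : ℕ => (p : ℤ) ∣ val P b c t)).card ≤ g.roots.toFinset.card := by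
        apply card_le_card_of_injOn (fun t : ℕ => ((t : ℤ) : ZMod p))
        · intro t ht
          have ht' := (mem_filter.1 (mem_coe.1 ht)).2
          rw [mem_coe, Multiset.mem_toFinset, Polynomial.mem_roots hg0]
          exact (hzero t).2 ht'
        · intro t ht t' ht' htt
          have h1 := mem_range.1 (mem_filter.1 (mem_coe.1 ht)).1
          have h2 := mem_range.1 (mem_filter.1 (mem_coe.1 ht')).1
          simp only [Int.cast_natCast] at htt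
          rw [ZMod.natCast_eq_natCast_iff] at htt
          exact Nat.ModEq.eq_of_lt_of_lt htt h1 h2
    _ ≤ Multiset.card g.roots := Multiset.toFinset_card_le _
    _ ≤ g.natDegree := Polynomial.card_roots' g
    _ ≤ d + 1 := hdeg

theorem c_bd (P : Polynomial ℤ) (X d A L : ℕ) (hL1 : 1 ≤ L) (hLd : d + 2 ≤ L) (hP : P.natDegree ≤ d)
    (hco : ∀ i, |P.coeff i| ≤ (X : ℤ) * (L : ℤ) ^ A) (t : ℕ) :
    |P.eval (t : ℤ) - X * t + X| ≤ (L : ℤ) ^ (A + 1) * ((2 * X + 1 : ℕ) : ℤ) * ((t : ℤ) + 1) ^ (d + 1) := by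
  have ht1 : (1 : ℤ) ≤ (t : ℤ) + 1 := by linarith [Int.natCast_nonneg t]
  have hL1' : (1 : ℤ) ≤ L := by exact_mod_cast hL1
  have hLA : (1 : ℤ) ≤ (L : ℤ) ^ A := one_le_pow₀ hL1'
  have hX0 : (0 : ℤ) ≤ X := Int.natCast_nonneg _
  have h1 : |P.eval (t : ℤ)| ≤ (d + 1) * ((X : ℤ) * (L : ℤ) ^ A * ((t : ℤ) + 1) ^ (d + 1)) := by
    rw [Polynomial.eval_eq_sum_range]
    refine (abs_sum_le_sum_abs _ _).trans ?_
    have h2 : ∀ i ∈ range (P.natDegree + 1), |P.coeff i * (t : ℤ) ^ i| ≤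
        (X : ℤ) * (L : ℤ) ^ A * ((t : ℤ) + 1) ^ (d + 1) := by
      intro i hi
      rw [mem_range] at hi
      rw [abs_mul, abs_of_nonneg (show (0 : ℤ) ≤ (t : ℤ) ^ i by positivity)]
      apply mul_le_mul (hco i) _ (by positivity) (by positivity)
      calc (t : ℤ) ^ i ≤ ((t : ℤ) + 1) ^ i := pow_le_pow_left₀ (by positivity) (by linarith) i
        _ ≤ _ := pow_le_pow_right₀ ht1 (by omega)
    refine (sum_le_card_nsmul _ _ _ h2).trans ?_
    rw [card_range, nsmul_eq_mul]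
    apply mul_le_mul_of_nonneg_right _ (by positivity)
    exact_mod_cast Nat.add_le_add_right hP 1
  have h2 : |P.eval (t : ℤ) - X * t + X| ≤ |P.eval (t : ℤ)| + X * ((t : ℤ) + 1) := by
    have h3 := abs_le.1 (le_refl |P.eval (t : ℤ)|)
    have h4 : (0 : ℤ) ≤ X * t := by positivity
    rw [abs_le]
    constructor
    · linarith [h3.1]
    · linarith [h3.2]
  have h3 : (X : ℤ) * ((t : ℤ) + 1) ≤ (X : ℤ) * (L : ℤ) ^ A * ((t : ℤ) + 1) ^ (d + 1) := by
    apply mul_le_mul _ _ (by positivity) (by positivity)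
    · nlinarith
    · calc (t : ℤ) + 1 = ((t : ℤ) + 1) ^ 1 := (pow_one _).symm
        _ ≤ _ := pow_le_pow_right₀ ht1 (by omega)
  obtain ⟨Z, hZ⟩ : ∃ Z : ℤ, Z = (L : ℤ) ^ A * ((t : ℤ) + 1) ^ (d + 1) := ⟨_, rfl⟩
  have hZ0 : 0 ≤ Z := by rw [hZ]; positivity
  have hLd' : (d : ℤ) + 2 ≤ L := by exact_mod_cast hLd
  calc _ ≤ (d + 1) * ((X : ℤ) * (L : ℤ) ^ A * ((t : ℤ) + 1) ^ (d + 1)) +
        (X : ℤ) * (L : ℤ) ^ A * ((t : ℤ) + 1) ^ (d + 1) := by linarith
    _ = ((d : ℤ) + 2) * (X * Z) := by rw [hZ]; ring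
    _ ≤ L * (X * Z) := mul_le_mul_of_nonneg_right hLd' (by positivity)
    _ ≤ L * ((2 * X + 1) * Z) := by
        apply mul_le_mul_of_nonneg_left _ (by linarith)
        exact mul_le_mul_of_nonneg_right (by linarith) hZ0
    _ = _ := by rw [hZ]; push_cast; ring

theorem polynomials (d m : ℕ) : ∃ k B : ℕ, ∀ S : Finset ℕ, k ≤ S.card → ∀ (A C : ℕ) (ε : ℝ), 0 < ε →
    ∃ X₀ : ℕ, ∀ X : ℕ, X₀ ≤ X → ∀ 𝒥 : Finset ℕ, (∀ J ∈ 𝒥, (J : ℝ) ≤ Real.log X ^ C) →
    ∀ P : Polynomial ℤ, P.natDegree ≤ d → (∀ i, |(P.coeff i : ℝ)| ≤ X * Real.log X ^ A) →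
    ∃ Bad : Finset (ℤ × ℤ), (Bad.card : ℝ) ≤ ε * X ^ 2 ∧ ∀ b c : ℤ, |b| ≤ X → |c| ≤ X →
      (∀ p : ℕ, p.Prime → ∃ t : ℤ, ¬ (p : ℤ) ∣ val P b c t) → (b, c) ∉ Bad →
      ∃ 𝒢 ⊆ 𝒥, (1 - ε) * 𝒥.card ≤ 𝒢.card ∧ ∀ J ∈ 𝒢, ∃ n : ℕ, J < n ∧
        (n : ℝ) ≤ J + Real.log X ^ B ∧
        m ≤ (S.filter (fun h => (val P b c (n + h : ℕ)).natAbs.Prime)).card := by
  classical
  obtain ⟨k, B, hmt⟩ := mt m (d + 1)
  refine ⟨k, B + 1, fun S hS A C ε hε => ?_⟩
  obtain ⟨S0, hS0⟩ := hmt S hS (A + 1) (d + 1) C (ε ^ 2 / 9) (by positivity)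
  obtain ⟨X0, hX0⟩ := log_evt B
  obtain ⟨X1, hX1⟩ := eventually_atTop.1 (evt_log_ge (d + 2))
  refine ⟨max S0 (max X0 (max X1 3)), fun X hX 𝒥 h𝒥 P hPd hPc => ?_⟩
  have hXS : S0 ≤ X := (le_max_left _ _).trans hX
  have hXX : X0 ≤ X := ((le_max_left _ _).trans (le_max_right _ _)).trans hX
  have hXX1 : X1 ≤ X := (((le_max_left _ _).trans (le_max_right _ _)).trans (le_max_right _ _)).trans hX
  have hX3 : 3 ≤ X := (((le_max_right _ _).trans (le_max_right _ _)).trans (le_max_right _ _)).trans hX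
  obtain ⟨l2, lS, lB⟩ := hX0 X (2 * X + 1) hXX (by omega) (by omega)
  have ld := hX1 X hXX1
  have hXr : (3 : ℝ) ≤ X := by exact_mod_cast hX3
  have hNN := NN_FP P X
  have hN0 : NN (FP P X) ≤ 9 * X ^ 2 := by rw [hNN]; nlinarith
  have hLge : Real.log X ≤ (⌈Real.log ((2 * X + 1 : ℕ) : ℝ)⌉₊ : ℕ) := lS.trans (Nat.le_ceil _)
  obtain ⟨L, hL⟩ : ∃ L, L = ⌈Real.log ((2 * X + 1 : ℕ) : ℝ)⌉₊ := ⟨_, rfl⟩
  rw [← hL] at hLge
  have hLd : d + 2 ≤ L := by
    have h1 : ((d + 2 : ℕ) : ℝ) ≤ L := by push_cast; linarith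
    exact_mod_cast h1
  obtain ⟨Ω, hΩ⟩ : ∃ Ω : Finset (ℤ × ℤ), Ω = ((Icc (-(X : ℤ)) X) ×ˢ (Icc (-(X : ℤ)) X)).filter
    (fun x => ∀ p : ℕ, p.Prime → ∃ t : ℤ, ¬ (p : ℤ) ∣ val P x.1 x.2 t) := ⟨_, rfl⟩
  have hd := double Ω 𝒥 (fun x J => ∃ n : ℕ, J < n ∧ (n : ℝ) ≤ J + Real.log X ^ (B + 1) ∧
    m ≤ (S.filter (fun h => (val P x.1 x.2 (n + h : ℕ)).natAbs.Prime)).card) ε (X ^ 2) hε
    (by positivity) (by
    intro J hJ
    obtain ⟨Bad, hb1, hb2⟩ := hS0 (FP P X) (by show S0 ≤ 2 * X + 1; omega)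
      (fun t => by
        show |P.eval (t : ℤ) - X * t + X| ≤ ((⌈Real.log ((2 * X + 1 : ℕ) : ℝ)⌉₊ : ℕ) : ℤ) ^ (A + 1) *
          ((2 * X + 1 : ℕ) : ℤ) * ((t : ℤ) + 1) ^ (d + 1)
        rw [← hL]
        apply c_bd P X d A L (by omega) hLd hPd _ t
        intro i
        have h1 := hPc i
        have h2 : (X : ℝ) * Real.log X ^ A ≤ X * (L : ℝ) ^ A := by
          apply mul_le_mul_of_nonneg_left _ (by positivity)
          exact pow_le_pow_left₀ (by linarith) hLge A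
        have h3 : |(P.coeff i : ℝ)| ≤ X * (L : ℝ) ^ A := h1.trans h2
        exact_mod_cast h3)
      (by
        rw [hNN]
        show ((2 * X + 1 : ℕ) : ℝ) ^ 2 ≤ _
        push_cast
        nlinarith [sq_nonneg (2 * (X : ℝ) + 1)]) J (by
        have h1 := h𝒥 J hJ
        have h2 : Real.log X ^ C ≤ Real.log ((2 * X + 1 : ℕ) : ℝ) ^ C :=
          pow_le_pow_left₀ (by linarith) lS C
        exact h1.trans h2)
    refine ⟨Bad.image (fun x => ((x.1 : ℤ) - X, (X : ℤ) - x.2)), ?_, ?_⟩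
    · calc (((Bad.image (fun x => ((x.1 : ℤ) - X, (X : ℤ) - x.2))).card : ℕ) : ℝ) ≤ Bad.card := by
            exact_mod_cast card_image_le
        _ ≤ ε ^ 2 / 9 * NN (FP P X) := hb1
        _ ≤ ε ^ 2 / 9 * (9 * X ^ 2) := mul_le_mul_of_nonneg_left hN0 (by positivity)
        _ = _ := by ring
    · rintro ⟨b, c⟩ hx hxB
      rw [hΩ, mem_filter, mem_product, mem_Icc, mem_Icc] at hx
      obtain ⟨⟨⟨b1, b2⟩, c1, c2⟩, hloc⟩ := hx
      simp only at b1 b2 c1 c2 hloc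
      have hb : |b| ≤ X := abs_le.2 ⟨b1, b2⟩
      have hc : |c| ≤ X := abs_le.2 ⟨c1, c2⟩
      have hnB : ((b + X).toNat, (X - c).toNat) ∉ Bad := by
        intro h
        apply hxB
        rw [mem_image]
        refine ⟨_, h, ?_⟩
        simp only [Prod.mk.injEq]
        constructor
        · rw [Int.toNat_of_nonneg (by linarith)]; ring
        · rw [Int.toNat_of_nonneg (by linarith)]; ring
      obtain ⟨i, hi1, hi2, hi3⟩ := hb2 ((b + X).toNat, (X - c).toNat)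
        (by show (b + X).toNat < 2 * X + 1; omega) (by show (X - c).toNat < 2 * X + 1; omega)
        (by
          intro p hp
          obtain ⟨t, ht⟩ := locP1 P b c p hp (hloc p hp)
          refine ⟨⟨t, by rw [vv_FP P X b c hb hc]; exact ht⟩, ?_⟩
          refine le_trans (le_of_eq ?_) (locP2 d P hPd b c p hp (hloc p hp))
          congr 1
          apply filter_congr
          intro t _
          rw [vv_FP P X b c hb hc]) hnB
      refine ⟨i, hi1, ?_, ?_⟩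
      · have h2 : (i : ℝ) ≤ J + Real.log ((2 * X + 1 : ℕ) : ℝ) ^ B := hi2
        linarith
      · refine hi3.trans (le_of_eq ?_)
        congr 1
        apply filter_congr
        intro h _
        rw [vv_FP P X b c hb hc])
  obtain ⟨Bad, _, hB2, hB3⟩ := hd
  refine ⟨Bad, hB2, fun b c hb hc hloc hnB => ?_⟩
  rw [abs_le] at hb hc
  exact hB3 (b, c) (by
    rw [hΩ, mem_filter, mem_product, mem_Icc, mem_Icc]
    exact ⟨⟨hb, hc⟩, hloc⟩) hnB

end Pool.Agent.N913.MG
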