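import Pool.Agent.N913.MG.L11
import Pool.Agent.N913.MT.F10

set_option autoImplicit false
set_option linter.unusedSectionVars false

/-! Parameters, admissible classes. -/

namespace Pool.Agent.N913.MG

open Finset Filter
open Pool.Agent.N913.MT (zX WX GX HX Wz Wz_le Wz_pos dvd_Wz evt_log_pow evt_log_ge TT crtT dvd_vn)

noncomputable def TS (S : ℕ) : ℝ := (S : ℝ) ^ (1 / 500 : ℝ)
noncomputable def RS (S : ℕ) : ℕ := ⌊TS S ^ 13⌋₊
noncomputable def YS (b sm A d S J0 : ℕ) : ℕ :=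
  S * (HX b sm S J0 + ⌈Real.log S⌉₊ ^ A * (HX b sm S J0 + 1) ^ d + 2)
def EE (b C A d : ℕ) : ℕ := (b + C + 7) * (d + 1) + 2 * A + 2

/-- the numerical facts -/
structure Fct (b C sm A d : ℕ) (cc : ℝ) (S J0 : ℕ) : Prop where
  l4 : 4 ≤ Real.log S
  lc : cc ≤ Real.log S
  W_le : (WX S : ℝ) ≤ Real.log S ^ 2
  G_ge : Real.log S ^ b ≤ GX b S
  WG_le : ((WX S * GX b S : ℕ) : ℝ) ≤ Real.log S ^ (b + 3)
  H_le : (HX b sm S J0 : ℝ) ≤ Real.log S ^ (b + C + 6)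
  W1 : 1 ≤ WX S
  T1 : 1 ≤ TS S
  HT : cc * Real.log S ^ (6 * EE b C A d) ≤ TS S
  T_S : TS S ^ 500 = S
  SY : S ≤ YS b sm A d S J0
  Y_le : (YS b sm A d S J0 : ℝ) ≤ S * Real.log S ^ (EE b C A d)
  lY1 : Real.log S ≤ Real.log (YS b sm A d S J0)
  lY2 : Real.log (YS b sm A d S J0) ≤ 2 * Real.log S
  R_ge : TS S ^ 12 ≤ RS S
  R_le : (RS S : ℝ) ≤ TS S ^ 13
  RY : Real.log (YS b sm A d S J0) ≤ 42 * Real.log (RS S)

theorem fct_evt (b C sm A d : ℕ) (cc : ℝ) : ∃ S0 : ℕ, ∀ S : ℕ, S0 ≤ S → ∀ J0 : ℕ,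
    (J0 : ℝ) ≤ Real.log S ^ C → Fct b C sm A d cc S J0 := by
  obtain ⟨S0, hS0⟩ := eventually_atTop.1 ((evt_log_pow (1 / 500) (by norm_num) (max cc 8)
    (6 * EE b C A d)).and ((evt_log_ge (max cc (max 4 sm))).and (eventually_ge_atTop 3)))
  refine ⟨S0, fun S hS J0 hJ0 => ?_⟩
  obtain ⟨g1, g2, g3⟩ := hS0 S hS
  have hS3 : (3 : ℝ) ≤ S := by exact_mod_cast g3
  have hS0' : (0 : ℝ) < S := by linarith
  obtain ⟨ℓ, hℓ⟩ : ∃ ℓ, ℓ = Real.log S := ⟨_, rfl⟩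
  rw [← hℓ] at g1 g2 hJ0
  have l4 : 4 ≤ ℓ := (le_trans (le_max_left _ _) (le_max_right _ _)).trans g2
  have lsm : (sm : ℝ) ≤ ℓ := (le_trans (le_max_right _ _) (le_max_right _ _)).trans g2
  have lD : ((⌈Real.log S⌉₊ : ℕ) : ℝ) ≤ ℓ ^ 2 := by
    rw [← hℓ]
    have := Nat.ceil_lt_add_one (show (0 : ℝ) ≤ ℓ by linarith)
    nlinarith
  have lc : cc ≤ ℓ := (le_max_left _ _).trans g2
  have hp1 : ∀ n : ℕ, 1 ≤ ℓ ^ n := fun n => one_le_pow₀ (by linarith)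
  have hpm : ∀ m n : ℕ, m ≤ n → ℓ ^ m ≤ ℓ ^ n := fun m n h => pow_le_pow_right₀ (by linarith) h
  obtain ⟨T, hT⟩ : ∃ T, T = TS S := ⟨_, rfl⟩
  have hT' : T = (S : ℝ) ^ (1 / 500 : ℝ) := hT
  rw [← hT'] at g1
  obtain ⟨E, hE⟩ : ∃ E, E = EE b C A d := ⟨_, rfl⟩
  rw [← hE] at g1
  have hE' : E = (b + C + 7) * (d + 1) + 2 * A + 2 := hE
  have hT8 : 8 * ℓ ^ (6 * E) ≤ T :=
    (mul_le_mul_of_nonneg_right (le_max_right cc 8) (by linarith [hp1 (6 * E)])).trans g1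
  have hTc : cc * ℓ ^ (6 * E) ≤ T :=
    (mul_le_mul_of_nonneg_right (le_max_left cc 8) (by linarith [hp1 (6 * E)])).trans g1
  have hT1 : 8 ≤ T := by
    have := hp1 (6 * E)
    linarith
  have hT0 : 0 < T := by linarith
  have hTX : T ^ 500 = S := by
    rw [hT', ← Real.rpow_natCast, ← Real.rpow_mul hS0'.le]
    norm_num
  have hlT : Real.log T = ℓ / 500 := by
    rw [hT', Real.log_rpow hS0', ← hℓ]; ring
  -- W
  have hll : 0 ≤ Real.log ℓ := Real.log_nonneg (by linarith)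
  have hW : (WX S : ℝ) ≤ ℓ ^ 2 := by
    have h1 : (WX S : ℝ) ≤ (4 : ℝ) ^ (zX S) := by
      have := Wz_le (zX S)
      unfold WX
      exact_mod_cast this
    have h2 : ((zX S : ℕ) : ℝ) ≤ Real.log ℓ := by
      unfold zX
      rw [← hℓ]
      exact Nat.floor_le hll
    have h3 : (4 : ℝ) ^ (zX S) = Real.exp (zX S * Real.log 4) := by
      rw [mul_comm, Real.exp_mul, Real.exp_log (by norm_num), Real.rpow_natCast]
    have h4 : Real.log 4 ≤ 2 := by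
      have : Real.log 4 = 2 * Real.log 2 := by
        rw [show (4 : ℝ) = 2 ^ 2 by norm_num, Real.log_pow]; norm_num
      rw [this]
      have := Real.log_two_lt_d9
      linarith
    have h5 : (zX S : ℝ) * Real.log 4 ≤ 2 * Real.log ℓ := by
      have h6 : 0 ≤ Real.log 4 := Real.log_nonneg (by norm_num)
      nlinarith
    have h6 : Real.exp (2 * Real.log ℓ) = ℓ ^ 2 := by
      rw [mul_comm, Real.exp_mul, Real.exp_log (by linarith)]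
      norm_num
    calc (WX S : ℝ) ≤ Real.exp (zX S * Real.log 4) := by rw [← h3]; exact h1
      _ ≤ Real.exp (2 * Real.log ℓ) := Real.exp_le_exp.2 h5
      _ = _ := h6
  have hW1 : 1 ≤ WX S := Wz_pos _
  have hG1 : ℓ ^ b ≤ GX b S := by unfold GX; rw [← hℓ]; exact Nat.le_ceil _
  have hG2 : (GX b S : ℝ) ≤ 2 * ℓ ^ b := by
    unfold GX
    rw [← hℓ]
    have := Nat.ceil_lt_add_one (show (0 : ℝ) ≤ ℓ ^ b by linarith [hp1 b])
    linarith [hp1 b]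
  have hWG : ((WX S * GX b S : ℕ) : ℝ) ≤ ℓ ^ (b + 3) := by
    push_cast
    calc (WX S : ℝ) * GX b S ≤ ℓ ^ 2 * (2 * ℓ ^ b) := by gcongr
      _ = 2 * ℓ ^ (b + 2) := by ring
      _ ≤ ℓ * ℓ ^ (b + 2) := by
          apply mul_le_mul_of_nonneg_right (by linarith) (by linarith [hp1 (b + 2)])
      _ = _ := by ring
  have hHm : (HX b sm S J0 : ℝ) ≤ ℓ ^ (b + C + 6) := by
    unfold HX
    push_cast at hWG ⊢
    obtain ⟨H', hH'⟩ : ∃ H', b + C + 6 = H' + 1 := ⟨b + C + 5, by omega⟩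
    have a1 : (J0 : ℝ) ≤ ℓ ^ H' := hJ0.trans (hpm _ _ (by omega))
    have a2 : (WX S : ℝ) ≤ ℓ ^ H' := hW.trans (hpm _ _ (by omega))
    have a3 : (WX S : ℝ) * GX b S ≤ ℓ ^ H' := hWG.trans (hpm _ _ (by omega))
    have a4 : (sm : ℝ) ≤ ℓ ^ H' := lsm.trans (by
      calc ℓ = ℓ ^ 1 := (pow_one ℓ).symm
        _ ≤ _ := hpm _ _ (by omega))
    rw [hH', pow_succ]
    have := hp1 H'
    nlinarith
  have hSY : S ≤ YS b sm A d S J0 := by
    unfold YS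
    exact Nat.le_mul_of_pos_right _ (by omega)
  have hY : (YS b sm A d S J0 : ℝ) ≤ S * ℓ ^ E := by
    unfold YS
    push_cast
    apply mul_le_mul_of_nonneg_left _ hS0'.le
    obtain ⟨E', hE''⟩ : ∃ E', E = E' + 1 := ⟨(b + C + 7) * (d + 1) + 2 * A + 1, by omega⟩
    have hE3 : E' = (b + C + 7) * d + (b + C + 7) + 2 * A + 1 := by
      have : (b + C + 7) * (d + 1) = (b + C + 7) * d + (b + C + 7) := by ring
      omega
    have a1 : (HX b sm S J0 : ℝ) ≤ ℓ ^ E' := hHm.trans (hpm _ _ (by omega))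
    have a2 : (HX b sm S J0 : ℝ) + 1 ≤ ℓ ^ (b + C + 7) := by
      rw [show b + C + 7 = (b + C + 6) + 1 by ring, pow_succ]
      have := hp1 (b + C + 6)
      nlinarith
    have a3 : ((⌈Real.log S⌉₊ : ℕ) : ℝ) ^ A * ((HX b sm S J0 : ℝ) + 1) ^ d ≤ ℓ ^ E' := by
      calc ((⌈Real.log S⌉₊ : ℕ) : ℝ) ^ A * ((HX b sm S J0 : ℝ) + 1) ^ d ≤
            (ℓ ^ 2) ^ A * (ℓ ^ (b + C + 7)) ^ d := by gcongr
        _ = ℓ ^ ((b + C + 7) * d + 2 * A) := by rw [← pow_mul, ← pow_mul, ← pow_add]; ring_nf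
        _ ≤ ℓ ^ E' := hpm _ _ (by omega)
    have a4 : (2 : ℝ) ≤ ℓ ^ E' := by
      calc (2 : ℝ) ≤ ℓ := by linarith
        _ = ℓ ^ 1 := (pow_one ℓ).symm
        _ ≤ _ := hpm _ _ (by omega)
    rw [hE'', pow_succ]
    have := hp1 E'
    nlinarith
  have hET : ℓ ^ E ≤ T := by
    have h1 : ℓ ^ E ≤ ℓ ^ (6 * E) := hpm _ _ (by omega)
    have := hp1 (6 * E)
    linarith
  have hYT : (YS b sm A d S J0 : ℝ) ≤ T ^ 501 := by
    refine hY.trans ?_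
    calc (S : ℝ) * ℓ ^ E ≤ S * T := mul_le_mul_of_nonneg_left hET hS0'.le
      _ = T ^ 500 * T := by rw [hTX]
      _ = _ := by ring
  have hYlo : (S : ℝ) ≤ (YS b sm A d S J0 : ℝ) := by exact_mod_cast hSY
  have hY0 : (0 : ℝ) < YS b sm A d S J0 := by linarith
  have hl1 : ℓ ≤ Real.log (YS b sm A d S J0) := by
    rw [hℓ]
    exact Real.log_le_log hS0' hYlo
  have hl2 : Real.log (YS b sm A d S J0) ≤ 501 * (ℓ / 500) := by
    have h1 := Real.log_le_log hY0 hYT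
    rw [Real.log_pow, hlT] at h1
    push_cast at h1
    exact h1
  have hR2 : (RS S : ℝ) ≤ T ^ 13 := by
    unfold RS
    rw [← hT]
    exact Nat.floor_le (by positivity)
  have hR1 : T ^ 12 ≤ RS S := by
    have h1 : T ^ 13 - 1 < RS S := by
      unfold RS
      rw [← hT]
      exact Nat.sub_one_lt_floor _
    have h2 : T ^ 13 = T * T ^ 12 := by ring
    have h3 : 1 ≤ T ^ 12 := one_le_pow₀ (by linarith)
    nlinarith
  have hlR : 12 * (ℓ / 500) ≤ Real.log (RS S) := by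
    have h1 := Real.log_le_log (by positivity) hR1
    rw [Real.log_pow, hlT] at h1
    push_cast at h1
    exact h1
  exact {
    l4 := by rw [← hℓ]; exact l4
    lc := by rw [← hℓ]; exact lc
    W_le := by rw [← hℓ]; exact hW
    G_ge := by rw [← hℓ]; exact hG1
    WG_le := by rw [← hℓ]; exact hWG
    H_le := by rw [← hℓ]; exact hHm
    W1 := hW1
    T1 := by rw [← hT]; linarith
    HT := by rw [← hℓ, ← hE, ← hT]; exact hTc
    T_S := by rw [← hT]; exact hTX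
    SY := hSY
    Y_le := by rw [← hℓ, ← hE]; exact hY
    lY1 := by rw [← hℓ]; exact hl1
    lY2 := by rw [← hℓ]; linarith
    R_ge := by rw [← hT]; exact hR1
    R_le := by rw [← hT]; exact hR2
    RY := by linarith }

/-- admissible base positions -/
theorem exists_i0 (Φ : Fam) {J : Type} [Fintype J] (h : J → ℕ) (z0 s0 r0 J0 : ℕ)
    (hch : ∀ p : ℕ, p.Prime → p ∣ Wz z0 → ∃ i : ℕ, ∀ j, ¬ (p : ℤ) ∣ vv Φ (i + h j) (s0, r0)) :
    ∃ i0 : ℕ, J0 < i0 ∧ i0 ≤ J0 + Wz z0 ∧ ∀ m : ℕ, ∀ j,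
      (vv Φ (i0 + Wz z0 * m + h j) (s0, r0)).natAbs.Coprime (Wz z0) := by
  classical
  obtain ⟨P', hP'⟩ : ∃ P', P' = (range z0).filter Nat.Prime := ⟨_, rfl⟩
  have hpr : ∀ p ∈ P', p.Prime := fun p hp => by rw [hP'] at hp; exact (mem_filter.1 hp).2
  have hpz : ∀ p ∈ P', p ∣ Wz z0 := fun p hp => by
    rw [dvd_Wz z0 p (hpr p hp)]
    rw [hP'] at hp
    exact mem_range.1 (mem_filter.1 hp).1
  have hch : ∀ t : P', ∃ i : ℕ, ∀ j, ¬ ((t : ℕ) : ℤ) ∣ vv Φ (i + h j) (s0, r0) := fun t =>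
    hch t (hpr t t.2) (hpz t t.2)
  choose c hc using hch
  obtain ⟨a, b, hab⟩ := crtT hpr 1 (fun p hp h => (hpr p hp).one_lt.ne' (Nat.dvd_one.1 h)) 0 0
    (fun t => (c t, c t)) univ
  have hT : 1 * TT (univ : Finset P') = Wz z0 := by
    unfold TT Wz
    rw [one_mul, Finset.prod_coe_sort P' (fun p => p), hP']
  rw [hT] at hab
  have hW := Wz_pos z0
  obtain ⟨i0, h1, h2, h3⟩ : ∃ i0, J0 < i0 ∧ i0 ≤ J0 + Wz z0 ∧ i0 ≡ a [MOD Wz z0] := by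
    refine ⟨J0 + 1 + ((a + (Wz z0 - 1) * (J0 + 1)) % Wz z0), by omega, ?_, ?_⟩
    · have := Nat.mod_lt (a + (Wz z0 - 1) * (J0 + 1)) hW
      omega
    · have h4 : J0 + 1 + ((a + (Wz z0 - 1) * (J0 + 1)) % Wz z0) ≡
          J0 + 1 + (a + (Wz z0 - 1) * (J0 + 1)) [MOD Wz z0] := Nat.ModEq.add_left _ (Nat.mod_modEq _ _)
      have h5 : J0 + 1 + (a + (Wz z0 - 1) * (J0 + 1)) = a + Wz z0 * (J0 + 1) := by
        obtain ⟨w, hw⟩ : ∃ w, Wz z0 = w + 1 := ⟨Wz z0 - 1, by omega⟩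
        rw [hw, Nat.add_sub_cancel]
        ring
      rw [h5] at h4
      exact h4.trans (by unfold Nat.ModEq; simp)
  refine ⟨i0, h1, h2, fun m j => ?_⟩
  rw [Nat.coprime_iff_gcd_eq_one]
  by_contra hne
  obtain ⟨p, hp, hpd⟩ := Nat.exists_prime_and_dvd hne
  have g1 := hpd.trans (Nat.gcd_dvd_left _ _)
  have g2 := hpd.trans (Nat.gcd_dvd_right _ _)
  have g3 : (p : ℤ) ∣ vv Φ (i0 + Wz z0 * m + h j) (s0, r0) := Int.natCast_dvd.2 g1
  have hpz := (dvd_Wz z0 p hp).1 g2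
  have hpP : p ∈ P' := by rw [hP']; exact mem_filter.2 ⟨mem_range.2 hpz, hp⟩
  have g4 := ((hab (a, b)).1 ⟨rfl, rfl⟩).2.2 ⟨p, hpP⟩ (mem_univ _)
  have g5 : i0 ≡ c ⟨p, hpP⟩ [MOD p] := (h3.of_dvd g2).trans g4.1
  apply hc ⟨p, hpP⟩ j
  apply (vv_shift Φ p (i0 + Wz z0 * m + h j) (c ⟨p, hpP⟩ + h j) (s0, r0) _).1 g3
  have g6 : (p : ℤ) ∣ (i0 : ℤ) - c ⟨p, hpP⟩ := Nat.modEq_iff_dvd.1 g5.symm
  have g7 : (p : ℤ) ∣ (Wz z0 : ℤ) * m := Dvd.dvd.mul_right (by exact_mod_cast g2) _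
  have e : ((i0 + Wz z0 * m + h j : ℕ) : ℤ) - ((c ⟨p, hpP⟩ + h j : ℕ) : ℤ) =
      (i0 - c ⟨p, hpP⟩) + Wz z0 * m := by push_cast; ring
  rw [e]
  exact dvd_add g6 g7

end Pool.Agent.N913.MG
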