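import Pool.Agent.N913.MT.B7
import Pool.Agent.N913.MT.B4

set_option autoImplicit false
set_option linter.unusedSectionVars false

/-! The local densities, general families. -/

namespace Pool.Agent.N913.MG

open Finset
open Pool.Agent.N913.MT (Cl one_b one_a Ip idf cnt prod_slots cnt_le idf_bd Ip_bd Ip_empty)

/-- a family of values `s * t + c t - r` for the pairs `s < S2`, `r < g s` -/
structure Fam where
  c : ℕ → ℤ
  g : ℕ → ℕ
  S2 : ℕ
  hc : ∀ t t' : ℕ, ((t : ℤ) - t') ∣ c t - c t'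
  hS : 1 ≤ S2
  hg1 : ∀ s, g s ≤ g (s + 1)
  hg2 : ∀ s, g (s + 1) ≤ g s + 1
  hg3 : ∀ s, s < S2 → g s ≤ S2

variable (Φ : Fam)

/-- the value at the position `τ`, `x = (s, r)` -/
def vv (τ : ℕ) (x : ℕ × ℕ) : ℤ := x.1 * τ + Φ.c τ - x.2

theorem card_Z1 (p : ℕ) (hp : 0 < p) (τ : ℕ) :
    ((Cl p).filter (fun x => (p : ℤ) ∣ vv Φ τ x)).card = p := by
  unfold Cl
  rw [card_filter, sum_product]
  have : ∀ a ∈ range p, ∑ b ∈ range p, (if (p : ℤ) ∣ vv Φ τ (a, b) then 1 else 0) = 1 := by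
    intro a _
    rw [← card_filter]
    exact one_b p hp (a * τ + Φ.c τ)
  rw [sum_congr rfl this]
  simp

theorem diff_vv (τ τ' : ℕ) (x : ℕ × ℕ) :
    vv Φ τ x - vv Φ τ' x = ((τ : ℤ) - τ') * x.1 + (Φ.c τ - Φ.c τ') := by
  unfold vv; ring

theorem vv_shift (p τ τ' : ℕ) (x : ℕ × ℕ) (h : (p : ℤ) ∣ (τ : ℤ) - τ') :
    (p : ℤ) ∣ vv Φ τ x ↔ (p : ℤ) ∣ vv Φ τ' x := by
  have h1 := diff_vv Φ τ τ' x
  have h2 : (p : ℤ) ∣ vv Φ τ x - vv Φ τ' x := by
    rw [h1]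
    exact dvd_add (Dvd.dvd.mul_right h _) (h.trans (Φ.hc τ τ'))
  constructor
  · intro h3
    have := dvd_sub h3 h2
    simpa using this
  · intro h3
    have := dvd_add h2 h3
    simpa using this

theorem card_Z2 (p : ℕ) (hp : p.Prime) (τ τ' : ℕ) (hd : ¬ (p : ℤ) ∣ (τ : ℤ) - τ') :
    ((Cl p).filter (fun x => (p : ℤ) ∣ vv Φ τ x ∧ (p : ℤ) ∣ vv Φ τ' x)).card = 1 := by
  have hiff : ∀ x : ℕ × ℕ, ((p : ℤ) ∣ vv Φ τ x ∧ (p : ℤ) ∣ vv Φ τ' x) ↔
      ((p : ℤ) ∣ ((τ : ℤ) - τ') * x.1 + (Φ.c τ - Φ.c τ') ∧ (p : ℤ) ∣ vv Φ τ x) := by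
    intro x
    constructor
    · rintro ⟨h3, h4⟩
      have h5 := dvd_sub h3 h4
      rw [diff_vv] at h5
      exact ⟨h5, h3⟩
    · rintro ⟨h3, h4⟩
      refine ⟨h4, ?_⟩
      have h5 : vv Φ τ' x = vv Φ τ x - (((τ : ℤ) - τ') * x.1 + (Φ.c τ - Φ.c τ')) := by
        rw [← diff_vv]; ring
      rw [h5]
      exact dvd_sub h4 h3
  rw [filter_congr (fun x _ => hiff x)]
  unfold Cl
  rw [card_filter, sum_product]
  have : ∀ a ∈ range p, ∑ b ∈ range p, (if (p : ℤ) ∣ ((τ : ℤ) - τ') * (((a, b) : ℕ × ℕ).1 : ℤ) +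
      (Φ.c τ - Φ.c τ') ∧ (p : ℤ) ∣ vv Φ τ (a, b) then 1 else 0) =
      if (p : ℤ) ∣ ((τ : ℤ) - τ') * (a : ℤ) + (Φ.c τ - Φ.c τ') then 1 else 0 := by
    intro a _
    by_cases h : (p : ℤ) ∣ ((τ : ℤ) - τ') * (a : ℤ) + (Φ.c τ - Φ.c τ')
    · simp only [h, true_and, if_true]
      rw [← card_filter]
      exact one_b p hp.pos (a * τ + Φ.c τ)
    · simp [h]
  rw [sum_congr rfl this, ← card_filter]
  exact one_a p hp _ _ hd

/-- the probability of the intersections -/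
theorem PU (p : ℕ) (hp : p.Prime) {Q : Type} [Fintype Q] [DecidableEq Q] (pos : Q → ℕ)
    (hpos : ∀ q q', q ≠ q' → ¬ (p : ℤ) ∣ (pos q : ℤ) - pos q') (U : Finset Q) :
    |(((Cl p).filter (fun x => ∀ q ∈ U, (p : ℤ) ∣ vv Φ (pos q) x)).card : ℝ) / (p : ℝ) ^ 2 -
      (1 / (p : ℝ)) ^ U.card| ≤ (1 / (p : ℝ)) ^ 2 := by
  have hp0 : (0 : ℝ) < p := by exact_mod_cast hp.pos
  have hp1 : 1 / (p : ℝ) ≤ 1 := by
    rw [div_le_one hp0]
    exact_mod_cast hp.one_lt.le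
  have hp1' : 0 ≤ 1 / (p : ℝ) := by positivity
  rcases Nat.lt_or_ge U.card 3 with hU | hU
  · have h30 : (0 : ℝ) ≤ (1 / (p : ℝ)) ^ 2 := by positivity
    interval_cases h : U.card
    · rw [card_eq_zero] at h
      subst h
      simp only [notMem_empty, false_implies, implies_true, filter_true]
      unfold Cl
      rw [card_product, card_range]
      push_cast
      rw [pow_zero, ← sq, div_self (by positivity), sub_self, abs_zero]
      exact h30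
    · rw [card_eq_one] at h
      obtain ⟨q, rfl⟩ := h
      simp only [mem_singleton, forall_eq]
      rw [card_Z1 Φ p hp.pos]
      have : (p : ℝ) / (p : ℝ) ^ 2 - (1 / (p : ℝ)) ^ 1 = 0 := by field_simp; ring
      rw [this, abs_zero]
      exact h30
    · rw [card_eq_two] at h
      obtain ⟨q, q', hq, rfl⟩ := h
      simp only [mem_insert, mem_singleton, forall_eq_or_imp, forall_eq]
      rw [card_Z2 Φ p hp _ _ (hpos q q' hq)]
      have : ((1 : ℕ) : ℝ) / (p : ℝ) ^ 2 - (1 / (p : ℝ)) ^ 2 = 0 := by push_cast; field_simp; ring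
      rw [this, abs_zero]
      exact h30
  · have h3 : (((Cl p).filter (fun x => ∀ q ∈ U, (p : ℤ) ∣ vv Φ (pos q) x)).card : ℝ) ≤ 1 := by
      obtain ⟨V, hV, hVc⟩ := exists_subset_card_eq (show 2 ≤ U.card by omega)
      rw [card_eq_two] at hVc
      obtain ⟨a, b, hab, rfl⟩ := hVc
      have h4 : (Cl p).filter (fun x => ∀ q ∈ U, (p : ℤ) ∣ vv Φ (pos q) x) ⊆
          (Cl p).filter (fun x => (p : ℤ) ∣ vv Φ (pos a) x ∧ (p : ℤ) ∣ vv Φ (pos b) x) := by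
        intro x hx
        rw [mem_filter] at hx ⊢
        exact ⟨hx.1, hx.2 a (hV (by simp)), hx.2 b (hV (by simp))⟩
      have h5 := card_le_card h4
      rw [card_Z2 Φ p hp _ _ (hpos a b hab)] at h5
      exact_mod_cast h5
    have h4 : (((Cl p).filter (fun x => ∀ q ∈ U, (p : ℤ) ∣ vv Φ (pos q) x)).card : ℝ) / (p : ℝ) ^ 2 ≤
        (1 / (p : ℝ)) ^ 2 := by
      rw [one_div, inv_pow, ← one_div]
      exact div_le_div_of_nonneg_right h3 (by positivity)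
    have h5 : (0 : ℝ) ≤ (((Cl p).filter (fun x => ∀ q ∈ U, (p : ℤ) ∣ vv Φ (pos q) x)).card : ℝ) /
        (p : ℝ) ^ 2 := by positivity
    have h6 : (1 / (p : ℝ)) ^ U.card ≤ (1 / (p : ℝ)) ^ 2 := pow_le_pow_of_le_one hp1' hp1 (by omega)
    have h7 : 0 ≤ (1 / (p : ℝ)) ^ U.card := by positivity
    rw [abs_le]
    constructor <;> linarith

/-- averages of products over distinct positions -/
theorem local_mix (p : ℕ) (hp : p.Prime) {Q : Type} [Fintype Q] [DecidableEq Q]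
    (pos : Q → ℕ) (hpos : ∀ q q', q ≠ q' → ¬ (p : ℤ) ∣ (pos q : ℤ) - pos q') (A B : Q → ℝ) :
    |(∑ x ∈ Cl p, ∏ q, (if (p : ℤ) ∣ vv Φ (pos q) x then A q + B q else A q)) / (p : ℝ) ^ 2 -
      ∏ q, (A q + B q / p)| ≤ (1 / (p : ℝ)) ^ 2 * ∏ q, (|A q| + |B q|) := by
  classical
  have hp0 : (0 : ℝ) < p := by exact_mod_cast hp.pos
  have e1 : ∀ x, ∏ q, (if (p : ℤ) ∣ vv Φ (pos q) x then A q + B q else A q) =
      ∑ U ∈ (univ : Finset Q).powerset, (∏ q ∈ U, B q) * (∏ q ∈ univ \ U, A q) *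
        (if ∀ q ∈ U, (p : ℤ) ∣ vv Φ (pos q) x then 1 else 0) := by
    intro x
    have h1 : ∀ q, (if (p : ℤ) ∣ vv Φ (pos q) x then A q + B q else A q) =
        B q * (if (p : ℤ) ∣ vv Φ (pos q) x then 1 else 0) + A q := by
      intro q; split_ifs <;> ring
    rw [prod_congr rfl (fun q _ => h1 q), prod_add]
    refine sum_congr rfl fun U _ => ?_
    rw [prod_mul_distrib]
    have h3 : ∏ q ∈ U, (if (p : ℤ) ∣ vv Φ (pos q) x then (1 : ℝ) else 0) =
        if ∀ q ∈ U, (p : ℤ) ∣ vv Φ (pos q) x then 1 else 0 := by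
      rw [prod_ite_zero]
      simp
    rw [h3]; ring
  have e2 : (∑ x ∈ Cl p, ∏ q, (if (p : ℤ) ∣ vv Φ (pos q) x then A q + B q else A q)) / (p : ℝ) ^ 2 =
      ∑ U ∈ (univ : Finset Q).powerset, (∏ q ∈ U, B q) * (∏ q ∈ univ \ U, A q) *
        ((((Cl p).filter (fun x => ∀ q ∈ U, (p : ℤ) ∣ vv Φ (pos q) x)).card : ℝ) / (p : ℝ) ^ 2) := by
    rw [sum_congr rfl (fun x _ => e1 x), sum_comm, sum_div]
    refine sum_congr rfl fun U _ => ?_
    rw [← mul_sum, mul_div_assoc, card_filter]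
    push_cast
    rfl
  have e3 : ∏ q, (A q + B q / p) = ∑ U ∈ (univ : Finset Q).powerset, (∏ q ∈ U, B q) *
      (∏ q ∈ univ \ U, A q) * (1 / (p : ℝ)) ^ U.card := by
    have h1 : ∀ q, A q + B q / p = B q * (1 / (p : ℝ)) + A q := by intro q; ring
    rw [prod_congr rfl (fun q _ => h1 q), prod_add]
    refine sum_congr rfl fun U _ => ?_
    rw [prod_mul_distrib, prod_const]; ring
  have e4 : ∏ q, (|A q| + |B q|) = ∑ U ∈ (univ : Finset Q).powerset, (∏ q ∈ U, |B q|) *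
      (∏ q ∈ univ \ U, |A q|) := by
    rw [← prod_add]
    exact prod_congr rfl fun q _ => add_comm _ _
  rw [e2, e3, e4, ← sum_sub_distrib, mul_sum]
  refine (abs_sum_le_sum_abs _ _).trans (sum_le_sum fun U _ => ?_)
  rw [← mul_sub, abs_mul, abs_mul, abs_prod, abs_prod, mul_comm]
  exact mul_le_mul_of_nonneg_right (PU Φ p hp pos hpos U)
    (mul_nonneg (prod_nonneg fun _ _ => abs_nonneg _) (prod_nonneg fun _ _ => abs_nonneg _))


/-- the character -/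
noncomputable def chi (p : ℕ) (τ : ℕ) (x : ℕ × ℕ) : ℝ :=
  if (p : ℤ) ∣ vv Φ τ x then -1 else 1 / ((p : ℝ) - 1)

section loc
variable {B J : Type} [Fintype B] [Fintype J] [DecidableEq B] [DecidableEq J]

/-- the factor of the prime slots -/
noncomputable def pf (p : ℕ) (l : Option J) (pos : B × J → ℕ) (x : ℕ × ℕ) : ℝ :=
  ∏ q : B × J, if l = some q.2 then (if (p : ℤ) ∣ vv Φ (pos q) x then 0 else 1 + 1 / ((p : ℝ) - 1)) else 1

theorem local_good (p : ℕ) (hp : p.Prime) (h3 : 3 ≤ p) (l : Option J) (pos : B × J → ℕ)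
    (hpos : ∀ q q', q ≠ q' → ¬ (p : ℤ) ∣ (pos q : ℤ) - pos q') (A : Finset (B × Bool × J)) :
    |(∑ x ∈ Cl p, pf Φ p l pos x * ∏ τ ∈ A, chi Φ p (pos (τ.1, τ.2.2)) x) / (p : ℝ) ^ 2 -
      Ip (1 / ((p : ℝ) - 1)) l A| ≤ (1 / (p : ℝ)) ^ 2 * 4 ^ (Fintype.card (B × J)) := by
  have hp3 : (3 : ℝ) ≤ p := by exact_mod_cast h3
  obtain ⟨ν, hν⟩ : ∃ ν, ν = 1 / ((p : ℝ) - 1) := ⟨_, rfl⟩
  have hν0 : 0 < ν := by rw [hν]; apply div_pos one_pos; linarith
  have hν1 : ν ≤ 1 / 2 := by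
    rw [hν]
    apply one_div_le_one_div_of_le <;> linarith
  have hpν : 1 / (p : ℝ) = ν / (1 + ν) := by
    rw [hν]
    have h1 : (p : ℝ) - 1 ≠ 0 := by linarith
    have h2 : (p : ℝ) ≠ 0 := by linarith
    have h4 : 1 + 1 / ((p : ℝ) - 1) = p / (p - 1) := by field_simp; ring
    rw [h4, div_div_div_cancel_right₀ h1]
  have hA := local_mix Φ p hp pos hpos
    (fun q => if l = some q.2 then (1 + ν) * ν ^ cnt A q else ν ^ cnt A q)
    (fun q => if l = some q.2 then -((1 + ν) * ν ^ cnt A q) else (-1) ^ cnt A q - ν ^ cnt A q)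
  have e1 : ∀ x, pf Φ p l pos x * ∏ τ ∈ A, chi Φ p (pos (τ.1, τ.2.2)) x =
      ∏ q, (if (p : ℤ) ∣ vv Φ (pos q) x then
        (if l = some q.2 then (1 + ν) * ν ^ cnt A q else ν ^ cnt A q) +
        (if l = some q.2 then -((1 + ν) * ν ^ cnt A q) else (-1) ^ cnt A q - ν ^ cnt A q)
        else (if l = some q.2 then (1 + ν) * ν ^ cnt A q else ν ^ cnt A q)) := by
    intro x
    rw [prod_slots A (fun q => chi Φ p (pos q) x)]
    unfold pf
    rw [← prod_mul_distrib]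
    refine prod_congr rfl fun q _ => ?_
    unfold chi
    rw [← hν]
    by_cases h1 : l = some q.2
    · by_cases h2 : (p : ℤ) ∣ vv Φ (pos q) x
      · simp [h1, h2]
      · simp [h1, h2]
    · by_cases h2 : (p : ℤ) ∣ vv Φ (pos q) x
      · simp [h1, h2]
      · simp [h1, h2]
  have e2 : Ip (1 / ((p : ℝ) - 1)) l A =
      ∏ q, ((if l = some q.2 then (1 + ν) * ν ^ cnt A q else ν ^ cnt A q) +
        (if l = some q.2 then -((1 + ν) * ν ^ cnt A q) else (-1) ^ cnt A q - ν ^ cnt A q) / p) := by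
    unfold Ip
    rw [← hν]
    refine prod_congr rfl fun q _ => ?_
    unfold idf
    have hc := cnt_le A q
    rw [div_eq_mul_one_div _ (p : ℝ), hpν]
    by_cases h1 : l = some q.2
    · simp only [h1, if_true]
      field_simp
      ring
    · simp only [h1, if_false]
      interval_cases hc' : cnt A q
      · simp
      · simp only [one_ne_zero, if_false, if_true, pow_one]
        field_simp
        ring
      · simp only [show (2 : ℕ) ≠ 0 by norm_num, show (2 : ℕ) ≠ 1 by norm_num, if_false]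
        field_simp
        ring
  rw [sum_congr rfl (fun x _ => e1 x), e2]
  refine hA.trans ?_
  apply mul_le_mul_of_nonneg_left _ (by positivity)
  have hcard : (4 : ℝ) ^ (Fintype.card (B × J)) = ∏ _q : B × J, (4 : ℝ) := by
    rw [prod_const, card_univ]
  rw [hcard]
  apply prod_le_prod
  · intro q _
    positivity
  · intro q _
    have hn : ∀ n : ℕ, 0 ≤ ν ^ n ∧ ν ^ n ≤ 1 := fun n =>
      ⟨pow_nonneg hν0.le n, pow_le_one₀ hν0.le (by linarith)⟩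
    obtain ⟨a1, a2⟩ := hn (cnt A q)
    by_cases h1 : l = some q.2
    · simp only [h1, if_true, abs_neg]
      rw [abs_of_nonneg (by positivity)]
      nlinarith
    · simp only [h1, if_false]
      have h5 : |(-1 : ℝ) ^ cnt A q| = 1 := by rw [abs_pow]; simp
      have h6 := abs_sub ((-1 : ℝ) ^ cnt A q) (ν ^ cnt A q)
      rw [h5, abs_of_nonneg a1] at h6
      rw [abs_of_nonneg a1]
      linarith

theorem chi_abs (p : ℕ) (h3 : 3 ≤ p) (τ : ℕ) (x : ℕ × ℕ) :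
    |chi Φ p τ x| ≤ 1 ∧ |chi Φ p τ x| ≤ 2 / p + (if (p : ℤ) ∣ vv Φ τ x then 1 else 0) := by
  have hp3 : (3 : ℝ) ≤ p := by exact_mod_cast h3
  have h1 : 1 / ((p : ℝ) - 1) ≤ 2 / p := by
    rw [div_le_div_iff₀ (by linarith) (by linarith)]
    linarith
  have h2 : 2 / (p : ℝ) ≤ 1 := by rw [div_le_one (by linarith)]; linarith
  have h0 : 0 ≤ 1 / ((p : ℝ) - 1) := by apply div_nonneg zero_le_one; linarith
  have h4 : 0 ≤ 2 / (p : ℝ) := by positivity
  unfold chi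
  split_ifs
  · constructor
    · simp
    · simp [h4]
  · rw [abs_of_nonneg h0]
    constructor <;> linarith

theorem prod_chi_le (p : ℕ) (h3 : 3 ≤ p) (pos : B × J → ℕ) (A : Finset (B × Bool × J))
    (τ : B × Bool × J) (hτ : τ ∈ A) (x : ℕ × ℕ) :
    |∏ τ ∈ A, chi Φ p (pos (τ.1, τ.2.2)) x| ≤
      2 / p + (if (p : ℤ) ∣ vv Φ (pos (τ.1, τ.2.2)) x then 1 else 0) := by
  rw [abs_prod, ← mul_prod_erase A _ hτ]
  have h1 : ∏ τ ∈ A.erase τ, |chi Φ p (pos (τ.1, τ.2.2)) x| ≤ 1 :=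
    prod_le_one (fun _ _ => abs_nonneg _) (fun τ _ => (chi_abs Φ p h3 _ x).1)
  have h2 := (chi_abs Φ p h3 (pos (τ.1, τ.2.2)) x).2
  calc _ ≤ |chi Φ p (pos (τ.1, τ.2.2)) x| * 1 := mul_le_mul_of_nonneg_left h1 (abs_nonneg _)
    _ ≤ _ := by rw [mul_one]; exact h2

/-- the total variation -/
theorem sum_chi (p : ℕ) (hp : p.Prime) (h3 : 3 ≤ p) (pos : B × J → ℕ) (A : Finset (B × Bool × J))
    (hA : A.Nonempty) : ∑ x ∈ Cl p, |∏ τ ∈ A, chi Φ p (pos (τ.1, τ.2.2)) x| ≤ 3 * p := by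
  obtain ⟨τ, hτ⟩ := hA
  have hp3 : (3 : ℝ) ≤ p := by exact_mod_cast h3
  refine (sum_le_sum fun x _ => prod_chi_le Φ p h3 pos A τ hτ x).trans ?_
  rw [sum_add_distrib, sum_const, nsmul_eq_mul]
  have h1 : ∑ x ∈ Cl p, (if (p : ℤ) ∣ vv Φ (pos (τ.1, τ.2.2)) x then (1 : ℝ) else 0) = p := by
    rw [← sum_filter, sum_const, nsmul_eq_mul, card_Z1 Φ p hp.pos, mul_one]
  have h2 : ((Cl p).card : ℝ) * (2 / p) = 2 * p := by
    unfold Cl
    rw [card_product, card_range]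
    push_cast
    field_simp
  rw [h1, h2]
  linarith

/-- bad primes -/
theorem local_bad (p : ℕ) (hp : p.Prime) (h3 : 3 ≤ p) (β : ℕ × ℕ → ℝ)
    (hβ : ∀ x, |β x| ≤ 4 / (p : ℝ) ^ 2) (pos : B × J → ℕ) (A : Finset (B × Bool × J))
    (hA : A.Nonempty) : |∑ x ∈ Cl p, β x * ∏ τ ∈ A, chi Φ p (pos (τ.1, τ.2.2)) x| ≤ 12 / p := by
  have hp3 : (3 : ℝ) ≤ p := by exact_mod_cast h3
  refine (abs_sum_le_sum_abs _ _).trans ?_
  have h1 : ∀ x ∈ Cl p, |β x * ∏ τ ∈ A, chi Φ p (pos (τ.1, τ.2.2)) x| ≤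
      4 / (p : ℝ) ^ 2 * |∏ τ ∈ A, chi Φ p (pos (τ.1, τ.2.2)) x| := by
    intro x _
    rw [abs_mul]
    exact mul_le_mul_of_nonneg_right (hβ x) (abs_nonneg _)
  refine (sum_le_sum h1).trans ?_
  rw [← mul_sum]
  refine (mul_le_mul_of_nonneg_left (sum_chi Φ p hp h3 pos A hA) (by positivity)).trans (le_of_eq ?_)
  field_simp
  norm_num


end loc

end Pool.Agent.N913.MG
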