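import Pool.Agent.N913.MG.L13

set_option autoImplicit false
set_option linter.unusedSectionVars false

/-! From the classes to almost all pairs. -/

namespace Pool.Agent.N913.MG

open Finset Filter
open Pool.Agent.N913.MT (zX WX GX HX Wz Wz_le Wz_pos dvd_Wz Wphi)

/-- the local condition of a class -/
theorem vv_mod (Φ : Fam) (p W τ : ℕ) (hpW : p ∣ W) (x y : ℕ × ℕ) (h1 : x.1 ≡ y.1 [MOD W])
    (h2 : x.2 ≡ y.2 [MOD W]) : (p : ℤ) ∣ vv Φ τ x ↔ (p : ℤ) ∣ vv Φ τ y := by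
  have a1 : (p : ℤ) ∣ (y.1 : ℤ) - x.1 := Nat.modEq_iff_dvd.1 (h1.of_dvd hpW)
  have a2 : (p : ℤ) ∣ (y.2 : ℤ) - x.2 := Nat.modEq_iff_dvd.1 (h2.of_dvd hpW)
  have a3 : (p : ℤ) ∣ vv Φ τ y - vv Φ τ x := by
    have : vv Φ τ y - vv Φ τ x = ((y.1 : ℤ) - x.1) * τ - ((y.2 : ℤ) - x.2) := by unfold vv; ring
    rw [this]
    exact dvd_sub (Dvd.dvd.mul_right a1 _) a2
  constructor
  · intro h
    have := dvd_add a3 h
    simpa using this
  · intro h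
    have := dvd_sub h a3
    simpa using this

theorem pairs {J : Type} [Fintype J] [DecidableEq J] (K m : ℕ) (hJ : Fintype.card J = 2 ^ K)
    (c0 : ℝ) (hc0 : 0 < c0) (zc : ℕ)
    (hzc : ∀ z0, zc ≤ z0 → c0 * Real.log z0 ≤ (Wz z0 : ℝ) / Nat.totient (Wz z0))
    (hK : 12096000 * (m : ℝ) < c0 * (K + 1))
    (h : J → ℕ) (hinj : ∀ j j', j ≠ j' → h j ≠ h j')
    (sm : ℕ) (hsm : ∀ j, h j ≤ sm)
    (b C A d : ℕ) (hb : b = 12 * 2 ^ (Fintype.card (Fin 2 × Bool × J)) + 4) (θ : ℝ) (hθ0 : 0 < θ)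
    (hθ : θ ≤ 1 / 2) :
    ∃ S0 : ℕ, ∀ Φ : Fam, S0 ≤ Φ.S2 →
      (∀ t : ℕ, |Φ.c t| ≤ ⌈Real.log Φ.S2⌉₊ ^ A * Φ.S2 * (t + 1) ^ d) →
      (Φ.S2 : ℝ) ^ 2 ≤ 4 * NN Φ → ∀ J0 : ℕ, (J0 : ℝ) ≤ Real.log Φ.S2 ^ C →
      ∃ Bad : Finset (ℕ × ℕ), (Bad.card : ℝ) ≤ 44 * (Fintype.card J + 1) * θ * NN Φ ∧
        ∀ n : ℕ × ℕ, n.1 < Φ.S2 → n.2 < Φ.g n.1 →
          (∀ p : ℕ, p.Prime → ∃ i : ℕ, ∀ j, ¬ (p : ℤ) ∣ vv Φ (i + h j) n) → n ∉ Bad →
          ∃ i : ℕ, J0 < i ∧ (i : ℝ) ≤ J0 + Real.log Φ.S2 ^ (b + 3) ∧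
            m ≤ ((univ : Finset J).filter (fun l => (vv Φ (i + h l) n).natAbs.Prime)).card := by
  classical
  obtain ⟨S0, hS0⟩ := class_thm K m hJ c0 hc0 zc hzc hK h hinj sm hsm b C A d hb θ hθ0 hθ
  refine ⟨S0, fun Φ hΦ hc hN J0 hJ0 => ?_⟩
  obtain ⟨hWG, hW1, hcls⟩ := hS0 Φ hΦ hc hN J0 hJ0
  obtain ⟨W, hW⟩ : ∃ W, W = WX Φ.S2 := ⟨_, rfl⟩
  rw [← hW] at hWG hW1 hcls
  have hcls' : ∀ s0 r0 : ℕ, ∃ B : Finset (ℕ × ℕ),
      (B.card : ℝ) ≤ 44 * (Fintype.card J + 1) * θ * (NN Φ / (W : ℝ) ^ 2) ∧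
      ((∀ p : ℕ, p.Prime → p ∣ W → ∃ i : ℕ, ∀ j, ¬ (p : ℤ) ∣ vv Φ (i + h j) (s0, r0)) →
      ∀ n ∈ CS Φ W s0 r0, n ∉ B → ∃ i : ℕ, J0 < i ∧ i ≤ J0 + W * GX b Φ.S2 ∧
        m ≤ ((univ : Finset J).filter (fun l => (vv Φ (i + h l) n).natAbs.Prime)).card) := by
    intro s0 r0
    by_cases hch : ∀ p : ℕ, p.Prime → p ∣ W → ∃ i : ℕ, ∀ j, ¬ (p : ℤ) ∣ vv Φ (i + h j) (s0, r0)
    · obtain ⟨B, _, h2, h3⟩ := hcls s0 r0 hch
      exact ⟨B, h2, fun _ => h3⟩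
    · refine ⟨∅, ?_, fun h' => absurd h' hch⟩
      rw [card_empty]
      have := NN_nonneg Φ
      push_cast
      positivity
  choose B hB1 hB2 using hcls'
  refine ⟨(range W ×ˢ range W).biUnion (fun c => B c.1 c.2), ?_, ?_⟩
  · have hWr : (1 : ℝ) ≤ W := by exact_mod_cast hW1
    calc _ ≤ ((∑ c ∈ range W ×ˢ range W, (B c.1 c.2).card : ℕ) : ℝ) := by
          exact_mod_cast card_biUnion_le
      _ = ∑ c ∈ range W ×ˢ range W, ((B c.1 c.2).card : ℝ) := by push_cast; rfl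
      _ ≤ ∑ c ∈ range W ×ˢ range W,
          44 * ((Fintype.card J : ℝ) + 1) * θ * (NN Φ / (W : ℝ) ^ 2) :=
          sum_le_sum fun c _ => hB1 c.1 c.2
      _ = 44 * ((Fintype.card J : ℝ) + 1) * θ * NN Φ := by
          rw [sum_const, card_product, card_range, nsmul_eq_mul]
          push_cast
          field_simp
  · intro n hn1 hn2 hloc hnB
    have hn3 : n.2 < Φ.S2 := lt_of_lt_of_le hn2 (Φ.hg3 n.1 hn1)
    have hm1 : n.1 ≡ n.1 % W [MOD W] := (Nat.mod_modEq n.1 W).symm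
    have hm2 : n.2 ≡ n.2 % W [MOD W] := (Nat.mod_modEq n.2 W).symm
    obtain ⟨i, hi1, hi2, hi3⟩ := hB2 (n.1 % W) (n.2 % W) (fun p hp hpW => by
      obtain ⟨i, hi⟩ := hloc p hp
      exact ⟨i, fun j hj => hi j ((vv_mod Φ p W (i + h j) hpW n (n.1 % W, n.2 % W) hm1 hm2).2 hj)⟩) n
      (by
        unfold CS
        rw [mem_filter, mem_product, mem_range, mem_range]
        exact ⟨⟨hn1, hn3⟩, hn2, hm1, hm2⟩)
      (fun hB => hnB (mem_biUnion.2 ⟨(n.1 % W, n.2 % W), mem_product.2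
        ⟨mem_range.2 (Nat.mod_lt _ hW1), mem_range.2 (Nat.mod_lt _ hW1)⟩, hB⟩))
    refine ⟨i, hi1, ?_, hi3⟩
    have h2 : (i : ℝ) ≤ J0 + ((W * GX b Φ.S2 : ℕ) : ℝ) := by exact_mod_cast hi2
    linarith

/-- a good residue -/
theorem good_res (Φ : Fam) {J : Type} [Fintype J] (h : J → ℕ) (M p : ℕ) (hp : p.Prime)
    (hhs : p ≤ M * Fintype.card J → ∀ j j', (p : ℤ) ∣ (h j : ℤ) - h j') (x : ℕ × ℕ)
    (h1 : ∃ t : ℕ, ¬ (p : ℤ) ∣ vv Φ t x)
    (h2 : ((range p).filter (fun i => (p : ℤ) ∣ vv Φ i x)).card ≤ M) :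
    ∃ i : ℕ, ∀ j, ¬ (p : ℤ) ∣ vv Φ (i + h j) x := by
  classical
  by_cases hk : p ≤ M * Fintype.card J
  · by_cases hJ : Nonempty J
    · obtain ⟨j0⟩ := hJ
      obtain ⟨t, ht⟩ := h1
      refine ⟨t + (p - 1) * h j0, fun j hd => ht ?_⟩
      apply (vv_shift Φ p (t + (p - 1) * h j0 + h j) t x _).1 hd
      have e : ((t + (p - 1) * h j0 + h j : ℕ) : ℤ) - t = p * h j0 + ((h j : ℤ) - h j0) := by
        have := hp.one_lt.le
        push_cast [Nat.cast_sub this]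
        ring
      rw [e]
      exact dvd_add (Dvd.intro _ rfl) (hhs hk j j0)
    · exact ⟨0, fun j => absurd ⟨j⟩ hJ⟩
  · push Not at hk
    have hbd : ∀ c : ℕ, ((range p).filter (fun i => (p : ℤ) ∣ vv Φ (i + c) x)).card ≤ M := by
      intro c
      refine le_trans ?_ h2
      apply card_le_card_of_injOn (fun i => (i + c) % p)
      · intro i hi
        have hi' := (mem_filter.1 (mem_coe.1 hi))
        rw [mem_coe, mem_filter]
        refine ⟨mem_range.2 (Nat.mod_lt _ hp.pos), ?_⟩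
        apply (vv_shift Φ p ((i + c) % p) (i + c) x _).2 hi'.2
        exact Nat.modEq_iff_dvd.1 (Nat.mod_modEq (i + c) p).symm
      · intro i hi i' hi' hii
        have hi1 := mem_range.1 (mem_filter.1 (mem_coe.1 hi)).1
        have hi2 := mem_range.1 (mem_filter.1 (mem_coe.1 hi')).1
        have h3 : i + c ≡ i' + c [MOD p] := hii
        exact Nat.ModEq.eq_of_lt_of_lt (Nat.ModEq.add_right_cancel' c h3) hi1 hi2
    have h1 : ((univ : Finset J).biUnion (fun j => (range p).filter (fun i => (p : ℤ) ∣ vv Φ (i + h j) x))).card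
        ≤ M * Fintype.card J := by
      refine card_biUnion_le.trans ?_
      refine (sum_le_card_nsmul _ _ M (fun j _ => hbd (h j))).trans ?_
      rw [card_univ, smul_eq_mul, mul_comm]
    have h3 : ∃ i ∈ range p, i ∉ (univ : Finset J).biUnion
        (fun j => (range p).filter (fun i => (p : ℤ) ∣ vv Φ (i + h j) x)) := by
      by_contra hcon
      push Not at hcon
      have h4 := card_le_card (show range p ⊆ _ from hcon)
      rw [card_range] at h4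
      omega
    obtain ⟨i, hi, hi2⟩ := h3
    refine ⟨i, fun j h => hi2 (mem_biUnion.2 ⟨j, mem_univ _, mem_filter.2 ⟨hi, h⟩⟩)⟩

/-- one window, almost all pairs -/
theorem mt (m M : ℕ) : ∃ k B : ℕ, ∀ S : Finset ℕ, k ≤ S.card → ∀ (A d C : ℕ) (ε : ℝ), 0 < ε →
    ∃ S0 : ℕ, ∀ Φ : Fam, S0 ≤ Φ.S2 →
      (∀ t : ℕ, |Φ.c t| ≤ ⌈Real.log Φ.S2⌉₊ ^ A * Φ.S2 * (t + 1) ^ d) →
      (Φ.S2 : ℝ) ^ 2 ≤ 4 * NN Φ → ∀ J : ℕ, (J : ℝ) ≤ Real.log Φ.S2 ^ C →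
      ∃ Bad : Finset (ℕ × ℕ), (Bad.card : ℝ) ≤ ε * NN Φ ∧
        ∀ n : ℕ × ℕ, n.1 < Φ.S2 → n.2 < Φ.g n.1 →
          (∀ p : ℕ, p.Prime → (∃ t : ℕ, ¬ (p : ℤ) ∣ vv Φ t n) ∧
            ((range p).filter (fun i => (p : ℤ) ∣ vv Φ i n)).card ≤ M) → n ∉ Bad →
          ∃ i : ℕ, J < i ∧ (i : ℝ) ≤ J + Real.log Φ.S2 ^ B ∧
            m ≤ (S.filter (fun h => (vv Φ (i + h) n).natAbs.Prime)).card := by
  classical
  obtain ⟨c0, hc0, zc, hzc⟩ := Wphi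
  obtain ⟨K, hK⟩ : ∃ K, K = ⌈12096000 * (m : ℝ) / c0⌉₊ := ⟨_, rfl⟩
  have hK1 : 12096000 * (m : ℝ) < c0 * (K + 1) := by
    have h1 : 12096000 * (m : ℝ) / c0 ≤ K := by rw [hK]; exact Nat.le_ceil _
    rw [div_le_iff₀ hc0] at h1
    nlinarith
  obtain ⟨b, hb⟩ : ∃ b, b = 12 * 2 ^ (2 * (2 * 2 ^ K)) + 4 := ⟨_, rfl⟩
  refine ⟨(M * 2 ^ K).factorial * 2 ^ K, b + 3, fun S hS A d C ε hε => ?_⟩
  obtain ⟨D, hD⟩ : ∃ D, D = (M * 2 ^ K).factorial := ⟨_, rfl⟩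
  have hD0 : 0 < D := by rw [hD]; exact Nat.factorial_pos _
  rw [← hD] at hS
  obtain ⟨y, _, hy⟩ := exists_le_card_fiber_of_mul_le_card_of_maps_to
    (s := S) (t := range D) (f := fun x => x % D) (n := 2 ^ K)
    (fun x _ => mem_range.2 (Nat.mod_lt _ hD0)) ⟨0, mem_range.2 hD0⟩ (by rw [card_range]; exact hS)
  obtain ⟨T, hT1, hT2⟩ := exists_subset_card_eq hy
  have hTS : T ⊆ S := hT1.trans (filter_subset _ _)
  have hTD : ∀ x ∈ T, x % D = y := fun x hx => (mem_filter.1 (hT1 hx)).2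
  have hJ : Fintype.card ↥T = 2 ^ K := by rw [Fintype.card_coe, hT2]
  have hbJ : b = 12 * 2 ^ (Fintype.card (Fin 2 × Bool × ↥T)) + 4 := by
    rw [hb, Fintype.card_prod, Fintype.card_prod, hJ, Fintype.card_fin, Fintype.card_bool]
  have hcong : ∀ p : ℕ, p.Prime → p ≤ M * Fintype.card ↥T → ∀ j j' : ↥T,
      (p : ℤ) ∣ (((j : ℕ)) : ℤ) - ((j' : ℕ) : ℤ) := by
    intro p hp hpl j j'
    rw [hJ] at hpl
    have h1 : p ∣ D := by rw [hD]; exact Nat.dvd_factorial hp.pos hpl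
    have h2 : (j' : ℕ) ≡ (j : ℕ) [MOD D] := by
      unfold Nat.ModEq
      rw [hTD _ j.2, hTD _ j'.2]
    exact dvd_trans (by exact_mod_cast h1) h2.dvd
  obtain ⟨θ, hθ⟩ : ∃ θ : ℝ, θ = min (1 / 2) (ε / (44 * (2 ^ K + 1))) := ⟨_, rfl⟩
  have hθ0 : 0 < θ := by rw [hθ]; apply lt_min (by norm_num); positivity
  have hθ1 : θ ≤ 1 / 2 := by rw [hθ]; exact min_le_left _ _
  have hθ2 : 44 * ((2 : ℝ) ^ K + 1) * θ ≤ ε := by
    have h1 : θ ≤ ε / (44 * (2 ^ K + 1)) := by rw [hθ]; exact min_le_right _ _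
    rw [le_div_iff₀ (by positivity)] at h1
    linarith
  obtain ⟨S0, hS0⟩ := pairs (J := ↥T) K m hJ c0 hc0 zc hzc hK1 (fun j => (j : ℕ))
    (fun j j' hjj h => hjj (Subtype.ext h)) (T.sup id)
    (fun j => le_sup (f := id) j.2) b C A d hbJ θ hθ0 hθ1
  refine ⟨S0, fun Φ hΦ hc hN J hJl => ?_⟩
  obtain ⟨Bad, hB1, hB2⟩ := hS0 Φ hΦ hc hN J hJl
  refine ⟨Bad, ?_, ?_⟩
  · rw [hJ] at hB1
    refine hB1.trans ?_
    push_cast
    exact mul_le_mul_of_nonneg_right hθ2 (NN_nonneg Φ)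
  · intro n hn1 hn2 hloc hnB
    obtain ⟨i, hi1, hi2, hi3⟩ := hB2 n hn1 hn2 (fun p hp =>
      good_res Φ (fun j : ↥T => (j : ℕ)) M p hp (hcong p hp) n (hloc p hp).1 (hloc p hp).2) hnB
    refine ⟨i, hi1, hi2, hi3.trans ?_⟩
    apply card_le_card_of_injOn (fun l : ↥T => (l : ℕ))
    · intro l hl
      have hl' := (mem_filter.1 (mem_coe.1 hl)).2
      rw [mem_coe, mem_filter]
      exact ⟨hTS l.2, hl'⟩
    · intro l _ l' _ hll
      exact Subtype.ext hll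

/-- many windows at once -/
theorem double {α : Type} (Ω : Finset α) (𝒥 : Finset ℕ) (P : α → ℕ → Prop) (ε X : ℝ) (hε : 0 < ε)
    (hX : 0 ≤ X) (h : ∀ J ∈ 𝒥, ∃ Bad : Finset α, (Bad.card : ℝ) ≤ ε ^ 2 * X ∧
      ∀ a ∈ Ω, a ∉ Bad → P a J) :
    ∃ Bad ⊆ Ω, (Bad.card : ℝ) ≤ ε * X ∧ ∀ a ∈ Ω, a ∉ Bad →
      ∃ 𝒢 ⊆ 𝒥, (1 - ε) * 𝒥.card ≤ 𝒢.card ∧ ∀ J ∈ 𝒢, P a J := by
  classical
  have hJ1 : ∀ J ∈ 𝒥, ((Ω.filter (fun a => ¬ P a J)).card : ℝ) ≤ ε ^ 2 * X := by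
    intro J hJ
    obtain ⟨Bad, hb2, hb3⟩ := h J hJ
    refine le_trans ?_ hb2
    have : Ω.filter (fun a => ¬ P a J) ⊆ Bad := by
      intro a ha
      obtain ⟨ha1, ha2⟩ := mem_filter.1 ha
      by_contra hab
      exact ha2 (hb3 a ha1 hab)
    exact_mod_cast card_le_card this
  refine ⟨Ω.filter (fun a => ε * 𝒥.card < ((𝒥.filter (fun J => ¬ P a J)).card : ℝ)),
    filter_subset _ _, ?_, ?_⟩
  · rcases Nat.eq_zero_or_pos 𝒥.card with h0 | h0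
    · have : Ω.filter
          (fun a => ε * 𝒥.card < ((𝒥.filter (fun J => ¬ P a J)).card : ℝ)) = ∅ := by
        rw [filter_eq_empty_iff]
        intro a _
        rw [h0, not_lt]
        have h1 : (𝒥.filter (fun J => ¬ P a J)).card ≤ 0 := h0 ▸ card_filter_le _ _
        have h2 : ((𝒥.filter (fun J => ¬ P a J)).card : ℝ) ≤ 0 := by exact_mod_cast h1
        simpa using h2
      rw [this, card_empty]
      push_cast
      positivity
    · have h0' : (0 : ℝ) < 𝒥.card := by exact_mod_cast h0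
      obtain ⟨Bd, hBd⟩ : ∃ Bd, Bd = Ω.filter
          (fun a => ε * 𝒥.card < ((𝒥.filter (fun J => ¬ P a J)).card : ℝ)) := ⟨_, rfl⟩
      rw [← hBd]
      have h1 : (Bd.card : ℝ) * (ε * 𝒥.card) ≤ 𝒥.card * (ε ^ 2 * X) := by
        calc (Bd.card : ℝ) * (ε * 𝒥.card) = ∑ a ∈ Bd, (ε * 𝒥.card : ℝ) := by
              rw [sum_const, nsmul_eq_mul]
          _ ≤ ∑ a ∈ Bd, ((𝒥.filter (fun J => ¬ P a J)).card : ℝ) := by
              apply sum_le_sum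
              intro a ha
              rw [hBd] at ha
              exact (mem_filter.1 ha).2.le
          _ ≤ ∑ a ∈ Ω, ((𝒥.filter (fun J => ¬ P a J)).card : ℝ) := by
              apply sum_le_sum_of_subset_of_nonneg
              · rw [hBd]; exact filter_subset _ _
              · intro a _ _
                exact Nat.cast_nonneg _
          _ = ∑ J ∈ 𝒥, ((Ω.filter (fun a => ¬ P a J)).card : ℝ) := by
              have := sum_card_bipartiteAbove_eq_sum_card_bipartiteBelow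
                (s := Ω) (t := 𝒥) (fun a J => ¬ P a J)
              unfold bipartiteAbove bipartiteBelow at this
              exact_mod_cast this
          _ ≤ ∑ J ∈ 𝒥, (ε ^ 2 * X : ℝ) := sum_le_sum hJ1
          _ = _ := by rw [sum_const, nsmul_eq_mul]
      have h2 : (Bd.card : ℝ) * (ε * 𝒥.card) ≤ (ε * X) * (ε * 𝒥.card) := by
        calc _ ≤ _ := h1
          _ = _ := by ring
      exact le_of_mul_le_mul_right h2 (by positivity)
  · intro a ha haB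
    refine ⟨𝒥.filter (fun J => P a J), filter_subset _ _, ?_, ?_⟩
    · have h1 : ((𝒥.filter (fun J => ¬ P a J)).card : ℝ) ≤ ε * 𝒥.card := by
        by_contra hc
        exact haB (mem_filter.2 ⟨ha, not_le.1 hc⟩)
      have h2 : (𝒥.card : ℝ) = (𝒥.filter (fun J => P a J)).card +
          (𝒥.filter (fun J => ¬ P a J)).card := by
        have := card_filter_add_card_filter_not (s := 𝒥) (fun J => P a J)
        exact_mod_cast this.symm
      linarith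
    · intro J hJ
      exact (mem_filter.1 hJ).2

end Pool.Agent.N913.MG
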