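import Pool.Agent.N913.MG.L1
import Pool.Agent.N913.MT.E2

set_option autoImplicit false
set_option linter.unusedSectionVars false

/-! Primes in progressions on both sides of zero. -/

namespace Pool.Agent.N913.MG

open Finset
open Pool.Agent.N913.MT (th th_nonneg th_le cmod BVh)

/-- the hypothesis on primes in progressions, for intervals of integers of both signs -/
def BVz (R Y : ℕ) (M : ℕ → ℝ) : Prop :=
  ∀ q : ℕ, 1 ≤ q → (∀ p : ℕ, p.Prime → p ∣ q → p ≤ R) → ∀ a u1 u2 : ℤ, -(Y : ℤ) ≤ u1 → u1 ≤ u2 →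
    u2 ≤ Y → |∑ u ∈ (Ioc u1 u2).filter (fun u => (q : ℤ) ∣ u - a), th R u.natAbs -
      (if a.natAbs.Coprime q then ((u2 : ℝ) - u1) / Nat.totient q else 0)| ≤ 2 * M q

theorem cop_emod (q : ℕ) (hq : 1 ≤ q) (a : ℤ) : (a % q).toNat.Coprime q ↔ a.natAbs.Coprime q := by
  have hq0 : (0 : ℤ) < q := by exact_mod_cast hq
  have h1 : ((a % q).toNat : ℤ) = a % q := Int.toNat_of_nonneg (Int.emod_nonneg a hq0.ne')
  rw [← Nat.isCoprime_iff_coprime, h1]
  have h2 : a.natAbs.Coprime q ↔ IsCoprime a (q : ℤ) := by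
    rw [Int.isCoprime_iff_gcd_eq_one]
    rfl
  rw [h2]
  have h3 : a = a % q + q * (a / q) := by rw [add_comm]; exact (Int.mul_ediv_add_emod a q).symm
  constructor
  · intro h
    rw [h3]
    exact IsCoprime.add_mul_left_left h _
  · intro h
    rw [h3] at h
    exact IsCoprime.of_add_mul_left_left h

theorem mod_emod (q : ℕ) (hq : 1 ≤ q) (a : ℤ) (n : ℕ) :
    (n ≡ (a % q).toNat [MOD q]) ↔ (q : ℤ) ∣ (n : ℤ) - a := by
  have hq0 : (0 : ℤ) < q := by exact_mod_cast hq
  have h1 : ((a % q).toNat : ℤ) = a % q := Int.toNat_of_nonneg (Int.emod_nonneg a hq0.ne')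
  rw [Nat.modEq_iff_dvd, h1]
  have h3 : (q : ℤ) ∣ a - a % q := Int.dvd_self_sub_emod
  constructor
  · intro h
    have h4 := dvd_add h h3
    have e : a % q - (n : ℤ) + (a - a % q) = -(n - a) := by ring
    rw [e, dvd_neg] at h4
    exact h4
  · intro h
    have h4 := dvd_add h h3
    have e : (n : ℤ) - a + (a - a % q) = -(a % q - n) := by ring
    rw [e, dvd_neg] at h4
    exact h4

theorem posPart (R q : ℕ) (hq : 1 ≤ q) (a : ℤ) (y : ℕ) :
    ∑ u ∈ (Ioc (0 : ℤ) y).filter (fun u => (q : ℤ) ∣ u - a), th R u.natAbs =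
    ∑ n ∈ (Icc 1 y).filter (fun n => n ≡ (a % q).toNat [MOD q]), th R n := by
  symm
  apply sum_bij (fun (n : ℕ) _ => (n : ℤ))
  · intro n hn
    rw [mem_filter, mem_Icc] at hn
    rw [mem_filter, mem_Ioc]
    exact ⟨⟨by omega, by omega⟩, (mod_emod q hq a n).1 hn.2⟩
  · intro n _ n' _ h
    exact_mod_cast h
  · intro u hu
    rw [mem_filter, mem_Ioc] at hu
    obtain ⟨⟨h1, h2⟩, h3⟩ := hu
    refine ⟨u.toNat, ?_, by omega⟩
    have h4 : ((u.toNat : ℕ) : ℤ) = u := by omega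
    rw [mem_filter, mem_Icc]
    refine ⟨⟨by omega, by omega⟩, (mod_emod q hq a _).2 (by rw [h4]; exact h3)⟩
  · intro n _
    rw [Int.natAbs_natCast]

theorem negPart (R q : ℕ) (hq : 1 ≤ q) (a : ℤ) (y : ℕ) :
    ∑ u ∈ (Ioc (-(y : ℤ)) 0).filter (fun u => (q : ℤ) ∣ u - a), th R u.natAbs =
    ∑ n ∈ (Icc 1 (y - 1)).filter (fun n => n ≡ ((-a) % q).toNat [MOD q]), th R n := by
  have h0 : th R 0 = 0 := by
    unfold th
    rw [if_neg]
    rintro ⟨h, _⟩
    exact Nat.not_prime_zero h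
  have e1 : ∑ n ∈ (Icc 1 (y - 1)).filter (fun n => n ≡ ((-a) % q).toNat [MOD q]), th R n =
      ∑ n ∈ (range y).filter (fun n => n ≡ ((-a) % q).toNat [MOD q]), th R n := by
    apply sum_subset
    · apply filter_subset_filter
      intro n hn
      rw [mem_Icc] at hn
      rw [mem_range]
      omega
    · intro n hn hn2
      rw [mem_filter, mem_range] at hn
      have : n = 0 := by
        by_contra hne
        apply hn2
        rw [mem_filter, mem_Icc]
        exact ⟨⟨by omega, by omega⟩, hn.2⟩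
      rw [this, h0]
  rw [e1]
  symm
  apply sum_bij (fun (n : ℕ) _ => -(n : ℤ))
  · intro n hn
    rw [mem_filter, mem_range] at hn
    rw [mem_filter, mem_Ioc]
    refine ⟨⟨by omega, by omega⟩, ?_⟩
    have h1 := (mod_emod q hq (-a) n).1 hn.2
    have e : -(n : ℤ) - a = -((n : ℤ) - (-a)) + (-a - a + a + a) := by ring
    have e2 : -(n : ℤ) - a = -((n : ℤ) - (-a)) := by ring
    rw [e2, dvd_neg]
    exact h1
  · intro n _ n' _ h
    have : (n : ℤ) = n' := by linarith
    exact_mod_cast this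
  · intro u hu
    rw [mem_filter, mem_Ioc] at hu
    obtain ⟨⟨h1, h2⟩, h3⟩ := hu
    refine ⟨(-u).toNat, ?_, by omega⟩
    have h4 : (((-u).toNat : ℕ) : ℤ) = -u := by omega
    rw [mem_filter, mem_range]
    refine ⟨by omega, (mod_emod q hq (-a) _).2 ?_⟩
    rw [h4]
    have e2 : -u - -a = -(u - a) := by ring
    rw [e2, dvd_neg]
    exact h3
  · intro n _
    rw [Int.natAbs_neg, Int.natAbs_natCast]

theorem bvz_of (R Y : ℕ) (M : ℕ → ℝ) (hM : BVh R Y M) : BVz R Y (fun q => M q + 1) := by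
  intro q hq hqR a u1 u2 hu1 hu12 hu2
  have hφ : (1 : ℝ) ≤ Nat.totient q := by exact_mod_cast Nat.totient_pos.2 hq
  obtain ⟨F, hF⟩ : ∃ F : ℤ → ℤ → ℝ, F = fun v1 v2 =>
    ∑ u ∈ (Ioc v1 v2).filter (fun u => (q : ℤ) ∣ u - a), th R u.natAbs := ⟨_, rfl⟩
  have hadd : ∀ v1 v2 v3 : ℤ, v1 ≤ v2 → v2 ≤ v3 → F v1 v2 + F v2 v3 = F v1 v3 := by
    intro v1 v2 v3 h1 h2
    rw [hF]
    simp only
    rw [← sum_union]
    · apply sum_congr _ (fun _ _ => rfl)
      rw [← filter_union]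
      congr 1
      ext u
      simp only [mem_union, mem_Ioc]
      omega
    · rw [disjoint_left]
      intro u h3 h4
      rw [mem_filter, mem_Ioc] at h3 h4
      omega
  set δ : ℝ := if a.natAbs.Coprime q then 1 else 0 with hδ
  have hδ0 : 0 ≤ δ ∧ δ ≤ 1 := by rw [hδ]; split_ifs <;> constructor <;> norm_num
  have hpos : ∀ y : ℕ, y ≤ Y → |F 0 y - δ * (y / Nat.totient q)| ≤ M q := by
    intro y hy
    have h1 := hM q hq hqR (a % q).toNat y hy
    rw [hF]
    simp only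
    rw [posPart R q hq a y]
    have e : δ * ((y : ℝ) / Nat.totient q) =
        if (a % q).toNat.Coprime q then (y : ℝ) / Nat.totient q else 0 := by
      rw [hδ]
      by_cases h : a.natAbs.Coprime q
      · rw [if_pos h, if_pos ((cop_emod q hq a).2 h), one_mul]
      · rw [if_neg h, if_neg (fun h2 => h ((cop_emod q hq a).1 h2)), zero_mul]
    rw [e]
    exact h1
  have hneg : ∀ y : ℕ, y ≤ Y → |F (-(y : ℤ)) 0 - δ * (y / Nat.totient q)| ≤ M q + 1 := by
    intro y hy
    have h1 := hM q hq hqR ((-a) % q).toNat (y - 1) (by omega)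
    rw [hF]
    simp only
    rw [negPart R q hq a y]
    have e : (if ((-a) % q).toNat.Coprime q then ((y - 1 : ℕ) : ℝ) / Nat.totient q else 0) =
        δ * (((y - 1 : ℕ) : ℝ) / Nat.totient q) := by
      rw [hδ]
      by_cases h : a.natAbs.Coprime q
      · rw [if_pos h, if_pos ((cop_emod q hq (-a)).2 (by rw [Int.natAbs_neg]; exact h)), one_mul]
      · rw [if_neg h, if_neg (fun h2 => h (by
          have := (cop_emod q hq (-a)).1 h2
          rwa [Int.natAbs_neg] at this)), zero_mul]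
    rw [e] at h1
    have h2 : |δ * (((y - 1 : ℕ) : ℝ) / Nat.totient q) - δ * ((y : ℝ) / Nat.totient q)| ≤ 1 := by
      rw [← mul_sub, ← sub_div, abs_mul, abs_div, abs_of_nonneg hδ0.1,
        abs_of_nonneg (by linarith : (0 : ℝ) ≤ Nat.totient q)]
      have h3 : |((y - 1 : ℕ) : ℝ) - y| ≤ 1 := by
        rcases Nat.eq_zero_or_pos y with h | h
        · subst h; simp
        · rw [Nat.cast_sub h]
          push_cast
          rw [abs_le]
          constructor <;> linarith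
      have h4 : |((y - 1 : ℕ) : ℝ) - y| / Nat.totient q ≤ 1 := by
        rw [div_le_one (by linarith)]
        linarith
      calc δ * (|((y - 1 : ℕ) : ℝ) - y| / Nat.totient q) ≤ 1 * 1 :=
            mul_le_mul hδ0.2 h4 (by positivity) zero_le_one
        _ = 1 := one_mul 1
    rw [abs_le] at h1 h2 ⊢
    constructor <;> linarith [h1.1, h1.2, h2.1, h2.2]
  have hmain : |F u1 u2 - δ * (((u2 : ℝ) - u1) / Nat.totient q)| ≤ 2 * (M q + 1) := by
    rcases le_or_gt 0 u1 with h1 | h1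
    · obtain ⟨y1, rfl⟩ := Int.eq_ofNat_of_zero_le h1
      obtain ⟨y2, rfl⟩ := Int.eq_ofNat_of_zero_le (h1.trans hu12)
      have g1 := hpos y1 (by omega)
      have g2 := hpos y2 (by omega)
      have g3 := hadd 0 y1 y2 h1 hu12
      have e : δ * ((((y2 : ℤ) : ℝ) - ((y1 : ℤ) : ℝ)) / Nat.totient q) =
        δ * ((y2 : ℝ) / Nat.totient q) - δ * ((y1 : ℝ) / Nat.totient q) := by push_cast; ring
      rw [e]
      rw [abs_le] at g1 g2 ⊢
      constructor <;> linarith [g1.1, g1.2, g2.1, g2.2]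
    · obtain ⟨y1, hy1⟩ := Int.eq_ofNat_of_zero_le (show 0 ≤ -u1 by omega)
      have hy1' : u1 = -(y1 : ℤ) := by omega
      subst hy1'
      have g1 := hneg y1 (by omega)
      rcases le_or_gt 0 u2 with h2 | h2
      · obtain ⟨y2, rfl⟩ := Int.eq_ofNat_of_zero_le h2
        have g2 := hpos y2 (by omega)
        have g3 := hadd (-(y1 : ℤ)) 0 y2 (by omega) h2
        have e : δ * ((((y2 : ℤ) : ℝ) - ((-(y1 : ℤ) : ℤ) : ℝ)) / Nat.totient q) =
          δ * ((y2 : ℝ) / Nat.totient q) + δ * ((y1 : ℝ) / Nat.totient q) := by push_cast; ring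
        rw [e]
        rw [abs_le] at g1 g2 ⊢
        constructor <;> linarith [g1.1, g1.2, g2.1, g2.2]
      · obtain ⟨y2, hy2⟩ := Int.eq_ofNat_of_zero_le (show 0 ≤ -u2 by omega)
        have hy2' : u2 = -(y2 : ℤ) := by omega
        subst hy2'
        have g2 := hneg y2 (by omega)
        have g3 := hadd (-(y1 : ℤ)) (-(y2 : ℤ)) 0 hu12 (by omega)
        have e : δ * ((((-(y2 : ℤ) : ℤ) : ℝ) - ((-(y1 : ℤ) : ℤ) : ℝ)) / Nat.totient q) =
          δ * ((y1 : ℝ) / Nat.totient q) - δ * ((y2 : ℝ) / Nat.totient q) := by push_cast; ring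
        rw [e]
        rw [abs_le] at g1 g2 ⊢
        constructor <;> linarith [g1.1, g1.2, g2.1, g2.2]
  have e : (if a.natAbs.Coprime q then ((u2 : ℝ) - u1) / Nat.totient q else 0) =
      δ * (((u2 : ℝ) - u1) / Nat.totient q) := by
    rw [hδ]
    split_ifs <;> simp
  rw [e]
  rw [hF] at hmain
  exact hmain

/-- progressions -/
theorem AP1 (R Y : ℕ) (M : ℕ → ℝ) (hM : BVz R Y M) (hM0 : ∀ q, 0 ≤ M q) (d q : ℕ) (hd : 1 ≤ d)
    (hq : 1 ≤ q)
    (hR : ∀ p : ℕ, p.Prime → p ∣ d * q → p ≤ R) (u0 : ℤ) (a s1 s2 : ℕ) (hs : s1 ≤ s2)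
    (hY1 : s1 < s2 → -(Y : ℤ) ≤ u0 + d * s1 - 1) (hY2 : s1 < s2 → u0 + d * (s2 - 1) ≤ Y - d) :
    |∑ s ∈ (Ico s1 s2).filter (fun s => s ≡ a [MOD q]), th R (u0 + d * s).natAbs -
      (if (u0 + d * a).natAbs.Coprime (d * q) then (d : ℝ) * (s2 - s1) / Nat.totient (d * q) else 0)| ≤
      2 * M (d * q) := by
  rcases hs.eq_or_lt with h0 | h0
  · subst h0
    have h1 := hM0 (d * q)
    simp
    linarith
  have hY1' := hY1 h0
  have hY2' := hY2 h0
  have hd0 : (0 : ℤ) < d := by exact_mod_cast hd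
  have e1 : ∑ s ∈ (Ico s1 s2).filter (fun s => s ≡ a [MOD q]), th R (u0 + d * s).natAbs =
      ∑ u ∈ (Ioc (u0 + d * s1 - 1) (u0 + d * s2 - 1)).filter
        (fun u => ((d * q : ℕ) : ℤ) ∣ u - (u0 + d * a)), th R u.natAbs := by
    apply sum_bij (fun (s : ℕ) _ => u0 + (d : ℤ) * s)
    · intro s hs'
      rw [mem_filter, mem_Ico] at hs'
      rw [mem_filter, mem_Ioc]
      obtain ⟨⟨h1, h2⟩, h3⟩ := hs'
      have g1 : (d : ℤ) * s1 ≤ d * s := mul_le_mul_of_nonneg_left (by exact_mod_cast h1) hd0.le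
      have g2 : (d : ℤ) * s < d * s2 := mul_lt_mul_of_pos_left (by exact_mod_cast h2) hd0
      refine ⟨⟨by linarith, by linarith⟩, ?_⟩
      have h4 : (q : ℤ) ∣ (s : ℤ) - a := (Nat.modEq_iff_dvd.1 h3.symm)
      have e : u0 + (d : ℤ) * s - (u0 + d * a) = d * (s - a) := by ring
      rw [e]
      push_cast
      exact mul_dvd_mul_left _ h4
    · intro s _ s' _ h
      have h2 : (d : ℤ) * s = d * s' := by linarith
      have h3 := mul_left_cancel₀ hd0.ne' h2
      exact_mod_cast h3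
    · intro u hu
      rw [mem_filter, mem_Ioc] at hu
      obtain ⟨⟨h1, h2⟩, h3⟩ := hu
      have h4 : (d : ℤ) ∣ u - u0 := by
        have h5 : (d : ℤ) ∣ u - (u0 + d * a) := dvd_trans (by push_cast; exact dvd_mul_right _ _) h3
        have e : u - u0 = (u - (u0 + d * a)) + d * a := by ring
        rw [e]
        exact dvd_add h5 (dvd_mul_right _ _)
      obtain ⟨w, hw⟩ := h4
      have hu' : u = u0 + d * w := by linarith
      have h5 : (s1 : ℤ) ≤ w := by
        by_contra hcon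
        push Not at hcon
        have : (d : ℤ) * (w + 1) ≤ d * s1 := mul_le_mul_of_nonneg_left (by omega) hd0.le
        nlinarith
      have h6 : w < s2 := by
        by_contra hcon
        push Not at hcon
        have : (d : ℤ) * s2 ≤ d * w := mul_le_mul_of_nonneg_left hcon hd0.le
        linarith
      obtain ⟨s, rfl⟩ := Int.eq_ofNat_of_zero_le (show 0 ≤ w by omega)
      refine ⟨s, ?_, hu'.symm⟩
      rw [mem_filter, mem_Ico]
      refine ⟨⟨by exact_mod_cast h5, by exact_mod_cast h6⟩, ?_⟩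
      rw [hu'] at h3
      have e : u0 + (d : ℤ) * (s : ℤ) - (u0 + d * a) = d * (s - a) := by ring
      rw [e] at h3
      push_cast at h3
      have h7 : (q : ℤ) ∣ (s : ℤ) - a := (mul_dvd_mul_iff_left hd0.ne').1 h3
      exact (Nat.modEq_iff_dvd.2 h7).symm
    · intro s _
      rfl
  have hle : u0 + (d : ℤ) * s1 - 1 ≤ u0 + d * s2 - 1 := by
    have : (d : ℤ) * s1 ≤ d * s2 := mul_le_mul_of_nonneg_left (by exact_mod_cast hs) hd0.le
    linarith
  have h1 := hM (d * q) (Nat.mul_pos hd hq) hR (u0 + d * a) (u0 + d * s1 - 1) (u0 + d * s2 - 1)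
    hY1' hle (by linarith)
  rw [e1]
  have e4 : (if (u0 + d * a).natAbs.Coprime (d * q) then (d : ℝ) * (s2 - s1) / Nat.totient (d * q) else 0) =
      (if (u0 + d * a).natAbs.Coprime (d * q) then
        (((u0 + d * s2 - 1 : ℤ) : ℝ) - ((u0 + d * s1 - 1 : ℤ) : ℝ)) / Nat.totient (d * q) else 0) := by
    split_ifs
    · congr 1
      push_cast
      ring
    · rfl
  rw [e4]
  exact h1

end Pool.Agent.N913.MG
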