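import Pool.Agent.N913.MG.L2

set_option autoImplicit false
set_option linter.unusedSectionVars false

/-! Class sums over the pairs `(s, r)`. -/

namespace Pool.Agent.N913.MG

open Finset
open Pool.Agent.N913.MT (th th_nonneg th_le cmod)

variable (Φ : Fam)

/-- the pairs in a class -/
def CS (q a b : ℕ) : Finset (ℕ × ℕ) :=
  (range Φ.S2 ×ˢ range Φ.S2).filter (fun n => n.2 < Φ.g n.1 ∧ n.1 ≡ a [MOD q] ∧ n.2 ≡ b [MOD q])

/-- the number of pairs -/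
def NN : ℝ := ∑ s ∈ range Φ.S2, (Φ.g s : ℝ)

theorem NN_nonneg : 0 ≤ NN Φ := sum_nonneg fun _ _ => Nat.cast_nonneg _

theorem NN_le : NN Φ ≤ (Φ.S2 : ℝ) ^ 2 := by
  unfold NN
  have h1 : ∀ s ∈ range Φ.S2, (Φ.g s : ℝ) ≤ Φ.S2 := fun s hs => by
    exact_mod_cast Φ.hg3 s (mem_range.1 hs)
  refine (sum_le_card_nsmul _ _ _ h1).trans (le_of_eq ?_)
  rw [card_range, nsmul_eq_mul, sq]

theorem sum_CS (q a b : ℕ) (f : ℕ × ℕ → ℝ) : ∑ n ∈ CS Φ q a b, f n =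
    ∑ s ∈ (range Φ.S2).filter (fun s => s ≡ a [MOD q]),
      ∑ r ∈ (range (Φ.g s)).filter (fun r => r ≡ b [MOD q]), f (s, r) := by
  unfold CS
  rw [sum_filter, sum_product, sum_filter]
  refine sum_congr rfl fun s hs => ?_
  rw [mem_range] at hs
  have hg := Φ.hg3 s hs
  split_ifs with h
  · rw [← sum_filter]
    apply sum_congr _ (fun _ _ => rfl)
    ext r
    simp only [mem_filter, mem_range, h, true_and]
    constructor
    · rintro ⟨_, h2, h3⟩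
      exact ⟨by omega, h3⟩
    · rintro ⟨h2, h3⟩
      exact ⟨by omega, by omega, h3⟩
  · apply sum_eq_zero
    intro r _
    rw [if_neg]
    exact fun h' => h h'.2.1

theorem Aid (g : ℕ → ℕ) (q a n : ℕ) :
    ∑ s ∈ (range n).filter (fun s => s ≡ a [MOD q]), (g s : ℝ) =
      (g n : ℝ) * ((range n).filter (fun s => s ≡ a [MOD q])).card -
        ∑ j ∈ range n, ((g (j + 1) : ℝ) - g j) *
          ((range (j + 1)).filter (fun s => s ≡ a [MOD q])).card := by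
  induction n with
  | zero => simp
  | succ n ih =>
    rw [sum_range_succ]
    have e1 : (range (n + 1)).filter (fun s => s ≡ a [MOD q]) =
        if n ≡ a [MOD q] then insert n ((range n).filter (fun s => s ≡ a [MOD q])) else
        (range n).filter (fun s => s ≡ a [MOD q]) := by
      rw [range_add_one, filter_insert]
    rw [e1]
    split_ifs with h
    · rw [sum_insert (by simp), card_insert_of_notMem (by simp), ih]
      push_cast
      ring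
    · rw [ih]
      ring

theorem Aid0 (g : ℕ → ℕ) (n : ℕ) :
    ∑ s ∈ range n, (g s : ℝ) =
      (g n : ℝ) * n - ∑ j ∈ range n, ((g (j + 1) : ℝ) - g j) * ((j : ℝ) + 1) := by
  induction n with
  | zero => simp
  | succ n ih =>
    rw [sum_range_succ, sum_range_succ, ih]
    push_cast
    ring

theorem g_top : Φ.g Φ.S2 ≤ Φ.S2 + 1 := by
  have h0 := Φ.hS
  obtain ⟨k, hk⟩ : ∃ k, Φ.S2 = k + 1 := ⟨Φ.S2 - 1, by omega⟩
  have h1 := Φ.hg2 k
  have h2 := Φ.hg3 k (by omega)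
  rw [hk] at h2 ⊢
  omega

theorem Asum (q a : ℕ) (hq : 1 ≤ q) :
    |∑ s ∈ (range Φ.S2).filter (fun s => s ≡ a [MOD q]), (Φ.g s : ℝ) - NN Φ / q| ≤
      4 * Φ.S2 + 1 := by
  obtain ⟨n, hn⟩ : ∃ n, n = Φ.S2 := ⟨_, rfl⟩
  have hS := Φ.hS
  have htop := g_top Φ
  unfold NN
  rw [← hn] at hS htop ⊢
  rw [Aid, Aid0]
  have hq0 : (0 : ℝ) < q := by exact_mod_cast hq
  have h1 := cmod n q a hq
  have hm : ∀ j, (0 : ℝ) ≤ (Φ.g (j + 1) : ℝ) - Φ.g j := fun j => by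
    have : (Φ.g j : ℝ) ≤ Φ.g (j + 1) := by exact_mod_cast Φ.hg1 j
    linarith
  have h2 : |∑ j ∈ range n, ((Φ.g (j + 1) : ℝ) - Φ.g j) *
      ((((range (j + 1)).filter (fun s => s ≡ a [MOD q])).card : ℝ) - ((j : ℝ) + 1) / q)| ≤ Φ.g n := by
    refine (abs_sum_le_sum_abs _ _).trans ?_
    have h3 : ∀ j ∈ range n, |((Φ.g (j + 1) : ℝ) - Φ.g j) *
        ((((range (j + 1)).filter (fun s => s ≡ a [MOD q])).card : ℝ) - ((j : ℝ) + 1) / q)| ≤
        (Φ.g (j + 1) : ℝ) - Φ.g j := by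
      intro j _
      rw [abs_mul, abs_of_nonneg (hm j)]
      have := cmod (j + 1) q a hq
      push_cast at this
      calc _ ≤ ((Φ.g (j + 1) : ℝ) - Φ.g j) * 1 := mul_le_mul_of_nonneg_left this (hm j)
        _ = _ := mul_one _
    refine (sum_le_sum h3).trans ?_
    rw [sum_range_sub (fun j => (Φ.g j : ℝ))]
    have : (0 : ℝ) ≤ Φ.g 0 := Nat.cast_nonneg _
    linarith
  set c : ℝ := (((range n).filter (fun s => s ≡ a [MOD q])).card : ℝ) with hc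
  have e : (Φ.g n : ℝ) * c - ∑ j ∈ range n, ((Φ.g (j + 1) : ℝ) - Φ.g j) *
          (((range (j + 1)).filter (fun s => s ≡ a [MOD q])).card : ℝ) -
      ((Φ.g n : ℝ) * n - ∑ j ∈ range n, ((Φ.g (j + 1) : ℝ) - Φ.g j) * ((j : ℝ) + 1)) / q =
      (Φ.g n : ℝ) * (c - n / q) - ∑ j ∈ range n, ((Φ.g (j + 1) : ℝ) - Φ.g j) *
      ((((range (j + 1)).filter (fun s => s ≡ a [MOD q])).card : ℝ) - ((j : ℝ) + 1) / q) := by
    have e2 : ∑ j ∈ range n, ((Φ.g (j + 1) : ℝ) - Φ.g j) *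
      ((((range (j + 1)).filter (fun s => s ≡ a [MOD q])).card : ℝ) - ((j : ℝ) + 1) / q) =
      ∑ j ∈ range n, ((Φ.g (j + 1) : ℝ) - Φ.g j) *
          (((range (j + 1)).filter (fun s => s ≡ a [MOD q])).card : ℝ) -
      (∑ j ∈ range n, ((Φ.g (j + 1) : ℝ) - Φ.g j) * ((j : ℝ) + 1)) / q := by
      rw [sum_div, ← sum_sub_distrib]
      refine sum_congr rfl fun j _ => ?_
      ring
    rw [e2]
    ring
  rw [e]
  refine (abs_sub _ _).trans ?_
  rw [abs_mul, abs_of_nonneg (Nat.cast_nonneg (Φ.g n))]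
  have h5 : (Φ.g n : ℝ) * |c - n / q| ≤ (Φ.g n : ℝ) * 1 :=
    mul_le_mul_of_nonneg_left h1 (Nat.cast_nonneg _)
  have h6 : (Φ.g n : ℝ) ≤ n + 1 := by exact_mod_cast htop
  have h7 : (1 : ℝ) ≤ n := by exact_mod_cast hS
  linarith

theorem claim0 (q a b : ℕ) (hq : 1 ≤ q) :
    |((CS Φ q a b).card : ℝ) - NN Φ / (q : ℝ) ^ 2| ≤ 6 * Φ.S2 + 2 := by
  have hq0 : (1 : ℝ) ≤ q := by exact_mod_cast hq
  have h0 : ((CS Φ q a b).card : ℝ) = ∑ n ∈ CS Φ q a b, (1 : ℝ) := by simp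
  rw [h0, sum_CS]
  have h1 := Asum Φ q a hq
  have h2 := cmod Φ.S2 q a hq
  have h3 : |∑ s ∈ (range Φ.S2).filter (fun s => s ≡ a [MOD q]),
      (∑ r ∈ (range (Φ.g s)).filter (fun r => r ≡ b [MOD q]), (1 : ℝ) - (Φ.g s : ℝ) / q)| ≤
      Φ.S2 + 1 := by
    refine (abs_sum_le_sum_abs _ _).trans ?_
    have h4 : ∀ s ∈ (range Φ.S2).filter (fun s => s ≡ a [MOD q]),
        |∑ r ∈ (range (Φ.g s)).filter (fun r => r ≡ b [MOD q]), (1 : ℝ) - (Φ.g s : ℝ) / q| ≤ 1 := by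
      intro s _
      have := cmod (Φ.g s) q b hq
      rw [sum_const, nsmul_eq_mul, mul_one]
      exact this
    refine (sum_le_sum h4).trans ?_
    rw [sum_const, nsmul_eq_mul, mul_one]
    rw [abs_le] at h2
    have h5 : (Φ.S2 : ℝ) / q ≤ Φ.S2 := div_le_self (Nat.cast_nonneg _) hq0
    linarith
  rw [sum_sub_distrib, ← sum_div] at h3
  have h6 : |(∑ s ∈ (range Φ.S2).filter (fun s => s ≡ a [MOD q]), (Φ.g s : ℝ)) / q -
      NN Φ / (q : ℝ) ^ 2| ≤ 4 * Φ.S2 + 1 := by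
    have e : (∑ s ∈ (range Φ.S2).filter (fun s => s ≡ a [MOD q]), (Φ.g s : ℝ)) / q -
      NN Φ / (q : ℝ) ^ 2 =
      (∑ s ∈ (range Φ.S2).filter (fun s => s ≡ a [MOD q]), (Φ.g s : ℝ) - NN Φ / q) / q := by
      rw [sq (q : ℝ), sub_div, div_div]
    rw [e, abs_div, abs_of_nonneg (by linarith : (0 : ℝ) ≤ q)]
    exact (div_le_self (abs_nonneg _) hq0).trans h1
  rw [abs_le] at h3 h6 ⊢
  have : (0 : ℝ) ≤ Φ.S2 := Nat.cast_nonneg _
  constructor <;> linarith [h3.1, h3.2, h6.1, h6.2]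

/-- the class of the values -/
theorem val_mod (q t a b s r : ℕ) (hs : s ≡ a [MOD q]) :
    ((q : ℤ) ∣ vv Φ t (s, r) - vv Φ t (a, b)) ↔ (r ≡ b [MOD q]) := by
  have h1 : (q : ℤ) ∣ (s : ℤ) - a := Nat.modEq_iff_dvd.1 hs.symm
  have e : vv Φ t (s, r) - vv Φ t (a, b) = (s - a) * t + (b - r) := by
    unfold vv
    simp only
    ring
  rw [e, Nat.modEq_iff_dvd]
  constructor
  · intro h
    have := dvd_sub h (Dvd.dvd.mul_right h1 (t : ℤ))
    simpa using this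
  · intro h
    exact dvd_add (Dvd.dvd.mul_right h1 _) h

/-- reversing a row -/
theorem row_rev (q t a b s : ℕ) (hs : s ≡ a [MOD q]) (f : ℤ → ℝ) :
    ∑ r ∈ (range (Φ.g s)).filter (fun r => r ≡ b [MOD q]), f (vv Φ t (s, r)) =
    ∑ u ∈ (Ioc ((s : ℤ) * t + Φ.c t - Φ.g s) ((s : ℤ) * t + Φ.c t)).filter
      (fun u => (q : ℤ) ∣ u - vv Φ t (a, b)), f u := by
  apply sum_bij (fun r _ => vv Φ t (s, r))
  · intro r hr
    rw [mem_filter, mem_range] at hr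
    rw [mem_filter, mem_Ioc]
    refine ⟨?_, (val_mod Φ q t a b s r hs).2 hr.2⟩
    unfold vv
    simp only
    omega
  · intro r hr r' hr' h
    unfold vv at h
    simp only at h
    omega
  · intro u hu
    rw [mem_filter, mem_Ioc] at hu
    obtain ⟨⟨h1, h2⟩, h3⟩ := hu
    obtain ⟨r, hr⟩ := Int.eq_ofNat_of_zero_le (show 0 ≤ (s : ℤ) * t + Φ.c t - u by omega)
    have hu' : vv Φ t (s, r) = u := by
      unfold vv
      simp only
      omega
    refine ⟨r, ?_, hu'⟩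
    rw [mem_filter, mem_range]
    refine ⟨by omega, ?_⟩
    rw [← val_mod Φ q t a b s r hs, hu']
    exact h3
  · intro r _
    rfl

/-- a row -/
theorem row (R Y : ℕ) (M : ℕ → ℝ) (hM : BVz R Y M) (q : ℕ) (hq : 1 ≤ q)
    (hR : ∀ p : ℕ, p.Prime → p ∣ q → p ≤ R) (t s : ℕ) (c : ℤ) (hs : s < Φ.S2)
    (hY : (Φ.S2 : ℤ) * t + |Φ.c t| + 2 * Φ.S2 ≤ Y) :
    |∑ u ∈ (Ioc ((s : ℤ) * t + Φ.c t - Φ.g s) ((s : ℤ) * t + Φ.c t)).filter
        (fun u => (q : ℤ) ∣ u - c), th R u.natAbs -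
      (if c.natAbs.Coprime q then (Φ.g s : ℝ) / Nat.totient q else 0)| ≤ 2 * M q := by
  have hg := Φ.hg3 s hs
  have hg' : (Φ.g s : ℤ) ≤ Φ.S2 := by exact_mod_cast hg
  have h1 : (s : ℤ) * t ≤ Φ.S2 * t := mul_le_mul_of_nonneg_right (by exact_mod_cast hs.le) (by positivity)
  have h2 : (0 : ℤ) ≤ (s : ℤ) * t := by positivity
  have h3 := neg_abs_le (Φ.c t)
  have h4 := le_abs_self (Φ.c t)
  have h := hM q hq hR c ((s : ℤ) * t + Φ.c t - Φ.g s) ((s : ℤ) * t + Φ.c t) (by omega) (by omega)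
    (by omega)
  have e : (if c.natAbs.Coprime q then (Φ.g s : ℝ) / Nat.totient q else 0) =
      (if c.natAbs.Coprime q then ((((s : ℤ) * t + Φ.c t : ℤ) : ℝ) -
        (((s : ℤ) * t + Φ.c t - Φ.g s : ℤ) : ℝ)) / Nat.totient q else 0) := by
    split_ifs
    · congr 1
      push_cast
      ring
    · rfl
  rw [e]
  exact h

theorem claim1 (R Y : ℕ) (M : ℕ → ℝ) (hM : BVz R Y M) (hM0 : ∀ q, 0 ≤ M q) (q a b t : ℕ)
    (hq : 1 ≤ q) (hR : ∀ p : ℕ, p.Prime → p ∣ q → p ≤ R)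
    (hY : (Φ.S2 : ℤ) * t + |Φ.c t| + 2 * Φ.S2 ≤ Y) :
    |∑ n ∈ CS Φ q a b, th R (vv Φ t n).natAbs -
      (if (vv Φ t (a, b)).natAbs.Coprime q then NN Φ / (q * Nat.totient q) else 0)| ≤
      (Φ.S2 / q + 1) * (2 * M q) + (4 * Φ.S2 + 1) / Nat.totient q := by
  have hq0 : (0 : ℝ) < q := by exact_mod_cast hq
  have hφ : (0 : ℝ) < Nat.totient q := by exact_mod_cast Nat.totient_pos.2 hq
  rw [sum_CS]
  have e1 : ∀ s ∈ (range Φ.S2).filter (fun s => s ≡ a [MOD q]),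
      ∑ r ∈ (range (Φ.g s)).filter (fun r => r ≡ b [MOD q]), th R (vv Φ t (s, r)).natAbs =
      ∑ u ∈ (Ioc ((s : ℤ) * t + Φ.c t - Φ.g s) ((s : ℤ) * t + Φ.c t)).filter
        (fun u => (q : ℤ) ∣ u - vv Φ t (a, b)), th R u.natAbs := by
    intro s hs
    exact row_rev Φ q t a b s (mem_filter.1 hs).2 (fun u => th R u.natAbs)
  rw [sum_congr rfl e1]
  have h1 := Asum Φ q a hq
  have h2 := cmod Φ.S2 q a hq
  set δ : ℝ := if (vv Φ t (a, b)).natAbs.Coprime q then 1 else 0 with hδ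
  have hδ1 : |δ| ≤ 1 := by rw [hδ]; split_ifs <;> simp
  have h3 : |∑ s ∈ (range Φ.S2).filter (fun s => s ≡ a [MOD q]),
      (∑ u ∈ (Ioc ((s : ℤ) * t + Φ.c t - Φ.g s) ((s : ℤ) * t + Φ.c t)).filter
        (fun u => (q : ℤ) ∣ u - vv Φ t (a, b)), th R u.natAbs -
        (if (vv Φ t (a, b)).natAbs.Coprime q then (Φ.g s : ℝ) / Nat.totient q else 0))| ≤
      (Φ.S2 / q + 1) * (2 * M q) := by
    refine (abs_sum_le_sum_abs _ _).trans ?_
    refine (sum_le_sum (fun s hs => row Φ R Y M hM q hq hR t s (vv Φ t (a, b))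
      (mem_range.1 (mem_filter.1 hs).1) hY)).trans ?_
    rw [sum_const, nsmul_eq_mul]
    apply mul_le_mul_of_nonneg_right _ (by linarith [hM0 q])
    rw [abs_le] at h2
    linarith
  rw [sum_sub_distrib] at h3
  have e2 : ∑ s ∈ (range Φ.S2).filter (fun s => s ≡ a [MOD q]),
      (if (vv Φ t (a, b)).natAbs.Coprime q then (Φ.g s : ℝ) / Nat.totient q else 0) =
      δ * ((∑ s ∈ (range Φ.S2).filter (fun s => s ≡ a [MOD q]), (Φ.g s : ℝ)) / Nat.totient q) := by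
    rw [hδ]
    split_ifs
    · rw [one_mul, sum_div]
    · simp
  have e3 : (if (vv Φ t (a, b)).natAbs.Coprime q then NN Φ / (q * Nat.totient q) else 0) =
      δ * (NN Φ / q / Nat.totient q) := by
    rw [hδ]
    split_ifs
    · rw [one_mul, div_div]
    · simp
  rw [e2] at h3
  rw [e3]
  have h4 : |δ * ((∑ s ∈ (range Φ.S2).filter (fun s => s ≡ a [MOD q]), (Φ.g s : ℝ)) /
      Nat.totient q) - δ * (NN Φ / q / Nat.totient q)| ≤ (4 * Φ.S2 + 1) / Nat.totient q := by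
    rw [← mul_sub, ← sub_div, abs_mul, abs_div, abs_of_pos hφ]
    calc _ ≤ 1 * ((4 * Φ.S2 + 1) / (Nat.totient q : ℝ)) :=
          mul_le_mul hδ1 (div_le_div_of_nonneg_right h1 hφ.le) (by positivity) zero_le_one
      _ = _ := one_mul _
  rw [abs_le] at h3 h4 ⊢
  constructor <;> linarith [h3.1, h3.2, h4.1, h4.2]

end Pool.Agent.N913.MG
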