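import Pool.Agent.N913.MG.L3
import Pool.Agent.N913.MT.C3

set_option autoImplicit false
set_option linter.unusedSectionVars false

/-! Class sums with two primes. -/

namespace Pool.Agent.N913.MG

open Finset
open Pool.Agent.N913.MT (th th_nonneg th_le cmod interval)

variable (Φ : Fam)

theorem g_lip (s s' : ℕ) (h : s ≤ s') : Φ.g s ≤ Φ.g s' ∧ Φ.g s' ≤ Φ.g s + (s' - s) := by
  induction s', h using Nat.le_induction with
  | base => exact ⟨le_rfl, by omega⟩
  | succ k hk ih =>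
    have h1 := Φ.hg1 k
    have h2 := Φ.hg2 k
    omega

theorem cop_congr (q : ℕ) (x y : ℤ) (h : (q : ℤ) ∣ x - y) :
    x.natAbs.Coprime q ↔ y.natAbs.Coprime q := by
  have h1 : ∀ z : ℤ, z.natAbs.Coprime q ↔ IsCoprime z (q : ℤ) := by
    intro z
    rw [Int.isCoprime_iff_gcd_eq_one]
    rfl
  rw [h1, h1]
  obtain ⟨k, hk⟩ := h
  have h2 : x = y + q * k := by linarith
  rw [h2]
  constructor
  · intro h3
    exact IsCoprime.of_add_mul_left_left h3
  · intro h3
    exact IsCoprime.add_mul_left_left h3 _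

theorem count_class (Y q : ℕ) (hq : 1 ≤ q) (c : ℤ) :
    (((Ioc (-(Y : ℤ)) Y).filter (fun u => (q : ℤ) ∣ u - c)).card : ℝ) ≤ 2 * (((Y : ℝ) + 1) / q + 1) := by
  have hq0 : (0 : ℝ) < q := by exact_mod_cast hq
  have h1 : ((Ioc (-(Y : ℤ)) Y).filter (fun u => (q : ℤ) ∣ u - c)).card ≤
      ((range (2 * Y + 1)).filter (fun n => n ≡ ((c + Y) % q).toNat [MOD q])).card := by
    apply card_le_card_of_injOn (fun u : ℤ => (u + Y).toNat)
    · intro u hu
      rw [mem_coe, mem_filter, mem_Ioc] at hu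
      rw [mem_coe, mem_filter, mem_range]
      obtain ⟨⟨h1, h2⟩, h3⟩ := hu
      refine ⟨by show (u + (Y : ℤ)).toNat < 2 * Y + 1; omega, (mod_emod q hq _ _).2 ?_⟩
      have h4 : (((u + Y).toNat : ℕ) : ℤ) = u + Y := by omega
      rw [h4]
      have e : u + (Y : ℤ) - (c + Y) = u - c := by ring
      rw [e]
      exact h3
    · intro u hu v hv h
      rw [mem_coe, mem_filter, mem_Ioc] at hu hv
      simp only at h
      omega
  have h2 := cmod (2 * Y + 1) q ((c + Y) % q).toNat hq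
  rw [abs_le] at h2
  have h3 : (((Ioc (-(Y : ℤ)) Y).filter (fun u => (q : ℤ) ∣ u - c)).card : ℝ) ≤
      ((range (2 * Y + 1)).filter (fun n => n ≡ ((c + Y) % q).toNat [MOD q])).card := by
    exact_mod_cast h1
  have h4 := h2.2
  push_cast at h4
  have h5 : (2 * (Y : ℝ) + 1) / q ≤ 2 * (((Y : ℝ) + 1) / q) := by
    rw [← mul_div_assoc]
    apply div_le_div_of_nonneg_right _ hq0.le
    linarith
  linarith

theorem claim2 (R Y : ℕ) (M : ℕ → ℝ) (hM : BVz R Y M) (hM0 : ∀ q, 0 ≤ M q) (q a b t δ : ℕ)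
    (hq : 1 ≤ q) (hR : ∀ p : ℕ, p.Prime → p ∣ q → p ≤ R) (hδ : 1 ≤ δ) (hδR : δ ≤ R)
    (hδS : δ ≤ Φ.S2) (ht : 1 ≤ t) (hY0 : (Φ.S2 : ℤ) * t + |Φ.c t| + 2 * Φ.S2 ≤ Y)
    (hY : (Φ.S2 : ℤ) * (t + δ : ℕ) + |Φ.c (t + δ)| + 2 * Φ.S2 ≤ Y) :
    |∑ n ∈ CS Φ q a b, th R (vv Φ t n).natAbs * th R (vv Φ (t + δ) n).natAbs -
      (if (vv Φ t (a, b)).natAbs.Coprime q ∧ (vv Φ (t + δ) (a, b)).natAbs.Coprime q then
        δ * NN Φ / (Nat.totient (δ * q) * Nat.totient q) else 0)| ≤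
      4 * M (δ * q) * (((Y : ℝ) + 1) / q + 1) * Real.log Y +
        δ / Nat.totient (δ * q) * (Φ.S2 * (2 * M q)) := by
  have hq0 : (0 : ℝ) < q := by exact_mod_cast hq
  have hφ : (0 : ℝ) < Nat.totient q := by exact_mod_cast Nat.totient_pos.2 hq
  have h2δq : 1 ≤ δ * q := Nat.mul_pos (by omega) hq
  have hφ2 : (0 : ℝ) < Nat.totient (δ * q) := by exact_mod_cast Nat.totient_pos.2 h2δq
  have hNN := NN_nonneg Φ
  have hR2 : ∀ p : ℕ, p.Prime → p ∣ δ * q → p ≤ R := by
    intro p hp hd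
    rcases (Nat.Prime.dvd_mul hp).1 hd with h | h
    · exact (Nat.le_of_dvd (by omega) h).trans hδR
    · exact hR p hp h
  obtain ⟨c0, hc0⟩ : ∃ c0, c0 = vv Φ t (a, b) := ⟨_, rfl⟩
  obtain ⟨e0, he0⟩ : ∃ e0, e0 = Φ.c (t + δ) - Φ.c t := ⟨_, rfl⟩
  have hδe0 : (δ : ℤ) ∣ e0 := by
    have := Φ.hc (t + δ) t
    rw [he0]
    have e : ((t + δ : ℕ) : ℤ) - t = δ := by push_cast; ring
    rwa [e] at this
  -- the predicate
  set I : ℕ → ℤ → Prop := fun s u => (s : ℤ) * t + Φ.c t - Φ.g s < u ∧ u ≤ (s : ℤ) * t + Φ.c t with hI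
  have hdec : ∀ s u, Decidable (I s u) := fun s u => by rw [hI]; infer_instance
  have hval : ∀ s r, vv Φ (t + δ) (s, r) = vv Φ t (s, r) + (e0 + δ * s) := by
    intro s r
    rw [he0]
    unfold vv
    push_cast
    ring
  have hsb : ∀ s, s < Φ.S2 → ∀ τ : ℕ, (s : ℤ) * τ + Φ.c τ ≤ Φ.S2 * τ + |Φ.c τ| ∧
      -|Φ.c τ| - Φ.S2 ≤ (s : ℤ) * τ + Φ.c τ - Φ.g s := by
    intro s hs τ
    have h1 : (s : ℤ) * τ ≤ Φ.S2 * τ := mul_le_mul_of_nonneg_right (by exact_mod_cast hs.le) (by positivity)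
    have h2 : (0 : ℤ) ≤ (s : ℤ) * τ := by positivity
    have h3 := neg_abs_le (Φ.c τ)
    have h4 := le_abs_self (Φ.c τ)
    have hg := Φ.hg3 s hs
    have hg' : (Φ.g s : ℤ) ≤ Φ.S2 := by exact_mod_cast hg
    constructor <;> linarith
  -- first form
  have e1 : ∑ n ∈ CS Φ q a b, th R (vv Φ t n).natAbs * th R (vv Φ (t + δ) n).natAbs =
      ∑ s ∈ (range Φ.S2).filter (fun s => s ≡ a [MOD q]),
        ∑ u ∈ (Ioc ((s : ℤ) * t + Φ.c t - Φ.g s) ((s : ℤ) * t + Φ.c t)).filter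
          (fun u => (q : ℤ) ∣ u - c0), th R u.natAbs * th R (u + (e0 + δ * s)).natAbs := by
    rw [sum_CS]
    refine sum_congr rfl fun s hs => ?_
    rw [hc0, ← row_rev Φ q t a b s (mem_filter.1 hs).2
      (fun u => th R u.natAbs * th R (u + (e0 + δ * s)).natAbs)]
    refine sum_congr rfl fun r hr => ?_
    rw [hval s r]
  have e2 : ∀ s ∈ range Φ.S2, ∀ g : ℤ → ℝ,
      ∑ u ∈ (Ioc ((s : ℤ) * t + Φ.c t - Φ.g s) ((s : ℤ) * t + Φ.c t)).filter
          (fun u => (q : ℤ) ∣ u - c0), g u =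
      ∑ u ∈ (Ioc (-(Y : ℤ)) Y).filter (fun u => (q : ℤ) ∣ u - c0), if I s u then g u else 0 := by
    intro s hs g
    rw [← sum_filter, filter_filter]
    apply sum_congr _ (fun _ _ => rfl)
    ext u
    simp only [mem_filter, mem_Ioc, hI]
    obtain ⟨h1, h2⟩ := hsb s (mem_range.1 hs) t
    have h10 : (0 : ℤ) ≤ (Φ.S2 : ℤ) * t := by positivity
    have h11 : (0 : ℤ) ≤ (Φ.S2 : ℤ) := by positivity
    constructor
    · rintro ⟨⟨h5, h6⟩, h7⟩
      exact ⟨⟨by linarith, by linarith⟩, h7, h5, h6⟩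
    · rintro ⟨⟨h5, h6⟩, h7, h8, h9⟩
      exact ⟨⟨h8, h9⟩, h7⟩
  have e3 : ∑ n ∈ CS Φ q a b, th R (vv Φ t n).natAbs * th R (vv Φ (t + δ) n).natAbs =
      ∑ u ∈ (Ioc (-(Y : ℤ)) Y).filter (fun u => (q : ℤ) ∣ u - c0), th R u.natAbs *
        ∑ s ∈ ((range Φ.S2).filter (fun s => I s u)).filter (fun s => s ≡ a [MOD q]),
          th R (u + e0 + δ * s).natAbs := by
    rw [e1, sum_congr rfl (fun s hs => e2 s (mem_filter.1 hs).1 _), sum_comm]
    refine sum_congr rfl fun u _ => ?_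
    rw [mul_sum, ← sum_filter, Finset.filter_comm]
    refine sum_congr rfl fun s _ => ?_
    have h1 : u + (e0 + δ * (s : ℤ)) = u + e0 + δ * s := by ring
    rw [h1]
  -- intervals
  have hint : ∀ u, ∃ s1 s2 : ℕ, s1 ≤ s2 ∧ s2 ≤ Φ.S2 ∧
      (range Φ.S2).filter (fun s => I s u) = Ico s1 s2 := by
    intro u
    have h := interval Φ.S2 (fun s => u ≤ (s : ℤ) * t + Φ.c t)
      (fun s => (s : ℤ) * t + Φ.c t - Φ.g s < u)
      (fun s s' h1 h2 => by
        have : (s : ℤ) * t ≤ s' * t := mul_le_mul_of_nonneg_right (by exact_mod_cast h1) (by positivity)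
        linarith)
      (fun s s' h1 h2 => by
        obtain ⟨_, h3⟩ := g_lip Φ s s' h1
        have h4 : (Φ.g s' : ℤ) ≤ Φ.g s + (s' - s) := by
          have : (Φ.g s' : ℤ) ≤ ((Φ.g s + (s' - s) : ℕ) : ℤ) := by exact_mod_cast h3
          push_cast [Nat.cast_sub h1] at this
          exact this
        have h5 : ((s' : ℤ) - s) * 1 ≤ (s' - s) * t := by
          apply mul_le_mul_of_nonneg_left (by exact_mod_cast ht)
          have : (s : ℤ) ≤ s' := by exact_mod_cast h1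
          linarith
        have h6 : ((s' : ℤ) - s) * t = s' * t - s * t := by ring
        linarith)
    obtain ⟨s1, s2, h1, h2, h3⟩ := h
    refine ⟨s1, s2, h1, h2, ?_⟩
    rw [← h3]
    apply filter_congr
    intro s _
    simp only [hI]
    exact and_comm
  -- the inner sums
  set κ : ℝ := if (vv Φ (t + δ) (a, b)).natAbs.Coprime q then δ / (Nat.totient (δ * q) : ℝ) else 0 with hκ
  have hκ0 : 0 ≤ κ := by rw [hκ]; split_ifs <;> positivity
  have hκ1 : κ ≤ δ / (Nat.totient (δ * q) : ℝ) := by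
    rw [hκ]; split_ifs
    · exact le_rfl
    · positivity
  have hin : ∀ u ∈ (Ioc (-(Y : ℤ)) Y).filter (fun u => (q : ℤ) ∣ u - c0),
      |th R u.natAbs * ∑ s ∈ ((range Φ.S2).filter (fun s => I s u)).filter (fun s => s ≡ a [MOD q]),
          th R (u + e0 + δ * s).natAbs -
        κ * (th R u.natAbs * (((range Φ.S2).filter (fun s => I s u)).card : ℝ))| ≤
      th R u.natAbs * (2 * M (δ * q)) := by
    intro u hu
    rw [mem_filter, mem_Ioc] at hu
    obtain ⟨⟨hu1, hu2⟩, huc⟩ := hu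
    by_cases hz : th R u.natAbs = 0
    · rw [hz]; simp
    · have hup : u.natAbs.Prime ∧ R < u.natAbs := by
        unfold th at hz
        by_contra h
        rw [if_neg h] at hz
        exact hz rfl
      obtain ⟨s1, s2, g1, g2, g3⟩ := hint u
      rw [g3, Nat.card_Ico]
      have hIs : ∀ s, s1 ≤ s → s < s2 → I s u := by
        intro s h1 h2
        have : s ∈ (range Φ.S2).filter (fun s => I s u) := by
          rw [g3]; exact mem_Ico.2 ⟨h1, h2⟩
        exact (mem_filter.1 this).2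
      have hcb : ∀ s : ℕ, s < Φ.S2 → I s u → -|Φ.c (t + δ)| - Φ.S2 < u + e0 + δ * s ∧
          u + e0 + δ * s ≤ (Φ.S2 : ℤ) * (t + δ : ℕ) + |Φ.c (t + δ)| := by
        intro s hs hIu
        obtain ⟨h1, h2⟩ := hIu
        obtain ⟨h3, h4⟩ := hsb s hs (t + δ)
        have h5 : (s : ℤ) * (t + δ : ℕ) = s * t + δ * s := by push_cast; ring
        rw [h5] at h3 h4
        rw [he0]
        constructor <;> linarith
      have hδS' : (δ : ℤ) ≤ Φ.S2 := by exact_mod_cast hδS
      have h := AP1 R Y M hM hM0 δ q hδ hq hR2 (u + e0) a s1 s2 g1 (by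
          intro hlt
          obtain ⟨h1, _⟩ := hcb s1 (by omega) (hIs s1 le_rfl hlt)
          have h3 : (0 : ℤ) ≤ (Φ.S2 : ℤ) * (t + δ : ℕ) := by positivity
          have h4 : (0 : ℤ) ≤ Φ.S2 := by positivity
          linarith) (by
          intro hlt
          obtain ⟨_, h1⟩ := hcb (s2 - 1) (by omega) (hIs (s2 - 1) (by omega) (by omega))
          have h2 : (((s2 - 1 : ℕ)) : ℤ) = (s2 : ℤ) - 1 := by
            rw [Nat.cast_sub (by omega)]; simp
          rw [h2] at h1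
          linarith)
      have hcop : (u + e0 + δ * a).natAbs.Coprime (δ * q) ↔
          (vv Φ (t + δ) (a, b)).natAbs.Coprime q := by
        have hx : (q : ℤ) ∣ (u + e0 + δ * a) - vv Φ (t + δ) (a, b) := by
          rw [hval a b, ← hc0]
          have : u + e0 + δ * (a : ℤ) - (c0 + (e0 + δ * a)) = u - c0 := by ring
          rw [this]
          exact huc
        rw [← cop_congr q _ _ hx, Nat.coprime_mul_iff_right]
        constructor
        · intro h1
          exact h1.2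
        · intro h1
          refine ⟨?_, h1⟩
          have hx2 : (δ : ℤ) ∣ (u + e0 + δ * a) - u := by
            have : u + e0 + δ * (a : ℤ) - u = e0 + δ * a := by ring
            rw [this]
            exact dvd_add hδe0 (dvd_mul_right _ _)
          rw [cop_congr δ _ _ hx2, Nat.Prime.coprime_iff_not_dvd hup.1]
          intro h4
          have := Nat.le_of_dvd (by omega) h4
          omega
      have e4 : (if (u + e0 + δ * a).natAbs.Coprime (δ * q) then
          ((δ : ℕ) : ℝ) * (s2 - s1) / Nat.totient (δ * q) else 0) = κ * ((s2 : ℝ) - s1) := by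
        rw [hκ]
        by_cases h5 : (vv Φ (t + δ) (a, b)).natAbs.Coprime q
        · rw [if_pos h5, if_pos (hcop.2 h5)]
          ring
        · rw [if_neg h5, if_neg (fun h6 => h5 (hcop.1 h6)), zero_mul]
      rw [e4] at h
      rw [Nat.cast_sub g1]
      have e5 : κ * (th R u.natAbs * ((s2 : ℝ) - s1)) = th R u.natAbs * (κ * ((s2 : ℝ) - s1)) := by ring
      rw [e5, ← mul_sub, abs_mul, abs_of_nonneg (th_nonneg R u.natAbs)]
      exact mul_le_mul_of_nonneg_left h (th_nonneg R u.natAbs)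
  -- the outer sum
  have hout : |∑ u ∈ (Ioc (-(Y : ℤ)) Y).filter (fun u => (q : ℤ) ∣ u - c0),
      th R u.natAbs * (((range Φ.S2).filter (fun s => I s u)).card : ℝ) -
      (if c0.natAbs.Coprime q then NN Φ / Nat.totient q else 0)| ≤ Φ.S2 * (2 * M q) := by
    have e6 : ∑ u ∈ (Ioc (-(Y : ℤ)) Y).filter (fun u => (q : ℤ) ∣ u - c0),
        th R u.natAbs * (((range Φ.S2).filter (fun s => I s u)).card : ℝ) =
        ∑ s ∈ range Φ.S2, ∑ u ∈ (Ioc ((s : ℤ) * t + Φ.c t - Φ.g s) ((s : ℤ) * t + Φ.c t)).filter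
          (fun u => (q : ℤ) ∣ u - c0), th R u.natAbs := by
      rw [sum_congr rfl (fun s hs => e2 s hs (fun u => th R u.natAbs)), sum_comm]
      refine sum_congr rfl fun u _ => ?_
      rw [← sum_filter, sum_const, nsmul_eq_mul, mul_comm]
    have e7 : (if c0.natAbs.Coprime q then NN Φ / Nat.totient q else 0) =
        ∑ s ∈ range Φ.S2, (if c0.natAbs.Coprime q then (Φ.g s : ℝ) / Nat.totient q else 0) := by
      split_ifs
      · rw [← sum_div]; rfl
      · rw [sum_const_zero]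
    rw [e6, e7, ← sum_sub_distrib]
    refine (abs_sum_le_sum_abs _ _).trans ?_
    refine (sum_le_sum (fun s hs => row Φ R Y M hM q hq hR t s c0 (mem_range.1 hs) hY0)).trans ?_
    rw [sum_const, nsmul_eq_mul, card_range]
  have hthsum : ∑ u ∈ (Ioc (-(Y : ℤ)) Y).filter (fun u => (q : ℤ) ∣ u - c0), th R u.natAbs ≤
      2 * (((Y : ℝ) + 1) / q + 1) * Real.log Y := by
    have h1 : ∑ u ∈ (Ioc (-(Y : ℤ)) Y).filter (fun u => (q : ℤ) ∣ u - c0), th R u.natAbs ≤
        ∑ u ∈ (Ioc (-(Y : ℤ)) Y).filter (fun u => (q : ℤ) ∣ u - c0), Real.log Y := by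
      apply sum_le_sum
      intro u hu
      apply th_le
      have := mem_Ioc.1 (mem_filter.1 hu).1
      omega
    refine h1.trans ?_
    rw [sum_const, nsmul_eq_mul]
    exact mul_le_mul_of_nonneg_right (count_class Y q hq c0) (Real.log_natCast_nonneg Y)
  rw [e3]
  have hA : |∑ u ∈ (Ioc (-(Y : ℤ)) Y).filter (fun u => (q : ℤ) ∣ u - c0),
      (th R u.natAbs * ∑ s ∈ ((range Φ.S2).filter (fun s => I s u)).filter (fun s => s ≡ a [MOD q]),
          th R (u + e0 + δ * s).natAbs -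
        κ * (th R u.natAbs * (((range Φ.S2).filter (fun s => I s u)).card : ℝ)))| ≤
      4 * M (δ * q) * (((Y : ℝ) + 1) / q + 1) * Real.log Y := by
    refine (abs_sum_le_sum_abs _ _).trans ((sum_le_sum hin).trans ?_)
    rw [← sum_mul]
    calc _ ≤ (2 * (((Y : ℝ) + 1) / q + 1) * Real.log Y) * (2 * M (δ * q)) :=
          mul_le_mul_of_nonneg_right hthsum (by linarith [hM0 (δ * q)])
      _ = _ := by ring
  rw [sum_sub_distrib, ← mul_sum] at hA
  have hB : |κ * ∑ u ∈ (Ioc (-(Y : ℤ)) Y).filter (fun u => (q : ℤ) ∣ u - c0),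
      th R u.natAbs * (((range Φ.S2).filter (fun s => I s u)).card : ℝ) -
      κ * (if c0.natAbs.Coprime q then NN Φ / Nat.totient q else 0)| ≤
      δ / Nat.totient (δ * q) * (Φ.S2 * (2 * M q)) := by
    rw [← mul_sub, abs_mul, abs_of_nonneg hκ0]
    exact mul_le_mul hκ1 hout (abs_nonneg _) (by positivity)
  have e8 : (if (vv Φ t (a, b)).natAbs.Coprime q ∧ (vv Φ (t + δ) (a, b)).natAbs.Coprime q then
        δ * NN Φ / (Nat.totient (δ * q) * Nat.totient q) else 0) =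
      κ * (if c0.natAbs.Coprime q then NN Φ / Nat.totient q else 0) := by
    rw [hκ, hc0]
    by_cases h1 : (vv Φ t (a, b)).natAbs.Coprime q
    · by_cases h2 : (vv Φ (t + δ) (a, b)).natAbs.Coprime q
      · rw [if_pos ⟨h1, h2⟩, if_pos h2, if_pos h1, div_mul_div_comm]
      · rw [if_neg (fun h => h2 h.2), if_neg h2, zero_mul]
    · rw [if_neg (fun h => h1 h.1), if_neg h1, mul_zero]
  rw [e8]
  rw [abs_le] at hA hB ⊢
  constructor <;> linarith [hA.1, hA.2, hB.1, hB.2]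

end Pool.Agent.N913.MG
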