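import Pool.Agent.N913.MG.L4
import Pool.Agent.N913.MT.C4

set_option autoImplicit false
set_option linter.unusedSectionVars false

/-! The class hypothesis of the engine. -/

namespace Pool.Agent.N913.MG

open Finset
open Pool.Agent.N913.MT (th th_nonneg th_le cmod TT loc loc_mem cop_TT TT_insert crtT tot_TT Cl)

variable (Φ : Fam)

theorem filter_CS {P : Finset ℕ} (hP : ∀ p ∈ P, p.Prime) (W : ℕ) (hW : ∀ p ∈ P, ¬ p ∣ W) (s0 r0 : ℕ)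
    (c : P → ℕ × ℕ) (T : Finset P) (hc : ∀ t ∈ T, c t ∈ Cl (t : ℕ)) :
    ∃ a b : ℕ, (CS Φ W s0 r0).filter (fun n => ∀ t ∈ T, loc n t = c t) = CS Φ (W * TT T) a b ∧
      a ≡ s0 [MOD W] ∧ b ≡ r0 [MOD W] ∧ ∀ t ∈ T, a ≡ (c t).1 [MOD t] ∧ b ≡ (c t).2 [MOD t] := by
  obtain ⟨a, b, hab⟩ := crtT hP W hW s0 r0 c T
  refine ⟨a, b, ?_, ((hab (a, b)).1 ⟨rfl, rfl⟩)⟩
  ext n
  unfold CS
  simp only [mem_filter]
  have hl : ∀ t ∈ T, (loc n t = c t ↔ n.1 ≡ (c t).1 [MOD t] ∧ n.2 ≡ (c t).2 [MOD t]) := by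
    intro t ht
    have h1 := hc t ht
    unfold Cl at h1
    rw [mem_product, mem_range, mem_range] at h1
    unfold loc
    rw [Prod.ext_iff]
    simp only [Nat.ModEq]
    rw [Nat.mod_eq_of_lt h1.1, Nat.mod_eq_of_lt h1.2]
  constructor
  · rintro ⟨⟨h1, h2, h3, h4⟩, h5⟩
    have h6 := (hab n).2 ⟨h3, h4, fun t ht => (hl t ht).1 (h5 t ht)⟩
    exact ⟨h1, h2, h6.1, h6.2⟩
  · rintro ⟨h1, h2, h3, h4⟩
    have h5 := (hab n).1 ⟨h3, h4⟩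
    exact ⟨⟨h1, h2, h5.1, h5.2.1⟩, fun t ht => (hl t ht).2 (h5.2.2 t ht)⟩

theorem vv_congr (p t : ℕ) (x y : ℕ × ℕ) (h1 : x.1 ≡ y.1 [MOD p]) (h2 : x.2 ≡ y.2 [MOD p]) :
    (p : ℤ) ∣ vv Φ t x ↔ (p : ℤ) ∣ vv Φ t y := by
  unfold vv
  have g1 : (p : ℤ) ∣ (y.1 : ℤ) - x.1 := Nat.modEq_iff_dvd.1 h1
  have g2 : (p : ℤ) ∣ (y.2 : ℤ) - x.2 := Nat.modEq_iff_dvd.1 h2
  have e : ((y.1 : ℤ) * t + Φ.c t - y.2) - (x.1 * t + Φ.c t - x.2) =
      t * (y.1 - x.1) - (y.2 - x.2) := by ring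
  have g3 : (p : ℤ) ∣ ((y.1 : ℤ) * t + Φ.c t - y.2) - (x.1 * t + Φ.c t - x.2) := by
    rw [e]
    exact dvd_sub (Dvd.dvd.mul_left g1 _) g2
  constructor
  · intro h
    have := dvd_add h g3
    simpa using this
  · intro h
    have := dvd_sub h g3
    simpa using this

theorem cop_iff {P : Finset ℕ} (hP : ∀ p ∈ P, p.Prime) (W : ℕ) (T : Finset P)
    (c : P → ℕ × ℕ) (a b s0 r0 τ : ℕ) (ha : a ≡ s0 [MOD W]) (hb : b ≡ r0 [MOD W])
    (hab : ∀ t ∈ T, a ≡ (c t).1 [MOD t] ∧ b ≡ (c t).2 [MOD t])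
    (hcl : (vv Φ τ (s0, r0)).natAbs.Coprime W) :
    (vv Φ τ (a, b)).natAbs.Coprime (W * TT T) ↔ ∀ t ∈ T, ¬ ((t : ℕ) : ℤ) ∣ vv Φ τ (c t) := by
  constructor
  · intro h t ht hd
    have hp := hP t t.2
    have h1 : (t : ℕ) ∣ W * TT T := (dvd_prod_of_mem _ ht).mul_left W
    have h2 : (t : ℕ) ∣ (vv Φ τ (a, b)).natAbs := by
      rw [← Int.natCast_dvd]
      exact (vv_congr Φ t τ (a, b) (c t) (hab t ht).1 (hab t ht).2).2 hd
    have h3 := Nat.eq_one_of_dvd_coprimes h h2 h1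
    exact hp.one_lt.ne' h3
  · intro h
    rw [Nat.coprime_iff_gcd_eq_one]
    by_contra hne
    obtain ⟨p, hp, hpd⟩ := Nat.exists_prime_and_dvd hne
    have h1 := hpd.trans (Nat.gcd_dvd_left _ _)
    have h2 := hpd.trans (Nat.gcd_dvd_right _ _)
    have h3 : (p : ℤ) ∣ vv Φ τ (a, b) := Int.natCast_dvd.2 h1
    rcases (Nat.Prime.dvd_mul hp).1 h2 with h4 | h4
    · have h5 := (vv_congr Φ p τ (a, b) (s0, r0) (ha.of_dvd h4) (hb.of_dvd h4)).1 h3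
      have h6 := Int.natCast_dvd.1 h5
      exact hp.one_lt.ne' (Nat.eq_one_of_dvd_coprimes hcl h6 h4)
    · unfold TT at h4
      obtain ⟨t, ht, h5⟩ := (Prime.dvd_finsetProd_iff hp.prime _).1 h4
      have h6 := (Nat.prime_dvd_prime_iff_eq hp (hP t t.2)).1 h5
      subst h6
      exact h t ht ((vv_congr Φ t τ (a, b) (c t) (hab t ht).1 (hab t ht).2).1 h3)

theorem tot_TT2 {P : Finset ℕ} (hP : ∀ p ∈ P, p.Prime) (W δ : ℕ) (hW : ∀ p ∈ P, ¬ p ∣ W)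
    (T : Finset P) :
    (Nat.totient (δ * (W * TT T)) : ℝ) = Nat.totient (δ * W) *
      ∏ t ∈ T, (if (t : ℕ) ∣ δ then ((t : ℕ) : ℝ) else ((t : ℕ) : ℝ) - 1) := by
  induction T using Finset.induction_on with
  | empty => unfold TT; simp
  | insert t T ht ih =>
    have hco := cop_TT hP W hW T t ht
    have hp := hP t t.2
    have hiff : (t : ℕ) ∣ δ * (W * TT T) ↔ (t : ℕ) ∣ δ := by
      constructor
      · intro h
        rcases (Nat.Prime.dvd_mul hp).1 h with h1 | h1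
        · exact h1
        · exfalso
          have := Nat.eq_one_of_dvd_coprimes hco h1 dvd_rfl
          exact hp.one_lt.ne' this
      · intro h
        exact h.mul_right _
    have e : δ * (W * TT (insert t T)) = t * (δ * (W * TT T)) := by
      rw [TT_insert T t ht W]; ring
    rw [e, prod_insert ht]
    by_cases h : (t : ℕ) ∣ δ
    · rw [Nat.totient_mul_of_prime_of_dvd hp (hiff.2 h), if_pos h]
      push_cast
      rw [ih]; ring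
    · rw [Nat.totient_mul_of_prime_of_not_dvd hp (fun h' => h (hiff.1 h')), if_neg h]
      push_cast
      rw [ih, Nat.cast_sub hp.one_lt.le]
      push_cast
      ring

noncomputable def β0 (p : ℕ) (_ : ℕ × ℕ) : ℝ := 1 / (p : ℝ) ^ 2

noncomputable def β1 (τ p : ℕ) (x : ℕ × ℕ) : ℝ :=
  if (p : ℤ) ∣ vv Φ τ x then 0 else 1 / ((p : ℝ) * (p - 1))

noncomputable def β2 (τ τ' δ p : ℕ) (x : ℕ × ℕ) : ℝ :=
  if (p : ℤ) ∣ vv Φ τ x ∨ (p : ℤ) ∣ vv Φ τ' x then 0 else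
    1 / (((p : ℝ) - 1) * (if p ∣ δ then (p : ℝ) else (p : ℝ) - 1))

section cases
variable {P : Finset ℕ} (hP : ∀ p ∈ P, p.Prime) (W : ℕ) (hW : ∀ p ∈ P, ¬ p ∣ W) (hW0 : 1 ≤ W)
include hP hW hW0

theorem TT_pos (T : Finset P) : 1 ≤ TT T := Finset.prod_pos (fun (t : P) _ => (hP t t.2).pos)

theorem hc0 (s0 r0 : ℕ) (T : Finset P) (c : P → ℕ × ℕ) (hc : ∀ t ∈ T, c t ∈ Cl (t : ℕ)) :
    |∑ _n ∈ (CS Φ W s0 r0).filter (fun n => ∀ t ∈ T, loc n t = c t), (1 : ℝ) -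
      NN Φ / (W : ℝ) ^ 2 * ∏ t ∈ T, β0 (t : ℕ) (c t)| ≤ 6 * Φ.S2 + 2 := by
  obtain ⟨a, b, h1, -, -, -⟩ := filter_CS Φ hP W hW s0 r0 c T hc
  have hT := TT_pos hP W hW hW0 T
  rw [h1]
  have h2 := claim0 Φ (W * TT T) a b (Nat.mul_pos hW0 hT)
  rw [sum_const, nsmul_eq_mul, mul_one]
  have e : NN Φ / (W : ℝ) ^ 2 * ∏ t ∈ T, β0 (t : ℕ) (c t) =
      NN Φ / ((W * TT T : ℕ) : ℝ) ^ 2 := by
    unfold β0 TT
    push_cast
    rw [prod_div_distrib, prod_const_one, prod_pow, mul_pow, div_mul_div_comm, mul_one]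
  rw [e]
  exact h2

theorem hc1 (R Y : ℕ) (M : ℕ → ℝ) (hM : BVz R Y M) (hM0 : ∀ q, 0 ≤ M q)
    (hRW : ∀ p : ℕ, p.Prime → p ∣ W → p ≤ R) (hRP : ∀ p ∈ P, p ≤ R) (s0 r0 τ : ℕ) 
    (hY : (Φ.S2 : ℤ) * τ + |Φ.c τ| + 2 * Φ.S2 ≤ Y) (hcl : (vv Φ τ (s0, r0)).natAbs.Coprime W)
    (T : Finset P) (c : P → ℕ × ℕ) (hc : ∀ t ∈ T, c t ∈ Cl (t : ℕ)) :
    |∑ n ∈ (CS Φ W s0 r0).filter (fun n => ∀ t ∈ T, loc n t = c t),
        th R (vv Φ τ n).natAbs -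
      NN Φ / (W * Nat.totient W) * ∏ t ∈ T, β1 Φ τ (t : ℕ) (c t)| ≤
      (Φ.S2 / ((W * TT T : ℕ) : ℝ) + 1) * (2 * M (W * TT T)) +
        (4 * Φ.S2 + 1) / Nat.totient (W * TT T) := by
  obtain ⟨a, b, h1, ha, hb, hab⟩ := filter_CS Φ hP W hW s0 r0 c T hc
  have hT := TT_pos hP W hW hW0 T
  rw [h1]
  have hR : ∀ p : ℕ, p.Prime → p ∣ W * TT T → p ≤ R := by
    intro p hp hd
    rcases (Nat.Prime.dvd_mul hp).1 hd with h | h
    · exact hRW p hp h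
    · unfold TT at h
      obtain ⟨t, ht, h5⟩ := (Prime.dvd_finsetProd_iff hp.prime _).1 h
      rw [(Nat.prime_dvd_prime_iff_eq hp (hP t t.2)).1 h5]
      exact hRP t t.2
  have h2 := claim1 Φ R Y M hM hM0 (W * TT T) a b τ (Nat.mul_pos hW0 hT) hR hY
  have hco := cop_iff Φ hP W T c a b s0 r0 τ ha hb hab hcl
  have e : NN Φ / (W * Nat.totient W) * ∏ t ∈ T, β1 Φ τ (t : ℕ) (c t) =
      (if (vv Φ τ (a, b)).natAbs.Coprime (W * TT T) then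
        NN Φ / (((W * TT T : ℕ) : ℝ) * Nat.totient (W * TT T)) else 0) := by
    by_cases h : (vv Φ τ (a, b)).natAbs.Coprime (W * TT T)
    · rw [if_pos h]
      have h3 := hco.1 h
      have h4 : ∏ t ∈ T, β1 Φ τ (t : ℕ) (c t) = ∏ t ∈ T, 1 / (((t : ℕ) : ℝ) * (((t : ℕ) : ℝ) - 1)) := by
        refine prod_congr rfl fun t ht => ?_
        unfold β1
        rw [if_neg (h3 t ht)]
      rw [h4, prod_div_distrib, prod_const_one, prod_mul_distrib, tot_TT hP W hW T]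
      unfold TT
      push_cast
      rw [div_mul_div_comm, mul_one]
      congr 1
      ring
    · rw [if_neg h]
      have h3 : ∃ t ∈ T, ((t : ℕ) : ℤ) ∣ vv Φ τ (c t) := by
        by_contra hcon
        push Not at hcon
        exact h (hco.2 hcon)
      obtain ⟨t, ht, h4⟩ := h3
      rw [prod_eq_zero ht (by unfold β1; rw [if_pos h4]), mul_zero]
  rw [e]
  exact h2

theorem hc2 (R Y : ℕ) (M : ℕ → ℝ) (hM : BVz R Y M) (hM0 : ∀ q, 0 ≤ M q) 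
    (hRW : ∀ p : ℕ, p.Prime → p ∣ W → p ≤ R) (hRP : ∀ p ∈ P, p ≤ R) (s0 r0 τ δ : ℕ) (hτ : 1 ≤ τ)
    (hδ : 1 ≤ δ) (hδR : δ ≤ R) (hδS : δ ≤ Φ.S2) (hY0 : (Φ.S2 : ℤ) * τ + |Φ.c τ| + 2 * Φ.S2 ≤ Y)
    (hY : (Φ.S2 : ℤ) * (τ + δ : ℕ) + |Φ.c (τ + δ)| + 2 * Φ.S2 ≤ Y) (hcl : (vv Φ τ (s0, r0)).natAbs.Coprime W)
    (hcl' : (vv Φ (τ + δ) (s0, r0)).natAbs.Coprime W)
    (T : Finset P) (c : P → ℕ × ℕ) (hc : ∀ t ∈ T, c t ∈ Cl (t : ℕ)) :
    |∑ n ∈ (CS Φ W s0 r0).filter (fun n => ∀ t ∈ T, loc n t = c t),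
        th R (vv Φ τ n).natAbs * th R (vv Φ (τ + δ) n).natAbs -
      δ * NN Φ / (Nat.totient (δ * W) * Nat.totient W) *
        ∏ t ∈ T, β2 Φ τ (τ + δ) δ (t : ℕ) (c t)| ≤
      4 * M (δ * (W * TT T)) * (((Y : ℝ) + 1) / ((W * TT T : ℕ) : ℝ) + 1) * Real.log Y +
        δ / Nat.totient (δ * (W * TT T)) * (Φ.S2 * (2 * M (W * TT T))) := by
  obtain ⟨a, b, h1, ha, hb, hab⟩ := filter_CS Φ hP W hW s0 r0 c T hc
  have hT := TT_pos hP W hW hW0 T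
  rw [h1]
  have hR : ∀ p : ℕ, p.Prime → p ∣ W * TT T → p ≤ R := by
    intro p hp hd
    rcases (Nat.Prime.dvd_mul hp).1 hd with h | h
    · exact hRW p hp h
    · unfold TT at h
      obtain ⟨t, ht, h5⟩ := (Prime.dvd_finsetProd_iff hp.prime _).1 h
      rw [(Nat.prime_dvd_prime_iff_eq hp (hP t t.2)).1 h5]
      exact hRP t t.2
  have h2 := claim2 Φ R Y M hM hM0 (W * TT T) a b τ δ (Nat.mul_pos hW0 hT)
    hR hδ hδR hδS hτ hY0 hY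
  have hco := cop_iff Φ hP W T c a b s0 r0 τ ha hb hab hcl
  have hco' := cop_iff Φ hP W T c a b s0 r0 (τ + δ) ha hb hab hcl'
  have e : δ * NN Φ / (Nat.totient (δ * W) * Nat.totient W) *
        ∏ t ∈ T, β2 Φ τ (τ + δ) δ (t : ℕ) (c t) =
      (if (vv Φ τ (a, b)).natAbs.Coprime (W * TT T) ∧ (vv Φ (τ + δ) (a, b)).natAbs.Coprime (W * TT T) then
        δ * NN Φ / (Nat.totient (δ * (W * TT T)) * Nat.totient (W * TT T)) else 0) := by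
    by_cases h : (vv Φ τ (a, b)).natAbs.Coprime (W * TT T) ∧
        (vv Φ (τ + δ) (a, b)).natAbs.Coprime (W * TT T)
    · rw [if_pos h]
      have h3 := hco.1 h.1
      have h3' := hco'.1 h.2
      have h4 : ∏ t ∈ T, β2 Φ τ (τ + δ) δ (t : ℕ) (c t) = ∏ t ∈ T, 1 / ((((t : ℕ) : ℝ) - 1) *
          (if (t : ℕ) ∣ δ then ((t : ℕ) : ℝ) else ((t : ℕ) : ℝ) - 1)) := by
        refine prod_congr rfl fun t ht => ?_
        unfold β2
        rw [if_neg (not_or.2 ⟨h3 t ht, h3' t ht⟩)]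
      rw [h4, prod_div_distrib, prod_const_one, prod_mul_distrib, tot_TT hP W hW T,
        tot_TT2 hP W δ hW T]
      rw [div_mul_div_comm, mul_one]
      congr 1
      ring
    · rw [if_neg h]
      have h3 : ∃ t ∈ T, ((t : ℕ) : ℤ) ∣ vv Φ τ (c t) ∨ ((t : ℕ) : ℤ) ∣ vv Φ (τ + δ) (c t) := by
        by_contra hcon
        push Not at hcon
        exact h ⟨hco.2 (fun t ht => (hcon t ht).1), hco'.2 (fun t ht => (hcon t ht).2)⟩
      obtain ⟨t, ht, h4⟩ := h3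
      rw [prod_eq_zero ht (by unfold β2; rw [if_pos h4]), mul_zero]
  rw [e]
  exact h2

end cases

/-! normalization -/

theorem sum_β0 (p : ℕ) (hp : p.Prime) : ∑ x ∈ Cl p, β0 p x = 1 := by
  unfold β0 Cl
  rw [sum_const, card_product, card_range, nsmul_eq_mul]
  have : (p : ℝ) ≠ 0 := by exact_mod_cast hp.pos.ne'
  push_cast
  field_simp

theorem card_Cl (p : ℕ) : ((Cl p).card : ℝ) = (p : ℝ) ^ 2 := by
  unfold Cl
  rw [card_product, card_range]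
  push_cast
  ring

theorem card_not1 (p : ℕ) (hp : p.Prime) (τ : ℕ) :
    (((Cl p).filter (fun x => ¬ (p : ℤ) ∣ vv Φ τ x)).card : ℝ) = (p : ℝ) ^ 2 - p := by
  have h := card_filter_add_card_filter_not (s := Cl p) (fun x => (p : ℤ) ∣ vv Φ τ x)
  rw [card_Z1 Φ p hp.pos] at h
  have h2 : (p : ℝ) + ((Cl p).filter (fun x => ¬ (p : ℤ) ∣ vv Φ τ x)).card = (Cl p).card := by
    exact_mod_cast h
  rw [card_Cl] at h2
  linarith

theorem sum_β1 (τ p : ℕ) (hp : p.Prime) : ∑ x ∈ Cl p, β1 Φ τ p x = 1 := by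
  unfold β1
  have h2 : (1 : ℝ) < p := by exact_mod_cast hp.one_lt
  have h3 : (p : ℝ) - 1 ≠ 0 := by linarith
  have h4 : (p : ℝ) ≠ 0 := by linarith
  have e : ∀ x ∈ Cl p, (if (p : ℤ) ∣ vv Φ τ x then (0 : ℝ) else 1 / ((p : ℝ) * (p - 1))) =
      if ¬ (p : ℤ) ∣ vv Φ τ x then 1 / ((p : ℝ) * (p - 1)) else 0 := by
    intro x _
    split_ifs <;> rfl
  rw [sum_congr rfl e, ← sum_filter, sum_const, nsmul_eq_mul, card_not1 Φ p hp τ]
  field_simp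

theorem sum_β2 (τ δ p : ℕ) (hp : p.Prime) :
    ∑ x ∈ Cl p, β2 Φ τ (τ + δ) δ p x = 1 := by
  unfold β2
  have hp1 : (1 : ℝ) < p := by exact_mod_cast hp.one_lt
  have h3 : (p : ℝ) - 1 ≠ 0 := by linarith
  have h4 : (p : ℝ) ≠ 0 := by linarith
  have e : ∀ x ∈ Cl p, (if (p : ℤ) ∣ vv Φ τ x ∨ (p : ℤ) ∣ vv Φ (τ + δ) x then (0 : ℝ) else
      1 / (((p : ℝ) - 1) * (if p ∣ δ then (p : ℝ) else (p : ℝ) - 1))) =
      if ¬ ((p : ℤ) ∣ vv Φ τ x ∨ (p : ℤ) ∣ vv Φ (τ + δ) x) then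
        1 / (((p : ℝ) - 1) * (if p ∣ δ then (p : ℝ) else (p : ℝ) - 1)) else 0 := by
    intro x _
    rw [ite_not]
  rw [sum_congr rfl e, ← sum_filter, sum_const, nsmul_eq_mul]
  by_cases hd : p ∣ δ
  · have h5 : (Cl p).filter (fun x => ¬ ((p : ℤ) ∣ vv Φ τ x ∨ (p : ℤ) ∣ vv Φ (τ + δ) x)) =
        (Cl p).filter (fun x => ¬ (p : ℤ) ∣ vv Φ τ x) := by
      apply filter_congr
      intro x _
      have h6 : (p : ℤ) ∣ vv Φ τ x ↔ (p : ℤ) ∣ vv Φ (τ + δ) x := by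
        apply vv_shift
        push_cast
        rw [show (τ : ℤ) - (τ + δ) = -δ by ring, dvd_neg]
        exact_mod_cast hd
      rw [← h6, or_self]
    rw [h5, card_not1 Φ p hp, if_pos hd]
    field_simp
  · rw [if_neg hd]
    have h6 : ¬ (p : ℤ) ∣ ((τ : ℤ) - (τ + δ : ℕ)) := by
      push_cast
      rw [show (τ : ℤ) - (τ + δ) = -δ by ring, dvd_neg]
      exact_mod_cast hd
    have h7 := card_Z2 Φ p hp τ (τ + δ) h6
    have h8 := card_filter_add_card_filter_not (s := Cl p)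
      (fun x => (p : ℤ) ∣ vv Φ τ x ∨ (p : ℤ) ∣ vv Φ (τ + δ) x)
    have h9 : ((Cl p).filter (fun x => (p : ℤ) ∣ vv Φ τ x ∨ (p : ℤ) ∣ vv Φ (τ + δ) x)).card +
        ((Cl p).filter (fun x => (p : ℤ) ∣ vv Φ τ x ∧ (p : ℤ) ∣ vv Φ (τ + δ) x)).card = p + p := by
      rw [filter_or, filter_and, card_union_add_card_inter, card_Z1 Φ p hp.pos, card_Z1 Φ p hp.pos]
    rw [h7] at h9
    have h10 : (((Cl p).filter (fun x => (p : ℤ) ∣ vv Φ τ x ∨ (p : ℤ) ∣ vv Φ (τ + δ) x)).card : ℝ) + 1 =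
        p + p := by exact_mod_cast h9
    have h11 : (((Cl p).filter (fun x => (p : ℤ) ∣ vv Φ τ x ∨ (p : ℤ) ∣ vv Φ (τ + δ) x)).card : ℝ) +
        ((Cl p).filter (fun x => ¬ ((p : ℤ) ∣ vv Φ τ x ∨ (p : ℤ) ∣ vv Φ (τ + δ) x))).card =
        (Cl p).card := by exact_mod_cast h8
    rw [card_Cl] at h11
    have h12 : (((Cl p).filter (fun x => ¬ ((p : ℤ) ∣ vv Φ τ x ∨ (p : ℤ) ∣ vv Φ (τ + δ) x))).card : ℝ) =
        ((p : ℝ) - 1) * (p - 1) := by linarith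
    rw [h12]
    field_simp

theorem β_bd (τ τ' δ p : ℕ) (h3 : 3 ≤ p) (x : ℕ × ℕ) : |β0 p x| ≤ 4 / (p : ℝ) ^ 2 ∧
    |β1 Φ τ p x| ≤ 4 / (p : ℝ) ^ 2 ∧ |β2 Φ τ τ' δ p x| ≤ 4 / (p : ℝ) ^ 2 := by
  have hp3 : (3 : ℝ) ≤ p := by exact_mod_cast h3
  refine ⟨?_, ?_, ?_⟩
  · unfold β0
    rw [abs_of_nonneg (by positivity)]
    gcongr
    norm_num
  · unfold β1
    split_ifs
    · rw [abs_zero]; positivity
    · rw [abs_of_nonneg (div_nonneg zero_le_one (mul_nonneg (by linarith) (by linarith))),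
        div_le_div_iff₀ (mul_pos (by linarith) (by linarith)) (by positivity)]
      nlinarith
  · unfold β2
    split_ifs
    · rw [abs_zero]; positivity
    · rw [abs_of_nonneg (div_nonneg zero_le_one (mul_nonneg (by linarith) (by linarith))),
        div_le_div_iff₀ (mul_pos (by linarith) (by linarith)) (by positivity)]
      nlinarith
    · rw [abs_of_nonneg (div_nonneg zero_le_one (mul_nonneg (by linarith) (by linarith))),
        div_le_div_iff₀ (mul_pos (by linarith) (by linarith)) (by positivity)]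
      nlinarith


end Pool.Agent.N913.MG
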