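import Pool.Agent.N913.MG.L5
import Pool.Agent.N913.MT.D1

set_option autoImplicit false
set_option linter.unusedSectionVars false

/-! The moments. -/

namespace Pool.Agent.N913.MG

open Finset
open Pool.Agent.N913.MT (th th_nonneg th_le cmod TT loc loc_mem cop_TT TT_insert crtT tot_TT Cl expand
  Ip Ip_bd Ip_empty Yp Wb step1 swap comp)

section mom
variable {P : Finset ℕ} {B J : Type} [Fintype B] [Fintype J] [DecidableEq B] [DecidableEq J]

/-- the weight -/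
noncomputable def Lam (Φ : Fam) (P : Finset ℕ) (h : J → ℕ) (y : (J → Finset P) → ℝ) (i : ℕ) (n : ℕ × ℕ) : ℝ :=
  ∑ f : J → Finset P, y f * ∏ j, ∏ t ∈ f j, chi Φ (t : ℕ) (i + h j) (loc n t)

/-- the discrepancies -/
noncomputable def DD (B J : Type) [Fintype B] [Fintype J] [DecidableEq B] [DecidableEq J]
    (good : Prop) [Decidable good] (t : ℕ) : ℝ :=
  2 ^ (Fintype.card (B × Bool × J)) *
    ((if good then (1 / (t : ℝ)) ^ 2 * 4 ^ (Fintype.card (B × J)) else (14 : ℝ) / t) : ℝ)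

theorem DD_bd (Φ : Fam) (good : Prop) [Decidable good] (t : ℕ) (ht : t.Prime) (h3 : 3 ≤ t) (l : Option J)
    (pos : B × J → ℕ) (β : ℕ × ℕ → ℝ) (hβ1 : ∑ x ∈ Cl t, β x = 1)
    (hβ : ∀ x, |β x| ≤ 4 / (t : ℝ) ^ 2)
    (hpos : good → ∀ q q', q ≠ q' → ¬ (t : ℤ) ∣ (pos q : ℤ) - pos q')
    (hg : good → ∀ x, β x = pf Φ t l pos x / (t : ℝ) ^ 2) :
    ∑ A : Finset (B × Bool × J), |∑ x ∈ Cl t, β x * ∏ τ ∈ A, chi Φ t (pos (τ.1, τ.2.2)) x -
      Ip (1 / ((t : ℝ) - 1)) l A| ≤ DD B J good t := by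
  have ht3 : (3 : ℝ) ≤ t := by exact_mod_cast h3
  have hν0 : 0 ≤ 1 / ((t : ℝ) - 1) := by apply div_nonneg zero_le_one; linarith
  have hν1 : 1 / ((t : ℝ) - 1) ≤ 1 := by rw [div_le_one (by linarith)]; linarith
  have hν2 : 1 / ((t : ℝ) - 1) ≤ 2 / t := by
    rw [div_le_div_iff₀ (by linarith) (by linarith)]; linarith
  unfold DD
  have hcard : ((univ : Finset (Finset (B × Bool × J))).card : ℝ) =
      2 ^ (Fintype.card (B × Bool × J)) := by
    rw [card_univ, Fintype.card_finset]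
    push_cast
    rfl
  rw [← hcard, ← nsmul_eq_mul]
  apply sum_le_card_nsmul
  intro A _
  split_ifs with hgood
  · have h1 := local_good Φ t ht h3 l pos (hpos hgood) A
    have h2 : ∑ x ∈ Cl t, β x * ∏ τ ∈ A, chi Φ t (pos (τ.1, τ.2.2)) x =
        (∑ x ∈ Cl t, pf Φ t l pos x * ∏ τ ∈ A, chi Φ t (pos (τ.1, τ.2.2)) x) / (t : ℝ) ^ 2 := by
      rw [sum_div]
      refine sum_congr rfl fun x _ => ?_
      rw [hg hgood x]
      ring
    rw [h2]
    exact h1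
  · by_cases hA : A.Nonempty
    · have h1 := local_bad Φ t ht h3 β hβ pos A hA
      have h2 := Ip_bd (B := B) (1 / ((t : ℝ) - 1)) hν0 hν1 l A hA
      have h4 : (14 : ℝ) / t = 12 / t + 2 / t := by ring
      rw [h4]
      rw [abs_le] at h1 ⊢
      constructor <;> linarith [h1.1, h1.2, h2.1, h2.2]
    · rw [not_nonempty_iff_eq_empty] at hA
      subst hA
      rw [Ip_empty]
      simp only [prod_empty, mul_one]
      rw [hβ1, sub_self, abs_zero]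
      positivity

variable (hP : ∀ p ∈ P, p.Prime) (h3 : ∀ p ∈ P, 3 ≤ p)
include hP h3
variable (Φ : Fam)

theorem moment_aux (h : J → ℕ) (y : (J → Finset P) → ℝ) (hy : ∀ f, |y f| ≤ 1) (ib : B → ℕ)
    (N : Finset (ℕ × ℕ)) (μ : ℕ × ℕ → ℝ) (β : P → ℕ × ℕ → ℝ) (hβ1 : ∀ t : P, ∑ x ∈ Cl (t : ℕ), β t x = 1)
    (κ : ℝ) (E : Finset P → ℝ) (hE : ∀ T, 0 ≤ E T) (Adm : Finset P → Prop)
    [DecidablePred Adm] (hAdm : ∀ F : B × Bool × J → Finset P, Yp y F ≠ 0 → Adm (univ.biUnion F))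
    (hc : ∀ T, Adm T → ∀ c : P → ℕ × ℕ, (∀ t ∈ T, c t ∈ Cl (t : ℕ)) →
      |∑ n ∈ N.filter (fun n => ∀ t ∈ T, loc n t = c t), μ n - κ * ∏ t ∈ T, β t (c t)| ≤ E T) :
    |∑ n ∈ N, μ n * ∏ b, (Lam Φ P h y (ib b) n) ^ 2 -
      κ * ∑ F : B × Bool × J → Finset P, Yp y F * ∏ t : P, ∑ x ∈ Cl (t : ℕ), β t x *
        ∏ τ ∈ univ.filter (fun τ => t ∈ F τ), chi Φ (t : ℕ) (ib τ.1 + h τ.2.2) x| ≤
      ∑ T ∈ univ.filter (fun T => Adm T), (2 : ℝ) ^ (Fintype.card (B × Bool × J) * T.card) *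
        (E T * ∏ t ∈ T, (3 * ((t : ℕ) : ℝ))) := by
  have hY : ∀ F : B × Bool × J → Finset P, |Yp y F| ≤ 1 := by
    intro F
    unfold Yp
    rw [abs_prod]
    apply prod_le_one (fun _ _ => abs_nonneg _)
    intro b _
    rw [abs_mul]
    exact mul_le_one₀ (hy _) (abs_nonneg _) (hy _)
  have h1 := step1 (α := ℕ × ℕ) (ι := ℕ × ℕ) (S := P) (I := B × Bool × J) loc (fun t => Cl (t : ℕ)) N
    (fun n _ t => loc_mem hP n t) μ β hβ1 (fun τ t x => chi Φ (t : ℕ) (ib τ.1 + h τ.2.2) x) (Yp y) hY κ E hE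
    Adm hAdm (by
      intro T hT c hcc
      have h9 := hc T hT c hcc
      convert h9) (fun t => 3 * ((t : ℕ) : ℝ)) (by
        intro t A hA
        exact sum_chi Φ (t : ℕ) (hP t t.2) (h3 t t.2) (fun q : B × J => ib q.1 + h q.2) A hA)
    (fun t => by positivity)
  have h2 : ∀ n, ∏ b, (Lam Φ P h y (ib b) n) ^ 2 =
      ∑ F : B × Bool × J → Finset P, Yp y F * ∏ τ : B × Bool × J, ∏ t ∈ F τ,
        chi Φ (t : ℕ) (ib τ.1 + h τ.2.2) (loc n t) := by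
    intro n
    exact expand (fun b j (a : Finset P) => ∏ t ∈ a, chi Φ (t : ℕ) (ib b + h j) (loc n t)) y
  rw [sum_congr rfl (fun n _ => by rw [h2 n])]
  exact h1

/-- the moments -/
theorem moment (h : J → ℕ) (y : (J → Finset P) → ℝ) (hy : ∀ f, |y f| ≤ 1) (ib : B → ℕ)
    (l : Option J)
    (N : Finset (ℕ × ℕ)) (μ : ℕ × ℕ → ℝ) (β : P → ℕ × ℕ → ℝ) (hβ1 : ∀ t : P, ∑ x ∈ Cl (t : ℕ), β t x = 1)
    (hβ : ∀ t : P, ∀ x, |β t x| ≤ 4 / ((t : ℕ) : ℝ) ^ 2) (good : P → Prop) [DecidablePred good]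
    (hpos : ∀ t : P, good t → ∀ q q' : B × J, q ≠ q' →
      ¬ ((t : ℕ) : ℤ) ∣ ((ib q.1 + h q.2 : ℕ) : ℤ) - (ib q'.1 + h q'.2 : ℕ))
    (hg : ∀ t : P, good t → ∀ x, β t x = pf Φ (t : ℕ) l (fun q : B × J => ib q.1 + h q.2) x / ((t : ℕ) : ℝ) ^ 2)
    (κ : ℝ) (hκ : 0 ≤ κ) (E : Finset P → ℝ) (hE : ∀ T, 0 ≤ E T) (Adm : Finset P → Prop)
    [DecidablePred Adm] (hAdm : ∀ F : B × Bool × J → Finset P, Yp y F ≠ 0 → Adm (univ.biUnion F))
    (hc : ∀ T, Adm T → ∀ c : P → ℕ × ℕ, (∀ t ∈ T, c t ∈ Cl (t : ℕ)) →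
      |∑ n ∈ N.filter (fun n => ∀ t ∈ T, loc n t = c t), μ n - κ * ∏ t ∈ T, β t (c t)| ≤ E T) :
    |∑ n ∈ N, μ n * ∏ b, (Lam Φ P h y (ib b) n) ^ 2 -
      κ * (Wb (fun t : P => 1 / (((t : ℕ) : ℝ) - 1)) l y) ^ (Fintype.card B)| ≤
      κ * ((Wb (fun t : P => 1 / (((t : ℕ) : ℝ) - 1)) l (fun _ => 1)) ^ (Fintype.card B) *
        (Real.exp (∑ t : P, DD B J (good t) (t : ℕ)) - 1)) +
      ∑ T ∈ univ.filter (fun T => Adm T), (2 : ℝ) ^ (Fintype.card (B × Bool × J) * T.card) *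
        (E T * ∏ t ∈ T, (3 * ((t : ℕ) : ℝ))) := by
  have h1 := moment_aux hP h3 Φ h y hy ib N μ β hβ1 κ E hE Adm hAdm hc
  have hν0 : ∀ t : P, 0 ≤ 1 / (((t : ℕ) : ℝ) - 1) := by
    intro t
    have : (3 : ℝ) ≤ (t : ℕ) := by exact_mod_cast h3 t t.2
    apply div_nonneg zero_le_one; linarith
  have hν1 : ∀ t : P, 1 / (((t : ℕ) : ℝ) - 1) ≤ 1 := by
    intro t
    have : (3 : ℝ) ≤ (t : ℕ) := by exact_mod_cast h3 t t.2
    rw [div_le_one (by linarith)]; linarith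
  have h2 := comp (B := B) (fun t : P => 1 / (((t : ℕ) : ℝ) - 1)) hν0 hν1 l y hy
    (fun t A => ∑ x ∈ Cl (t : ℕ), β t x * ∏ τ ∈ A, chi Φ (t : ℕ) (ib τ.1 + h τ.2.2) x)
    (fun t => DD B J (good t) (t : ℕ)) (fun t => DD_bd Φ (good t) (t : ℕ) (hP t t.2) (h3 t t.2) l
      (fun q : B × J => ib q.1 + h q.2) (β t) (hβ1 t) (hβ t) (hpos t) (hg t))
  have h4 := mul_le_mul_of_nonneg_left h2 hκ
  rw [← abs_of_nonneg hκ, ← abs_mul, abs_of_nonneg hκ, mul_sub] at h4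
  rw [abs_le] at h1 h4 ⊢
  constructor <;> linarith [h1.1, h1.2, h4.1, h4.2]

/-- crude bound for the diagonal -/
theorem moment_crude (h : J → ℕ) (y : (J → Finset P) → ℝ) (hy : ∀ f, |y f| ≤ 1) (ib : B → ℕ)
    (N : Finset (ℕ × ℕ)) (μ : ℕ × ℕ → ℝ) (β : P → ℕ × ℕ → ℝ) (hβ1 : ∀ t : P, ∑ x ∈ Cl (t : ℕ), β t x = 1)
    (hβ : ∀ t : P, ∀ x, |β t x| ≤ 4 / ((t : ℕ) : ℝ) ^ 2)
    (κ : ℝ) (hκ : 0 ≤ κ) (E : Finset P → ℝ) (hE : ∀ T, 0 ≤ E T) (Adm : Finset P → Prop)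
    [DecidablePred Adm] (hAdm : ∀ F : B × Bool × J → Finset P, Yp y F ≠ 0 → Adm (univ.biUnion F))
    (hc : ∀ T, Adm T → ∀ c : P → ℕ × ℕ, (∀ t ∈ T, c t ∈ Cl (t : ℕ)) →
      |∑ n ∈ N.filter (fun n => ∀ t ∈ T, loc n t = c t), μ n - κ * ∏ t ∈ T, β t (c t)| ≤ E T) :
    ∑ n ∈ N, μ n * ∏ b, (Lam Φ P h y (ib b) n) ^ 2 ≤
      κ * Real.exp (∑ t : P, 2 ^ (Fintype.card (B × Bool × J)) * (12 / ((t : ℕ) : ℝ))) +
      ∑ T ∈ univ.filter (fun T => Adm T), (2 : ℝ) ^ (Fintype.card (B × Bool × J) * T.card) *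
        (E T * ∏ t ∈ T, (3 * ((t : ℕ) : ℝ))) := by
  have h1 := moment_aux hP h3 Φ h y hy ib N μ β hβ1 κ E hE Adm hAdm hc
  have hY : ∀ F : B × Bool × J → Finset P, |Yp y F| ≤ 1 := by
    intro F
    unfold Yp
    rw [abs_prod]
    apply prod_le_one (fun _ _ => abs_nonneg _)
    intro b _
    rw [abs_mul]
    exact mul_le_one₀ (hy _) (abs_nonneg _) (hy _)
  have h2 : ∑ F : B × Bool × J → Finset P, Yp y F * ∏ t : P, ∑ x ∈ Cl (t : ℕ), β t x *
        ∏ τ ∈ univ.filter (fun τ => t ∈ F τ), chi Φ (t : ℕ) (ib τ.1 + h τ.2.2) x ≤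
      Real.exp (∑ t : P, 2 ^ (Fintype.card (B × Bool × J)) * (12 / ((t : ℕ) : ℝ))) := by
    calc _ ≤ ∑ F : B × Bool × J → Finset P, ∏ t : P, (fun (t : P) (A : Finset (B × Bool × J)) =>
          |∑ x ∈ Cl (t : ℕ), β t x * ∏ τ ∈ A, chi Φ (t : ℕ) (ib τ.1 + h τ.2.2) x|) t
            (univ.filter (fun τ => t ∈ F τ)) := by
          apply sum_le_sum
          intro F _
          refine (le_abs_self _).trans ?_
          rw [abs_mul, abs_prod]
          have := mul_le_mul_of_nonneg_right (hY F) (prod_nonneg fun t _ => abs_nonneg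
            (∑ x ∈ Cl (t : ℕ), β t x * ∏ τ ∈ univ.filter (fun τ => t ∈ F τ),
              chi Φ (t : ℕ) (ib τ.1 + h τ.2.2) x) : (0 : ℝ) ≤ ∏ t : P, |∑ x ∈ Cl (t : ℕ), β t x *
                ∏ τ ∈ univ.filter (fun τ => t ∈ F τ), chi Φ (t : ℕ) (ib τ.1 + h τ.2.2) x|)
          rw [one_mul] at this
          exact this
      _ = ∏ t : P, ∑ A : Finset (B × Bool × J),
          |∑ x ∈ Cl (t : ℕ), β t x * ∏ τ ∈ A, chi Φ (t : ℕ) (ib τ.1 + h τ.2.2) x| :=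
          swap (fun (t : P) (A : Finset (B × Bool × J)) =>
          |∑ x ∈ Cl (t : ℕ), β t x * ∏ τ ∈ A, chi Φ (t : ℕ) (ib τ.1 + h τ.2.2) x|)
      _ ≤ _ := by
          rw [Real.exp_sum]
          apply prod_le_prod
          · intro t _
            exact sum_nonneg fun _ _ => abs_nonneg _
          · intro t _
            refine le_trans ?_ (Real.add_one_le_exp _)
            rw [← add_sum_erase univ _ (mem_univ (∅ : Finset (B × Bool × J)))]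
            have e1 : |∑ x ∈ Cl (t : ℕ), β t x * ∏ τ ∈ (∅ : Finset (B × Bool × J)),
                chi Φ (t : ℕ) (ib τ.1 + h τ.2.2) x| = 1 := by
              simp only [prod_empty, mul_one]
              rw [hβ1 t, abs_one]
            rw [e1, add_comm]
            apply add_le_add _ le_rfl
            have e2 : ∀ A ∈ univ.erase (∅ : Finset (B × Bool × J)),
                |∑ x ∈ Cl (t : ℕ), β t x * ∏ τ ∈ A, chi Φ (t : ℕ) (ib τ.1 + h τ.2.2) x| ≤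
                12 / ((t : ℕ) : ℝ) := by
              intro A hA
              exact local_bad Φ (t : ℕ) (hP t t.2) (h3 t t.2) (β t) (hβ t)
                (fun q : B × J => ib q.1 + h q.2) A (nonempty_iff_ne_empty.2 (ne_of_mem_erase hA))
            refine (sum_le_card_nsmul _ _ _ e2).trans ?_
            rw [nsmul_eq_mul]
            apply mul_le_mul_of_nonneg_right _ (by positivity)
            have hcard : ((univ : Finset (Finset (B × Bool × J))).card : ℝ) =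
                2 ^ (Fintype.card (B × Bool × J)) := by
              rw [card_univ, Fintype.card_finset]
              push_cast
              rfl
            rw [← hcard]
            exact_mod_cast card_le_card (erase_subset _ _)
  have h4 := mul_le_mul_of_nonneg_left h2 hκ
  rw [abs_le] at h1
  linarith [h1.2]

end mom


end Pool.Agent.N913.MG
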