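import Pool.Agent.N913.MG.L6
import Pool.Agent.N913.MT.D2

set_option autoImplicit false
set_option linter.unusedSectionVars false

/-! The sums of the errors, and the Bombieri-Vinogradov input. -/

namespace Pool.Agent.N913.MG

open Finset Filter
open Pool.Agent.R498.MT (lz)
open Pool.Agent.N913.MT (th th_nonneg th_le cmod TT loc loc_mem cop_TT TT_insert crtT tot_TT Cl expand
  Ip Ip_bd Ip_empty Yp Wb step1 swap comp BS TT_pos' tot_ge rew bv BS_add evt_log_pow evt_log_ge)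

section err
variable {P : Finset ℕ} {B J : Type} [Fintype B] [Fintype J] [DecidableEq B] [DecidableEq J]
variable (hP : ∀ p ∈ P, p.Prime)
include hP

theorem err2 (hP2 : ∀ p ∈ P, 3 ≤ p) (c : ℕ) (W : ℕ)
    (hW0 : 1 ≤ W) (hW : ∀ p ∈ P, ¬ p ∣ W) (Q S2 Y δ : ℕ) (hδ : 1 ≤ δ) (hWQ : W * Q ≤ Y) (M : ℕ → ℝ)
    (hM0 : ∀ q, 0 ≤ M q) :
    ∑ T ∈ (univ : Finset (Finset P)).filter (fun T => TT T ≤ Q), (2 : ℝ) ^ (c * T.card) *
      ((4 * M (δ * (W * TT T)) * (((Y : ℝ) + 1) / ((W * TT T : ℕ) : ℝ) + 1) * Real.log Y +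
        δ / Nat.totient (δ * (W * TT T)) * (S2 * (2 * M (W * TT T)))) *
          ∏ t ∈ T, (3 * ((t : ℕ) : ℝ))) ≤
      8 * (Y + 1) * Real.log Y * BS P M Q (3 * 2 ^ c) (δ * W) +
        2 * δ * S2 * BS P M Q (2 * (3 * 2 ^ c)) W := by
  have h1 : ∀ T ∈ (univ : Finset (Finset P)).filter (fun T => TT T ≤ Q), (2 : ℝ) ^ (c * T.card) *
      ((4 * M (δ * (W * TT T)) * (((Y : ℝ) + 1) / ((W * TT T : ℕ) : ℝ) + 1) * Real.log Y +
        δ / Nat.totient (δ * (W * TT T)) * (S2 * (2 * M (W * TT T)))) *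
          ∏ t ∈ T, (3 * ((t : ℕ) : ℝ))) ≤
      8 * (Y + 1) * Real.log Y * ((3 * 2 ^ c) ^ T.card * M (δ * W * TT T)) +
        2 * δ * S2 * ((2 * (3 * 2 ^ c)) ^ T.card * M (W * TT T)) := by
    intro T hT
    have hTT := TT_pos' hP T
    have hTT1 : (1 : ℝ) ≤ TT T := by exact_mod_cast hTT
    have hW1 : (1 : ℝ) ≤ W := by exact_mod_cast hW0
    have hlog := Real.log_natCast_nonneg Y
    have hq : W * TT T ≤ Y := (Nat.mul_le_mul_left W (mem_filter.1 hT).2).trans hWQ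
    have hq' : ((W * TT T : ℕ) : ℝ) ≤ Y := by exact_mod_cast hq
    have hq00 : 0 < W * TT T := Nat.mul_pos hW0 hTT
    have hq0 : (0 : ℝ) < ((W * TT T : ℕ) : ℝ) := by exact_mod_cast hq00
    have hφ : (0 : ℝ) < Nat.totient (δ * (W * TT T)) := by
      have : 0 < Nat.totient (δ * (W * TT T)) :=
        Nat.totient_pos.2 (Nat.mul_pos (by omega) hq00)
      exact_mod_cast this
    have hφle : (Nat.totient (W * TT T) : ℝ) ≤ Nat.totient (δ * (W * TT T)) := by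
      have h5 : Nat.totient (W * TT T) ∣ Nat.totient (δ * (W * TT T)) :=
        Nat.totient_dvd_of_dvd (Dvd.intro_left _ rfl)
      have h6 := Nat.le_of_dvd (Nat.totient_pos.2 (Nat.mul_pos (by omega) hq00)) h5
      exact_mod_cast h6
    have h2 : (TT T : ℝ) * (((Y : ℝ) + 1) / ((W * TT T : ℕ) : ℝ) + 1) ≤ 2 * (Y + 1) := by
      have h3 : ((Y : ℝ) + 1) / ((W * TT T : ℕ) : ℝ) + 1 ≤ 2 * (Y + 1) / ((W * TT T : ℕ) : ℝ) := by
        rw [le_div_iff₀ hq0, add_mul, div_mul_cancel₀ _ hq0.ne', one_mul]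
        linarith
      calc (TT T : ℝ) * (((Y : ℝ) + 1) / ((W * TT T : ℕ) : ℝ) + 1) ≤
            TT T * (2 * (Y + 1) / ((W * TT T : ℕ) : ℝ)) :=
            mul_le_mul_of_nonneg_left h3 (by positivity)
        _ = 2 * (Y + 1) / W := by
            push_cast
            field_simp
        _ ≤ 2 * (Y + 1) := div_le_self (by positivity) hW1
    have h4 : (TT T : ℝ) * (δ / Nat.totient (δ * (W * TT T))) ≤ δ * 2 ^ T.card := by
      have h5 := tot_ge hP hP2 W hW0 hW T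
      rw [mul_div_assoc', div_le_iff₀ hφ]
      calc (TT T : ℝ) * δ ≤ (2 ^ T.card * Nat.totient (W * TT T)) * δ :=
            mul_le_mul_of_nonneg_right h5 (by positivity)
        _ ≤ (2 ^ T.card * Nat.totient (δ * (W * TT T))) * δ := by gcongr
        _ = _ := by ring
    have hassoc : δ * (W * TT T) = δ * W * TT T := by ring
    rw [← hassoc]
    have hM1 := hM0 (δ * (W * TT T))
    have hM2 := hM0 (W * TT T)
    calc _ = ((2 : ℝ) ^ (c * T.card) * ∏ t ∈ T, (3 * ((t : ℕ) : ℝ))) *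
          (4 * M (δ * (W * TT T)) * (((Y : ℝ) + 1) / ((W * TT T : ℕ) : ℝ) + 1) * Real.log Y +
        δ / Nat.totient (δ * (W * TT T)) * (S2 * (2 * M (W * TT T)))) := by ring
      _ = (3 * 2 ^ c) ^ T.card * (((TT T : ℝ) * (((Y : ℝ) + 1) / ((W * TT T : ℕ) : ℝ) + 1)) *
            (4 * M (δ * (W * TT T)) * Real.log Y) +
            ((TT T : ℝ) * (δ / Nat.totient (δ * (W * TT T)))) * (S2 * (2 * M (W * TT T)))) := by
          rw [rew hP]; ring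
      _ ≤ (3 * 2 ^ c) ^ T.card * ((2 * (Y + 1)) * (4 * M (δ * (W * TT T)) * Real.log Y) +
            (δ * 2 ^ T.card) * (S2 * (2 * M (W * TT T)))) := by
          apply mul_le_mul_of_nonneg_left _ (by positivity)
          apply add_le_add
          · exact mul_le_mul_of_nonneg_right h2 (by positivity)
          · exact mul_le_mul_of_nonneg_right h4 (by positivity)
      _ = _ := by rw [mul_pow 2 (3 * 2 ^ c : ℝ)]; ring
  refine (sum_le_sum h1).trans ?_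
  rw [sum_add_distrib, ← mul_sum, ← mul_sum]
  unfold BS
  exact le_rfl


end err

theorem bvz (U c : ℕ) : ∃ X0 : ℕ, ∀ Y : ℕ, X0 ≤ Y → ∃ M : ℕ → ℝ, (∀ q, 0 ≤ M q) ∧
    (∀ R : ℕ, R ≤ Y.sqrt → BVz R Y M) ∧
    ∀ (P : Finset ℕ), (∀ p ∈ P, p.Prime) → (∀ p ∈ P, 3 ≤ p) → (∀ p ∈ P, (c : ℝ) ≤ p) →
      ∑ t : P, 1 / (((t : ℕ) : ℝ) - 1) ≤ Real.log (Real.log Y) + 1 → ∀ Q : ℕ, Q ^ 8 ≤ Y →
      ∀ m0 : ℕ, 1 ≤ m0 → m0 * Q ≤ Y.sqrt.sqrt → ∀ c' : ℝ, 0 ≤ c' → c' ≤ c →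
      BS P M Q c' m0 ≤ Y / (Real.log Y) ^ U := by
  obtain ⟨X1, hX1⟩ := bv (U + 1) c
  obtain ⟨X2, hX2⟩ := eventually_atTop.1 ((evt_log_pow (1 / 4) (by norm_num) 1 (U + 1)).and
    ((evt_log_ge 2).and (eventually_ge_atTop 3)))
  refine ⟨max X1 X2, fun Y hY => ?_⟩
  obtain ⟨M, hM0, hM1, hM2⟩ := hX1 Y ((le_max_left _ _).trans hY)
  obtain ⟨g1, g2, g3⟩ := hX2 Y ((le_max_right _ _).trans hY)
  refine ⟨fun q => M q + 1, fun q => by have := hM0 q; linarith, fun R hR => bvz_of R Y M (hM1 R hR), ?_⟩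
  intro P hP hP3 hPc hS Q hQ m0 hm0 hmQ c' hc0 hcc
  have h1 := BS_add hP M 1 zero_le_one Q c' hc0 (fun p hp => hcc.trans (hPc p hp)) m0
  have h2 := hM2 P hP hP3 hPc hS Q hQ m0 hm0 hmQ c' hc0 hcc
  refine h1.trans ?_
  have hY3 : (3 : ℝ) ≤ Y := by exact_mod_cast g3
  have hY0 : (0 : ℝ) < Y := by linarith
  obtain ⟨ℓ, hℓ⟩ : ∃ ℓ, ℓ = Real.log Y := ⟨_, rfl⟩
  rw [← hℓ] at g1 g2 h2 ⊢
  have hℓ0 : 0 < ℓ := by linarith
  obtain ⟨s, hs⟩ : ∃ s, s = (Y : ℝ) ^ (1 / 4 : ℝ) := ⟨_, rfl⟩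
  have hs0 : 0 < s := by rw [hs]; positivity
  have hs4 : (Y : ℝ) = s ^ 4 := by
    rw [hs, ← Real.rpow_natCast, ← Real.rpow_mul hY0.le]; norm_num
  rw [← hs] at g1
  have hs1 : 1 ≤ s := by
    have : 1 ≤ ℓ ^ (U + 1) := one_le_pow₀ (by linarith)
    linarith
  have hQs : (Q : ℝ) ^ 2 ≤ s := by
    have h3 : ((Q : ℝ) ^ 2) ^ 4 ≤ s ^ 4 := by
      rw [← hs4, ← pow_mul]
      exact_mod_cast hQ
    exact le_of_pow_le_pow_left₀ (by norm_num) hs0.le h3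
  have t3 : (Q : ℝ) ^ 2 ≤ Y / ℓ ^ (U + 1) := by
    rw [le_div_iff₀ (by positivity)]
    calc (Q : ℝ) ^ 2 * ℓ ^ (U + 1) ≤ s * s := mul_le_mul hQs (by linarith) (by positivity) hs0.le
      _ = s ^ 2 := by ring
      _ ≤ s ^ 4 := pow_le_pow_right₀ hs1 (by norm_num)
      _ = Y := hs4.symm
  have hYl : (Y : ℝ) / ℓ ^ U = ℓ * (Y / ℓ ^ (U + 1)) := by
    rw [pow_succ]
    field_simp
  rw [hYl]
  have h6 : 2 * (Y / ℓ ^ (U + 1)) ≤ ℓ * (Y / ℓ ^ (U + 1)) :=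
    mul_le_mul_of_nonneg_right g2 (by positivity)
  linarith

end Pool.Agent.N913.MG
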