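import Pool.Agent.N913.MG.L7
import Pool.Agent.N913.MT.B7

set_option autoImplicit false
set_option linter.unusedSectionVars false

/-! The six moments. -/

namespace Pool.Agent.N913.MG

open Finset
open Pool.Agent.R498.MT (lz)
open Pool.Agent.N913.MT (th th_nonneg th_le cmod TT loc loc_mem cop_TT TT_insert crtT tot_TT Cl expand
  Ip Ip_bd Ip_empty Yp Wb step1 swap comp BS TT_pos' tot_ge rew err0 err1 adm_of)

/-- the data -/
structure Su (J : Type) [Fintype J] [DecidableEq J] where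
  Φ : Fam
  P : Finset ℕ
  W : ℕ
  R : ℕ
  Q : ℕ
  Y : ℕ
  s0 : ℕ
  r0 : ℕ
  M : ℕ → ℝ
  y : (J → Finset P) → ℝ
  EB : ℝ
  m1 : ℕ
  hP : ∀ p ∈ P, p.Prime
  hP3 : ∀ p ∈ P, 3 ≤ p
  hPc : ∀ p ∈ P, (2 * (3 * 2 ^ (4 * Fintype.card J)) : ℝ) ≤ (p : ℝ)
  hW0 : 1 ≤ W
  hW : ∀ p ∈ P, ¬ p ∣ W
  hRW : ∀ p : ℕ, p.Prime → p ∣ W → p ≤ R
  hRP : ∀ p ∈ P, p ≤ R
  hR1 : 1 ≤ R
  hQ : R ^ 4 ≤ Q
  hWQ : W * Q ≤ Φ.S2
  hWY : W * Q ≤ Y
  hM : BVz R Y M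
  hM0 : ∀ q, 0 ≤ M q
  hy1 : ∀ f, |y f| ≤ 1
  hys : ∀ f, y f ≠ 0 → ∑ j, lz (fun t : P => Real.log ((t : ℕ) : ℝ)) (f j) < Real.log R
  hBS : ∀ m0 : ℕ, 1 ≤ m0 → m0 ≤ m1 → ∀ c : ℝ, 0 ≤ c → c ≤ 2 * (3 * 2 ^ (4 * Fintype.card J)) →
    BS P M Q c m0 ≤ EB
  hWm : W ≤ m1

namespace Su
variable {J : Type} [Fintype J] [DecidableEq J] (D : Su J)

/-- the weights on the primes -/
noncomputable def ν (t : D.P) : ℝ := 1 / (((t : ℕ) : ℝ) - 1)

/-- the domain -/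
def N : Finset (ℕ × ℕ) := CS D.Φ D.W D.s0 D.r0

/-- density of the domain -/
noncomputable def κ : ℝ := NN D.Φ / (D.W : ℝ) ^ 2

theorem κ_nonneg : 0 ≤ D.κ := by unfold κ; have := NN_nonneg D.Φ; positivity

theorem hAdm {B : Type} [Fintype B] [DecidableEq B] (hB : Fintype.card B ≤ 2)
    (F : B × Bool × J → Finset D.P) (hF : Yp D.y F ≠ 0) : TT (univ.biUnion F) ≤ D.Q := by
  refine (adm_of D.hP D.R D.hR1 D.y D.hys F hF).trans (le_trans ?_ D.hQ)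
  exact Nat.pow_le_pow_right D.hR1 (by omega)

theorem hcc {B : Type} [Fintype B] [DecidableEq B] (hB : Fintype.card B ≤ 2) :
    (3 * 2 ^ (Fintype.card (B × Bool × J)) : ℝ) ≤ 3 * 2 ^ (4 * Fintype.card J) := by
  apply mul_le_mul_of_nonneg_left _ (by norm_num)
  apply pow_le_pow_right₀ (by norm_num)
  rw [Fintype.card_prod, Fintype.card_prod, Fintype.card_bool]
  nlinarith

theorem E0 {B : Type} [Fintype B] [DecidableEq B] (hB : Fintype.card B ≤ 2) :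
    ∑ T ∈ univ.filter (fun T : Finset D.P => TT T ≤ D.Q),
      (2 : ℝ) ^ (Fintype.card (B × Bool × J) * T.card) *
        ((6 * D.Φ.S2 + 2) * ∏ t ∈ T, (3 * ((t : ℕ) : ℝ))) ≤ (6 * D.Φ.S2 + 2) * (D.Q : ℝ) ^ 3 := by
  apply err0 D.hP
  intro p hp
  have h1 := D.hPc p hp
  have h2 := hcc (J := J) hB
  have h3 : (0 : ℝ) ≤ 3 * 2 ^ (4 * Fintype.card J) := by positivity
  linarith

theorem E1 {B : Type} [Fintype B] [DecidableEq B] (hB : Fintype.card B ≤ 2) :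
    ∑ T ∈ univ.filter (fun T : Finset D.P => TT T ≤ D.Q),
      (2 : ℝ) ^ (Fintype.card (B × Bool × J) * T.card) *
        (((D.Φ.S2 / ((D.W * TT T : ℕ) : ℝ) + 1) * (2 * D.M (D.W * TT T)) +
        (4 * D.Φ.S2 + 1) / Nat.totient (D.W * TT T)) * ∏ t ∈ T, (3 * ((t : ℕ) : ℝ))) ≤
      4 * D.Φ.S2 * D.EB + (4 * D.Φ.S2 + 1) * (D.Q : ℝ) ^ 2 := by
  have h2 := hcc (J := J) hB
  have h3 : (0 : ℝ) ≤ 3 * 2 ^ (4 * Fintype.card J) := by positivity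
  refine (err1 D.hP D.hP3 _ (fun p hp => ?_) D.W D.hW0 D.hW D.Q D.Φ.S2 D.hWQ D.M D.hM0).trans ?_
  · have h1 := D.hPc p hp
    linarith
  · apply add_le_add _ le_rfl
    apply mul_le_mul_of_nonneg_left _ (by positivity)
    exact D.hBS D.W D.hW0 D.hWm _ (by positivity) (by linarith)

theorem E2 {B : Type} [Fintype B] [DecidableEq B] (hB : Fintype.card B ≤ 2) (δ : ℕ) (hδ : 1 ≤ δ)
    (hδm : δ * D.W ≤ D.m1) :
    ∑ T ∈ univ.filter (fun T : Finset D.P => TT T ≤ D.Q),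
      (2 : ℝ) ^ (Fintype.card (B × Bool × J) * T.card) *
        ((4 * D.M (δ * (D.W * TT T)) * (((D.Y : ℝ) + 1) / ((D.W * TT T : ℕ) : ℝ) + 1) *
          Real.log D.Y +
        δ / Nat.totient (δ * (D.W * TT T)) * (D.Φ.S2 * (2 * D.M (D.W * TT T)))) *
          ∏ t ∈ T, (3 * ((t : ℕ) : ℝ))) ≤
      8 * (D.Y + 1) * Real.log D.Y * D.EB + 2 * δ * D.Φ.S2 * D.EB := by
  have h2 := hcc (J := J) hB
  have h3 : (0 : ℝ) ≤ 3 * 2 ^ (4 * Fintype.card J) := by positivity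
  refine (err2 D.hP D.hP3 _ D.W D.hW0 D.hW D.Q D.Φ.S2 D.Y δ hδ D.hWY D.M D.hM0).trans ?_
  have hlog := Real.log_natCast_nonneg D.Y
  apply add_le_add
  · apply mul_le_mul_of_nonneg_left _ (by positivity)
    exact D.hBS _ (Nat.mul_pos (by omega) D.hW0) hδm _ (by positivity) (by linarith)
  · apply mul_le_mul_of_nonneg_left _ (by positivity)
    exact D.hBS D.W D.hW0 D.hWm _ (by positivity) (by linarith)

/-- moments without primes -/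
theorem mom0 {B : Type} [Fintype B] [DecidableEq B] (hB : Fintype.card B ≤ 2) (h : J → ℕ) (ib : B → ℕ)
    (good : D.P → Prop) [DecidablePred good]
    (hpos : ∀ t : D.P, good t → ∀ q q' : B × J, q ≠ q' →
      ¬ ((t : ℕ) : ℤ) ∣ ((ib q.1 + h q.2 : ℕ) : ℤ) - (ib q'.1 + h q'.2 : ℕ)) :
    |∑ n ∈ D.N, ∏ b, (Lam D.Φ D.P h D.y (ib b) n) ^ 2 - D.κ * (Wb D.ν none D.y) ^ (Fintype.card B)| ≤
      D.κ * ((Wb D.ν (none : Option J) (fun _ => 1)) ^ (Fintype.card B) *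
        (Real.exp (∑ t : D.P, DD B J (good t) (t : ℕ)) - 1)) + (6 * D.Φ.S2 + 2) * (D.Q : ℝ) ^ 3 := by
  have h1 := moment (B := B) (J := J) D.hP D.hP3 D.Φ h D.y D.hy1 ib none D.N (fun _ => 1) (fun t => β0 (t : ℕ))
    (fun t => sum_β0 (t : ℕ) (D.hP t t.2)) (fun t x => (β_bd D.Φ 0 0 0 (t : ℕ) (D.hP3 t t.2) x).1) good
    hpos (fun t _ x => by unfold β0 pf; simp) D.κ D.κ_nonneg (fun _ => 6 * D.Φ.S2 + 2)
    (fun _ => by positivity) (fun T => TT T ≤ D.Q) (D.hAdm hB)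
    (fun T _ c hc => hc0 D.Φ D.hP D.W D.hW D.hW0 D.s0 D.r0 T c hc)
  simp only [one_mul] at h1
  refine h1.trans ?_
  exact add_le_add le_rfl (D.E0 hB)

theorem crude0 (h : J → ℕ) (ib : Fin 2 → ℕ) :
    ∑ n ∈ D.N, ∏ b, (Lam D.Φ D.P h D.y (ib b) n) ^ 2 ≤
      D.κ * Real.exp (∑ t : D.P, 2 ^ (Fintype.card (Fin 2 × Bool × J)) * (12 / ((t : ℕ) : ℝ))) +
        (6 * D.Φ.S2 + 2) * (D.Q : ℝ) ^ 3 := by
  have h1 := moment_crude (B := Fin 2) (J := J) D.hP D.hP3 D.Φ h D.y D.hy1 ib D.N (fun _ => 1)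
    (fun t => β0 (t : ℕ))
    (fun t => sum_β0 (t : ℕ) (D.hP t t.2)) (fun t x => (β_bd D.Φ 0 0 0 (t : ℕ) (D.hP3 t t.2) x).1)
    D.κ D.κ_nonneg (fun _ => 6 * D.Φ.S2 + 2)
    (fun _ => by positivity) (fun T => TT T ≤ D.Q) (D.hAdm (by simp))
    (fun T _ c hc => hc0 D.Φ D.hP D.W D.hW D.hW0 D.s0 D.r0 T c hc)
  simp only [one_mul] at h1
  refine h1.trans ?_
  exact add_le_add le_rfl (D.E0 (by simp))

/-- density of the domain with a prime -/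
noncomputable def κ1 : ℝ := NN D.Φ / (D.W * Nat.totient D.W)

theorem κ1_nonneg : 0 ≤ D.κ1 := by unfold κ1; have := NN_nonneg D.Φ; positivity

theorem mom1 (h : J → ℕ) (i : ℕ) (l : J)
    (good : D.P → Prop) [DecidablePred good]
    (hpos : ∀ t : D.P, good t → ∀ q q' : Fin 1 × J, q ≠ q' →
      ¬ ((t : ℕ) : ℤ) ∣ ((i + h q.2 : ℕ) : ℤ) - (i + h q'.2 : ℕ))
    (hY : (D.Φ.S2 : ℤ) * (i + h l : ℕ) + |D.Φ.c (i + h l)| + 2 * D.Φ.S2 ≤ D.Y)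
    (hcl : (vv D.Φ (i + h l) (D.s0, D.r0)).natAbs.Coprime D.W) :
    |∑ n ∈ D.N, th D.R (vv D.Φ (i + h l) n).natAbs * (Lam D.Φ D.P h D.y i n) ^ 2 -
      D.κ1 * (Wb D.ν (some l) D.y)| ≤
      D.κ1 * ((Wb D.ν (some l) (fun _ => 1)) *
        (Real.exp (∑ t : D.P, DD (Fin 1) J (good t) (t : ℕ)) - 1)) +
        (4 * D.Φ.S2 * D.EB + (4 * D.Φ.S2 + 1) * (D.Q : ℝ) ^ 2) := by
  have h1 := moment (B := Fin 1) (J := J) D.hP D.hP3 D.Φ h D.y D.hy1 (fun _ => i) (some l) D.N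
    (fun n => th D.R (vv D.Φ (i + h l) n).natAbs) (fun t => β1 D.Φ (i + h l) (t : ℕ))
    (fun t => sum_β1 D.Φ (i + h l) (t : ℕ) (D.hP t t.2))
    (fun t x => (β_bd D.Φ (i + h l) 0 0 (t : ℕ) (D.hP3 t t.2) x).2.1) good
    hpos (fun t _ x => by
      have ht3 : (3 : ℝ) ≤ (t : ℕ) := by exact_mod_cast D.hP3 t t.2
      unfold β1 pf
      rw [Fintype.prod_prod_type]
      simp only [univ_unique, prod_singleton, Option.some.injEq]
      rw [prod_ite_eq univ l (fun j => (if ((t : ℕ) : ℤ) ∣ vv D.Φ (i + h j) x then (0 : ℝ) else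
        1 + 1 / (((t : ℕ) : ℝ) - 1)))]
      simp only [mem_univ, if_true]
      split_ifs
      · rw [zero_div]
      · have h5 : ((t : ℕ) : ℝ) - 1 ≠ 0 := by linarith
        have h6 : ((t : ℕ) : ℝ) ≠ 0 := by linarith
        field_simp
        ring) D.κ1 D.κ1_nonneg
    (fun T => (D.Φ.S2 / ((D.W * TT T : ℕ) : ℝ) + 1) * (2 * D.M (D.W * TT T)) +
        (4 * D.Φ.S2 + 1) / Nat.totient (D.W * TT T))
    (fun T => by have := D.hM0 (D.W * TT T); positivity) (fun T => TT T ≤ D.Q) (D.hAdm (by simp))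
    (fun T _ c hc => hc1 D.Φ D.hP D.W D.hW D.hW0 D.R D.Y D.M D.hM D.hM0 D.hRW D.hRP D.s0 D.r0
      (i + h l) hY hcl T c hc)
  simp only [univ_unique, prod_singleton, Fintype.card_unique, pow_one] at h1
  refine h1.trans ?_
  exact add_le_add le_rfl (D.E1 (by simp))

theorem crude1 (h : J → ℕ) (i : ℕ) (l : J)
    (hY : (D.Φ.S2 : ℤ) * (i + h l : ℕ) + |D.Φ.c (i + h l)| + 2 * D.Φ.S2 ≤ D.Y)
    (hcl : (vv D.Φ (i + h l) (D.s0, D.r0)).natAbs.Coprime D.W) :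
    ∑ n ∈ D.N, th D.R (vv D.Φ (i + h l) n).natAbs *
      ∏ _b : Fin 2, (Lam D.Φ D.P h D.y i n) ^ 2 ≤
      D.κ1 * Real.exp (∑ t : D.P, 2 ^ (Fintype.card (Fin 2 × Bool × J)) * (12 / ((t : ℕ) : ℝ))) +
        (4 * D.Φ.S2 * D.EB + (4 * D.Φ.S2 + 1) * (D.Q : ℝ) ^ 2) := by
  have h1 := moment_crude (B := Fin 2) (J := J) D.hP D.hP3 D.Φ h D.y D.hy1 (fun _ => i) D.N
    (fun n => th D.R (vv D.Φ (i + h l) n).natAbs) (fun t => β1 D.Φ (i + h l) (t : ℕ))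
    (fun t => sum_β1 D.Φ (i + h l) (t : ℕ) (D.hP t t.2))
    (fun t x => (β_bd D.Φ (i + h l) 0 0 (t : ℕ) (D.hP3 t t.2) x).2.1) D.κ1 D.κ1_nonneg
    (fun T => (D.Φ.S2 / ((D.W * TT T : ℕ) : ℝ) + 1) * (2 * D.M (D.W * TT T)) +
        (4 * D.Φ.S2 + 1) / Nat.totient (D.W * TT T))
    (fun T => by have := D.hM0 (D.W * TT T); positivity) (fun T => TT T ≤ D.Q) (D.hAdm (by simp))
    (fun T _ c hc => hc1 D.Φ D.hP D.W D.hW D.hW0 D.R D.Y D.M D.hM D.hM0 D.hRW D.hRP D.s0 D.r0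
      (i + h l) hY hcl T c hc)
  refine h1.trans ?_
  exact add_le_add le_rfl (D.E1 (by simp))

/-- two primes -/
theorem mom2 (h : J → ℕ) (i δ : ℕ) (l : J) (hδ : 1 ≤ δ) (hδR : δ ≤ D.R) (hδS : δ ≤ D.Φ.S2) (hδm : δ * D.W ≤ D.m1)
    (good : D.P → Prop) [DecidablePred good]
    (hpos : ∀ t : D.P, good t → ∀ q q' : Fin 2 × J, q ≠ q' →
      ¬ ((t : ℕ) : ℤ) ∣ (((if q.1 = 0 then i else i + δ) + h q.2 : ℕ) : ℤ) -
        ((if q'.1 = 0 then i else i + δ) + h q'.2 : ℕ)) (hτ : 1 ≤ i + h l)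
    (hY0 : (D.Φ.S2 : ℤ) * (i + h l : ℕ) + |D.Φ.c (i + h l)| + 2 * D.Φ.S2 ≤ D.Y)
    (hY : (D.Φ.S2 : ℤ) * (i + h l + δ : ℕ) + |D.Φ.c (i + h l + δ)| + 2 * D.Φ.S2 ≤ D.Y)
    (hcl : (vv D.Φ (i + h l) (D.s0, D.r0)).natAbs.Coprime D.W)
    (hcl' : (vv D.Φ (i + h l + δ) (D.s0, D.r0)).natAbs.Coprime D.W) :
    |∑ n ∈ D.N, (th D.R (vv D.Φ (i + h l) n).natAbs *
        th D.R (vv D.Φ (i + h l + δ) n).natAbs) *
      ((Lam D.Φ D.P h D.y i n) ^ 2 * (Lam D.Φ D.P h D.y (i + δ) n) ^ 2) -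
      δ * NN D.Φ / (Nat.totient (δ * D.W) * Nat.totient D.W) *
        (Wb D.ν (some l) D.y) ^ 2| ≤
      δ * NN D.Φ / (Nat.totient (δ * D.W) * Nat.totient D.W) *
      ((Wb D.ν (some l) (fun _ => 1)) ^ 2 *
        (Real.exp (∑ t : D.P, DD (Fin 2) J (good t) (t : ℕ)) - 1)) +
        (8 * (D.Y + 1) * Real.log D.Y * D.EB + 2 * δ * D.Φ.S2 * D.EB) := by
  have h1 := moment (B := Fin 2) (J := J) D.hP D.hP3 D.Φ h D.y D.hy1 (fun b => if b = 0 then i else i + δ)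
    (some l) D.N
    (fun n => th D.R (vv D.Φ (i + h l) n).natAbs *
        th D.R (vv D.Φ (i + h l + δ) n).natAbs)
    (fun t => β2 D.Φ (i + h l) (i + h l + δ) δ (t : ℕ))
    (fun t => sum_β2 D.Φ (i + h l) δ (t : ℕ) (D.hP t t.2))
    (fun t x => (β_bd D.Φ (i + h l) (i + h l + δ) δ (t : ℕ) (D.hP3 t t.2) x).2.2) good
    hpos (fun t ht x => by
      have ht3 : (3 : ℝ) ≤ (t : ℕ) := by exact_mod_cast D.hP3 t t.2
      have hnd : ¬ (t : ℕ) ∣ δ := by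
        intro hd
        have h2 := hpos t ht (1, l) (0, l) (by simp)
        apply h2
        simp only [one_ne_zero, if_false, if_true]
        push_cast
        have : (i : ℤ) + δ + h l - (i + h l) = δ := by ring
        rw [this]
        exact_mod_cast hd
      unfold β2 pf
      rw [Fintype.prod_prod_type]
      simp only [Option.some.injEq]
      rw [Fin.prod_univ_two]
      simp only [if_true, one_ne_zero, if_false]
      rw [prod_ite_eq univ l (fun j => (if ((t : ℕ) : ℤ) ∣ vv D.Φ (i + h j) x then (0 : ℝ) else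
        1 + 1 / (((t : ℕ) : ℝ) - 1))), prod_ite_eq univ l (fun j =>
        (if ((t : ℕ) : ℤ) ∣ vv D.Φ (i + δ + h j) x then (0 : ℝ) else
        1 + 1 / (((t : ℕ) : ℝ) - 1)))]
      simp only [mem_univ, if_true, if_neg hnd]
      have hre : i + δ + h l = i + h l + δ := by ring
      rw [hre]
      have h5 : ((t : ℕ) : ℝ) - 1 ≠ 0 := by linarith
      have h6 : ((t : ℕ) : ℝ) ≠ 0 := by linarith
      by_cases g1 : ((t : ℕ) : ℤ) ∣ vv D.Φ (i + h l) x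
      · rw [if_pos (Or.inl g1), if_pos g1]; simp
      · by_cases g2 : ((t : ℕ) : ℤ) ∣ vv D.Φ (i + h l + δ) x
        · rw [if_pos (Or.inr g2), if_pos g2]; simp
        · rw [if_neg (not_or.2 ⟨g1, g2⟩), if_neg g1, if_neg g2]
          field_simp
          ring)
    (δ * NN D.Φ / (Nat.totient (δ * D.W) * Nat.totient D.W)) (by have := NN_nonneg D.Φ; positivity)
    (fun T => 4 * D.M (δ * (D.W * TT T)) * (((D.Y : ℝ) + 1) / ((D.W * TT T : ℕ) : ℝ) + 1) *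
          Real.log D.Y +
        δ / Nat.totient (δ * (D.W * TT T)) * (D.Φ.S2 * (2 * D.M (D.W * TT T))))
    (fun T => by
      have := D.hM0 (D.W * TT T)
      have := D.hM0 (δ * (D.W * TT T))
      have := Real.log_natCast_nonneg D.Y
      positivity) (fun T => TT T ≤ D.Q) (D.hAdm (by simp))
    (fun T _ c hc => hc2 D.Φ D.hP D.W D.hW D.hW0 D.R D.Y D.M D.hM D.hM0 D.hRW D.hRP D.s0 D.r0
      (i + h l) δ hτ hδ hδR hδS hY0 hY hcl hcl' T c hc)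
  have e1 : ∀ n, ∏ b : Fin 2, (Lam D.Φ D.P h D.y (if b = 0 then i else i + δ) n) ^ 2 =
      (Lam D.Φ D.P h D.y i n) ^ 2 * (Lam D.Φ D.P h D.y (i + δ) n) ^ 2 := by
    intro n
    rw [Fin.prod_univ_two]
    simp
  simp only [e1, Fintype.card_fin] at h1
  refine h1.trans ?_
  exact add_le_add le_rfl (D.E2 (by simp) δ hδ hδm)

end Su


end Pool.Agent.N913.MG
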