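import Pool.Agent.N913.MG.L14

set_option autoImplicit false

/-! Primes in progressions. -/

namespace Pool.Agent.N913.MG

open Finset Filter
open Pool.Agent.N913.MT (evt_log_ge)

theorem log_evt (B : ℕ) : ∃ X0 : ℕ, ∀ X S : ℕ, X0 ≤ X → X ≤ S → S ≤ 3 * X →
    2 ≤ Real.log X ∧ Real.log X ≤ Real.log S ∧ Real.log S ^ B ≤ Real.log X ^ (B + 1) := by
  obtain ⟨X0, hX0⟩ := eventually_atTop.1 ((evt_log_ge (2 ^ B + 2)).and (eventually_ge_atTop 3))
  refine ⟨X0, fun X S hX h1 h2 => ?_⟩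
  obtain ⟨g1, g2⟩ := hX0 X hX
  have h2B : (1 : ℝ) ≤ 2 ^ B := one_le_pow₀ (by norm_num)
  have hX3 : (3 : ℝ) ≤ X := by exact_mod_cast g2
  have h1' : (X : ℝ) ≤ S := by exact_mod_cast h1
  have h2' : (S : ℝ) ≤ 3 * X := by exact_mod_cast h2
  have hl1 : Real.log X ≤ Real.log S := Real.log_le_log (by linarith) h1'
  have hl2 : Real.log S ≤ 2 * Real.log X := by
    have h3 : (S : ℝ) ≤ X ^ 2 := by nlinarith
    have h4 := Real.log_le_log (show (0 : ℝ) < S by linarith) h3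
    rw [Real.log_pow] at h4
    push_cast at h4
    exact h4
  refine ⟨by linarith, hl1, ?_⟩
  have hl0 : 0 ≤ Real.log X := by linarith
  calc Real.log S ^ B ≤ (2 * Real.log X) ^ B := pow_le_pow_left₀ (by linarith) hl2 B
    _ = 2 ^ B * Real.log X ^ B := by rw [mul_pow]
    _ ≤ Real.log X * Real.log X ^ B := mul_le_mul_of_nonneg_right (by linarith) (by positivity)
    _ = _ := by rw [pow_succ]; ring

/-- the family `q t - r`, `r < q` -/
def FQ (Q : ℕ) : Fam where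
  c := fun _ => 0
  g := fun s => s
  S2 := Q + 1
  hc := fun t t' => by simp
  hS := by omega
  hg1 := fun s => by omega
  hg2 := fun s => le_rfl
  hg3 := fun s hs => by omega

theorem NN_FQ (Q : ℕ) : NN (FQ Q) = Q * (Q + 1) / 2 := by
  have h := Finset.sum_range_id_mul_two (Q + 1)
  rw [Nat.add_sub_cancel] at h
  have h2 : ((((∑ s ∈ range (Q + 1), s) * 2 : ℕ)) : ℝ) = (((Q + 1) * Q : ℕ) : ℝ) := by rw [h]
  push_cast at h2
  have h3 : NN (FQ Q) = ∑ s ∈ range (Q + 1), (s : ℝ) := rfl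
  rw [h3]
  linarith

theorem card_lin (p q r : ℕ) (hp : p.Prime) (h : ¬ (p ∣ q ∧ p ∣ r)) :
    ((range p).filter (fun i : ℕ => (p : ℤ) ∣ (q : ℤ) * (i : ℤ) + 0 - r)).card ≤ 1 := by
  have hpp : Prime (p : ℤ) := Nat.prime_iff_prime_int.1 hp
  rw [card_le_one]
  intro a ha b hb
  rw [mem_filter, mem_range] at ha hb
  have h1 := dvd_sub ha.2 hb.2
  have e : (q : ℤ) * a + 0 - r - ((q : ℤ) * b + 0 - r) = q * ((a : ℤ) - b) := by ring
  rw [e] at h1
  rcases hpp.dvd_or_dvd h1 with h2 | h2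
  · exfalso
    apply h
    have h3 : p ∣ q := by exact_mod_cast h2
    refine ⟨h3, ?_⟩
    have h4 := dvd_sub (Dvd.dvd.mul_right h2 (a : ℤ)) ha.2
    have e2 : (q : ℤ) * a - ((q : ℤ) * a + 0 - r) = r := by ring
    rw [e2] at h4
    exact_mod_cast h4
  · exact (Nat.ModEq.eq_of_lt_of_lt (Nat.modEq_iff_dvd.2 h2) hb.1 ha.1).symm

theorem progressions (m : ℕ) : ∃ k B : ℕ, ∀ S : Finset ℕ, k ≤ S.card → ∀ (C : ℕ) (ε : ℝ), 0 < ε →
    ∃ Q₀ : ℕ, ∀ Q : ℕ, Q₀ ≤ Q → ∀ 𝒥 : Finset ℕ, (∀ J ∈ 𝒥, (J : ℝ) ≤ Real.log Q ^ C) →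
    ∃ Bad : Finset (ℕ × ℕ), (Bad.card : ℝ) ≤ ε * Q ^ 2 ∧ ∀ q b : ℕ, q ≤ Q → 1 ≤ b → b ≤ q →
      q.Coprime b → (q, b) ∉ Bad →
      ∃ 𝒢 ⊆ 𝒥, (1 - ε) * 𝒥.card ≤ 𝒢.card ∧ ∀ J ∈ 𝒢, ∃ n : ℕ, J < n ∧
        (n : ℝ) ≤ J + Real.log Q ^ B ∧ m ≤ (S.filter (fun h => (b + q * (n + h)).Prime)).card := by
  classical
  obtain ⟨k, B, hmt⟩ := mt m 1
  refine ⟨k, B + 1, fun S hS C ε hε => ?_⟩
  obtain ⟨S0, hS0⟩ := hmt S hS 0 0 (C + 1) (ε ^ 2) (by positivity)
  obtain ⟨X0, hX0⟩ := log_evt B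
  refine ⟨max S0 (max X0 3), fun Q hQ 𝒥 h𝒥 => ?_⟩
  have hQS : S0 ≤ Q := (le_max_left _ _).trans hQ
  have hQX : X0 ≤ Q := ((le_max_left _ _).trans (le_max_right _ _)).trans hQ
  have hQ3 : 3 ≤ Q := ((le_max_right _ _).trans (le_max_right _ _)).trans hQ
  obtain ⟨l2, lS, lB⟩ := hX0 Q (Q + 1) hQX (by omega) (by omega)
  have hQr : (3 : ℝ) ≤ Q := by exact_mod_cast hQ3
  have hNN := NN_FQ Q
  have hN0 : NN (FQ Q) ≤ Q ^ 2 := by rw [hNN]; nlinarith
  obtain ⟨Ω, hΩ⟩ : ∃ Ω : Finset (ℕ × ℕ), Ω = (range (Q + 1) ×ˢ range (Q + 1)).filter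
    (fun x => 1 ≤ x.2 ∧ x.2 ≤ x.1 ∧ x.1.Coprime x.2) := ⟨_, rfl⟩
  have hd := double Ω 𝒥 (fun x J => ∃ n : ℕ, J < n ∧ (n : ℝ) ≤ J + Real.log Q ^ (B + 1) ∧
    m ≤ (S.filter (fun h => (x.2 + x.1 * (n + h)).Prime)).card) ε (Q ^ 2) hε (by positivity) (by
    intro J hJ
    obtain ⟨Bad, hb1, hb2⟩ := hS0 (FQ Q) (by show S0 ≤ Q + 1; omega)
      (fun t => by
        show |(0 : ℤ)| ≤ _
        rw [abs_zero]
        positivity)
      (by
        rw [hNN]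
        show ((Q + 1 : ℕ) : ℝ) ^ 2 ≤ _
        push_cast
        nlinarith) (J + 1) (by
        have h1 := h𝒥 J hJ
        have h2 : Real.log Q ^ C ≤ Real.log ((Q + 1 : ℕ) : ℝ) ^ C :=
          pow_le_pow_left₀ (by linarith) lS C
        have h3 : 1 ≤ Real.log ((Q + 1 : ℕ) : ℝ) ^ C := one_le_pow₀ (by linarith)
        show ((J + 1 : ℕ) : ℝ) ≤ Real.log ((Q + 1 : ℕ) : ℝ) ^ (C + 1)
        rw [pow_succ]
        push_cast at h2 h3 lS ⊢
        nlinarith)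
    refine ⟨Bad.image (fun x => (x.1, x.1 - x.2)), ?_, ?_⟩
    · calc (((Bad.image (fun x => (x.1, x.1 - x.2))).card : ℕ) : ℝ) ≤ Bad.card := by
            exact_mod_cast card_image_le
        _ ≤ ε ^ 2 * NN (FQ Q) := hb1
        _ ≤ _ := mul_le_mul_of_nonneg_left hN0 (by positivity)
    · rintro ⟨q, b⟩ hx hxB
      rw [hΩ, mem_filter, mem_product, mem_range, mem_range] at hx
      obtain ⟨⟨x1, x2⟩, x3, x4, x5⟩ := hx
      simp only at x1 x2 x3 x4 x5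
      have hnB : (q, q - b) ∉ Bad := by
        intro h
        apply hxB
        rw [mem_image]
        refine ⟨(q, q - b), h, ?_⟩
        simp only [Prod.mk.injEq, true_and]
        omega
      obtain ⟨i, hi1, hi2, hi3⟩ := hb2 (q, q - b) x1 (by show q - b < q; omega) (by
        intro p hp
        have hnd : ¬ (p ∣ q ∧ p ∣ (q - b)) := by
          rintro ⟨h1, h2⟩
          have h3 : p ∣ b := by
            have := Nat.dvd_sub h1 h2
            rwa [Nat.sub_sub_self x4] at this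
          exact Nat.not_coprime_of_dvd_of_dvd hp.one_lt h1 h3 x5
        refine ⟨?_, card_lin p q (q - b) hp hnd⟩
        by_cases h1 : p ∣ (q - b)
        · refine ⟨1, fun h2 => ?_⟩
          apply hnd
          refine ⟨?_, h1⟩
          have e : vv (FQ Q) 1 (q, q - b) = (q : ℤ) * (1 : ℕ) + 0 - ((q - b : ℕ) : ℤ) := rfl
          rw [e] at h2
          have h3 : (p : ℤ) ∣ ((q - b : ℕ) : ℤ) := by exact_mod_cast h1
          have h4 := dvd_add h2 h3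
          have e2 : (q : ℤ) * (1 : ℕ) + 0 - ((q - b : ℕ) : ℤ) + ((q - b : ℕ) : ℤ) = q := by
            push_cast; ring
          rw [e2] at h4
          exact_mod_cast h4
        · refine ⟨0, fun h2 => h1 ?_⟩
          have e : vv (FQ Q) 0 (q, q - b) = (q : ℤ) * (0 : ℕ) + 0 - ((q - b : ℕ) : ℤ) := rfl
          rw [e] at h2
          have e2 : (q : ℤ) * (0 : ℕ) + 0 - ((q - b : ℕ) : ℤ) = - ((q - b : ℕ) : ℤ) := by
            push_cast; ring
          rw [e2, dvd_neg] at h2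
          exact_mod_cast h2) hnB
      refine ⟨i - 1, by omega, ?_, ?_⟩
      · have h1 : ((i - 1 : ℕ) : ℝ) = i - 1 := by
          rw [Nat.cast_sub (by omega)]; push_cast; ring
        rw [h1]
        have h2 : (i : ℝ) ≤ ((J + 1 : ℕ) : ℝ) + Real.log ((Q + 1 : ℕ) : ℝ) ^ B := hi2
        push_cast at h2 lB ⊢
        linarith
      · refine hi3.trans (le_of_eq ?_)
        congr 1
        apply filter_congr
        intro h _
        have e : vv (FQ Q) (i + h) (q, q - b) = ((b + q * (i - 1 + h) : ℕ) : ℤ) := by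
          have e1 : vv (FQ Q) (i + h) (q, q - b) = (q : ℤ) * (i + h : ℕ) + 0 - ((q - b : ℕ) : ℤ) := rfl
          obtain ⟨i', rfl⟩ : ∃ i', i = i' + 1 := ⟨i - 1, by omega⟩
          rw [e1, Nat.add_sub_cancel, Nat.cast_sub x4]
          push_cast
          ring
        rw [e, Int.natAbs_natCast])
  obtain ⟨Bad, _, hB2, hB3⟩ := hd
  refine ⟨Bad, hB2, fun q b hq hb hbq hcop hnB => ?_⟩
  exact hB3 (q, b) (by
    rw [hΩ, mem_filter, mem_product, mem_range, mem_range]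
    exact ⟨⟨by show q < Q + 1; omega, by show b < Q + 1; omega⟩, hb, hbq, hcop⟩) hnB

end Pool.Agent.N913.MG
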