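import Pool.Agent.N913.MG.R2

set_option autoImplicit false

/-! A prime plus a square. -/

namespace Pool.Agent.N913.MG

open Finset Filter
open Pool.Agent.N913.MT (evt_log_ge evt_log_pow)

/-- the family `s t - t ^ 2 - r`, `r < s` -/
def FR (X : ℕ) : Fam where
  c := fun t => - (t : ℤ) ^ 2
  g := fun s => s
  S2 := 2 * (X.sqrt + 1) + 1
  hc := fun t t' => by
    have : -(t : ℤ) ^ 2 - -(t' : ℤ) ^ 2 = ((t : ℤ) - t') * (-(t + t')) := by ring
    rw [this]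
    exact Dvd.intro _ rfl
  hS := by omega
  hg1 := fun s => by omega
  hg2 := fun s => le_rfl
  hg3 := fun s hs => by omega

theorem NN_FR (X : ℕ) : NN (FR X) * 2 = ((FR X).S2 : ℝ) * ((FR X).S2 - 1) := by
  have h := Finset.sum_range_id_mul_two (FR X).S2
  have h1 : 1 ≤ (FR X).S2 := (FR X).hS
  have h2 : ((((∑ s ∈ range (FR X).S2, s) * 2 : ℕ)) : ℝ) = (((FR X).S2 * ((FR X).S2 - 1) : ℕ) : ℝ) := by
    rw [h]
  rw [Nat.cast_mul (FR X).S2, Nat.cast_sub h1] at h2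
  push_cast at h2
  exact h2

theorem vv_FR (X σ N : ℕ) (hN : N ≤ σ ^ 2) (t : ℕ) :
    vv (FR X) t (2 * σ, σ ^ 2 - N) = (N : ℤ) - ((σ : ℤ) - t) ^ 2 := by
  have e : vv (FR X) t (2 * σ, σ ^ 2 - N) =
    ((2 * σ : ℕ) : ℤ) * (t : ℤ) + -(t : ℤ) ^ 2 - ((σ ^ 2 - N : ℕ) : ℤ) := rfl
  rw [e, Nat.cast_sub hN]
  push_cast
  ring

theorem loc1 (σ N p : ℕ) (hp : p.Prime) : ∃ t : ℕ, ¬ (p : ℤ) ∣ (N : ℤ) - ((σ : ℤ) - t) ^ 2 := by
  by_contra hcon
  push Not at hcon
  have h0 := hcon 0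
  have h1 := hcon 1
  have h2 := hcon 2
  have a1 := dvd_sub h1 h0
  have a2 := dvd_sub h2 h1
  have e1 : (N : ℤ) - ((σ : ℤ) - (1 : ℕ)) ^ 2 - ((N : ℤ) - ((σ : ℤ) - (0 : ℕ)) ^ 2) = 2 * σ - 1 := by
    push_cast; ring
  have e2 : (N : ℤ) - ((σ : ℤ) - (2 : ℕ)) ^ 2 - ((N : ℤ) - ((σ : ℤ) - (1 : ℕ)) ^ 2) = 2 * σ - 3 := by
    push_cast; ring
  rw [e1] at a1
  rw [e2] at a2
  have a3 := dvd_sub a1 a2
  have e3 : (2 * (σ : ℤ) - 1) - (2 * σ - 3) = (2 : ℕ) := by push_cast; ring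
  rw [e3] at a3
  have h3 : p ∣ 2 := by exact_mod_cast a3
  have h4 : p = 2 := (Nat.prime_dvd_prime_iff_eq hp Nat.prime_two).1 h3
  subst h4
  push_cast at a1
  omega

theorem loc2 (σ N p : ℕ) (hp : p.Prime) :
    ((range p).filter (fun t : ℕ => (p : ℤ) ∣ (N : ℤ) - ((σ : ℤ) - t) ^ 2)).card ≤ 2 := by
  by_contra hcon
  push Not at hcon
  obtain ⟨a, ha, b, hb, d, hd, hab, had, hbd⟩ := two_lt_card.1 hcon
  rw [mem_filter, mem_range] at ha hb hd
  have hpp : Prime (p : ℤ) := Nat.prime_iff_prime_int.1 hp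
  have hne : ∀ u v : ℕ, u < p → v < p → u ≠ v → ¬ (p : ℤ) ∣ (u : ℤ) - v := by
    intro u v hu hv huv h
    have h1 : (v : ℕ) ≡ u [MOD p] := (Nat.modEq_iff_dvd).2 h
    have h2 := Nat.ModEq.eq_of_lt_of_lt h1 hv hu
    exact huv h2.symm
  have h1 := dvd_sub ha.2 hb.2
  have e1 : (N : ℤ) - ((σ : ℤ) - a) ^ 2 - ((N : ℤ) - ((σ : ℤ) - b) ^ 2) =
    ((a : ℤ) - b) * (2 * σ - (a + b)) := by ring
  rw [e1] at h1
  have h2 := dvd_sub ha.2 hd.2
  have e2 : (N : ℤ) - ((σ : ℤ) - a) ^ 2 - ((N : ℤ) - ((σ : ℤ) - d) ^ 2) =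
    ((a : ℤ) - d) * (2 * σ - (a + d)) := by ring
  rw [e2] at h2
  have h3 := (hpp.dvd_or_dvd h1).resolve_left (hne a b ha.1 hb.1 hab)
  have h4 := (hpp.dvd_or_dvd h2).resolve_left (hne a d ha.1 hd.1 had)
  have h5 := dvd_sub h4 h3
  apply hne b d hb.1 hd.1 hbd
  have e : 2 * (σ : ℤ) - (a + d) - (2 * σ - (a + b)) = b - d := by ring
  rwa [e] at h5

theorem primeSquare (m : ℕ) : ∃ k B : ℕ, ∀ S : Finset ℕ, k ≤ S.card → ∀ (C : ℕ) (ε : ℝ), 0 < ε →
    ∃ X₀ : ℕ, ∀ X : ℕ, X₀ ≤ X → ∀ 𝒥 : Finset ℕ, (∀ J ∈ 𝒥, (J : ℝ) ≤ Real.log X ^ C) →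
    ∃ Bad ⊆ Icc 1 X, (Bad.card : ℝ) ≤ ε * X ∧ ∀ N ∈ Icc 1 X, N ∉ Bad →
      ∃ 𝒢 ⊆ 𝒥, (1 - ε) * 𝒥.card ≤ 𝒢.card ∧ ∀ J ∈ 𝒢, ∃ u : ℕ,
        Real.sqrt N - J - Real.log X ^ B ≤ u ∧ (u : ℝ) ≤ Real.sqrt N - J ∧
        m ≤ (S.filter (fun h => (N - (u + h) ^ 2).Prime)).card := by
  classical
  obtain ⟨k, B, hmt⟩ := mt m 2
  refine ⟨k, B + 1, fun S hS C ε hε => ?_⟩
  obtain ⟨Mx, hMx⟩ : ∃ Mx, Mx = S.sup id := ⟨_, rfl⟩
  have hMS : ∀ h ∈ S, h ≤ Mx := fun h hh => by rw [hMx]; exact le_sup (f := id) hh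
  obtain ⟨S', hS'⟩ : ∃ S', S' = S.image (fun h => Mx - h) := ⟨_, rfl⟩
  have hS'c : k ≤ S'.card := by
    rw [hS', card_image_of_injOn]
    · exact hS
    · intro a ha b hb hab
      have h1 := hMS a ha
      have h2 := hMS b hb
      simp only at hab
      omega
  obtain ⟨S0, hS0⟩ := hmt S' hS'c 0 2 (C + 2) ((ε / 2) ^ 2 / 9) (by positivity)
  obtain ⟨X0, hX0⟩ := eventually_atTop.1 ((evt_log_pow 1 one_pos (2 / ε * (Mx + 4) ^ 2)
    (2 * (B + C))).and ((evt_log_ge (Mx + 2 ^ (C + 2) + 4)).and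
      (eventually_ge_atTop (max 16 (S0 ^ 2)))))
  refine ⟨X0, fun X hX 𝒥 h𝒥 => ?_⟩
  obtain ⟨g1, g2, g3⟩ := hX0 X hX
  rw [Real.rpow_one] at g1
  have hX16 : 16 ≤ X := (le_max_left _ _).trans g3
  have hXS : S0 ^ 2 ≤ X := (le_max_right _ _).trans g3
  have hXr : (16 : ℝ) ≤ X := by exact_mod_cast hX16
  obtain ⟨L, hL⟩ : ∃ L, L = Real.log X := ⟨_, rfl⟩
  rw [← hL] at g1 g2
  have hMx0 : (0 : ℝ) ≤ Mx := Nat.cast_nonneg _
  have h2C : (1 : ℝ) ≤ 2 ^ (C + 2) := one_le_pow₀ (by norm_num)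
  have hL1 : 4 ≤ L := by linarith
  obtain ⟨x, hx⟩ : ∃ x, x = X.sqrt := ⟨_, rfl⟩
  have hx4 : 4 ≤ x := by rw [hx]; exact Nat.le_sqrt'.2 (by omega)
  have hxX : x ^ 2 ≤ X := by rw [hx]; exact Nat.sqrt_le' X
  have hXx : X < (x + 1) ^ 2 := by rw [hx]; exact Nat.lt_succ_sqrt' X
  have hS0x : S0 ≤ x := by rw [hx]; exact Nat.le_sqrt'.2 hXS
  have hS2 : (FR X).S2 = 2 * (x + 1) + 1 := by rw [hx]; rfl
  have hNN := NN_FR X
  rw [hS2] at hNN
  have hxr : (4 : ℝ) ≤ x := by exact_mod_cast hx4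
  have hN0 : NN (FR X) ≤ 9 * X := by
    have h1 : ((x : ℝ)) ^ 2 ≤ X := by exact_mod_cast hxX
    push_cast at hNN
    nlinarith
  have lS2 : L ≤ 2 * Real.log ((FR X).S2 : ℕ) := by
    have h1 : (X : ℝ) ≤ (((FR X).S2 : ℕ) : ℝ) ^ 2 := by
      have h2 : X ≤ ((FR X).S2) ^ 2 := by rw [hS2]; nlinarith
      exact_mod_cast h2
    have h2 := Real.log_le_log (by linarith) h1
    rw [Real.log_pow, ← hL] at h2
    push_cast at h2
    exact h2
  have lS1 : Real.log ((FR X).S2 : ℕ) ≤ L := by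
    rw [hL]
    apply Real.log_le_log
    · have := (FR X).hS
      exact_mod_cast this
    · have : (FR X).S2 ≤ X := by rw [hS2]; nlinarith
      exact_mod_cast this
  obtain ⟨Ω, hΩ⟩ : ∃ Ω : Finset ℕ, Ω = (Icc 1 X).filter (fun N : ℕ => ε / 2 * X ≤ (N : ℝ)) := ⟨_, rfl⟩
  have hd := double Ω 𝒥 (fun N J => ∃ u : ℕ,
        Real.sqrt N - J - Real.log X ^ (B + 1) ≤ u ∧ (u : ℝ) ≤ Real.sqrt N - J ∧
        m ≤ (S.filter (fun h => (N - (u + h) ^ 2).Prime)).card) (ε / 2) X (by positivity)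
        (by positivity) (by
    intro J hJ
    have hJL := h𝒥 J hJ
    rw [← hL] at hJL
    obtain ⟨Bad, hb1, hb2⟩ := hS0 (FR X) (by rw [hS2]; omega)
      (fun t => by
        show |(-(t : ℤ) ^ 2)| ≤ _
        rw [abs_neg, abs_of_nonneg (by positivity), pow_zero, one_mul]
        have h1 : (1 : ℤ) ≤ ((FR X).S2 : ℕ) := by exact_mod_cast (FR X).hS
        have h2 : (t : ℤ) ^ 2 ≤ ((t : ℤ) + 1) ^ 2 := by nlinarith [Int.natCast_nonneg t]
        calc (t : ℤ) ^ 2 ≤ 1 * ((t : ℤ) + 1) ^ 2 := by rw [one_mul]; exact h2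
          _ ≤ _ := mul_le_mul_of_nonneg_right h1 (by positivity))
      (by
        rw [hS2]
        push_cast at hNN ⊢
        nlinarith) (J + 1) (by
        obtain ⟨l, hl⟩ : ∃ l, l = Real.log ((FR X).S2 : ℕ) := ⟨_, rfl⟩
        rw [← hl] at lS2 ⊢
        have hl1 : 2 ^ (C + 1) ≤ l := by
          have : (2 : ℝ) ^ (C + 2) = 2 * 2 ^ (C + 1) := by ring
          linarith
        have hl0 : 1 ≤ l := by
          have : (1 : ℝ) ≤ 2 ^ (C + 1) := one_le_pow₀ (by norm_num)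
          linarith
        have h2C' : (2 : ℝ) ^ C ≤ l := by
          have : (2 : ℝ) ^ (C + 1) = 2 * 2 ^ C := by ring
          have h3 : (0 : ℝ) ≤ 2 ^ C := by positivity
          linarith
        have h2 : (2 : ℝ) ≤ l := by
          have h3 : (1 : ℝ) ≤ 2 ^ C := one_le_pow₀ (by norm_num)
          have : (2 : ℝ) ^ (C + 1) = 2 * 2 ^ C := by ring
          linarith
        have h1 : (J : ℝ) ≤ l ^ (C + 1) := by
          calc (J : ℝ) ≤ L ^ C := hJL
            _ ≤ (2 * l) ^ C := pow_le_pow_left₀ (by linarith) lS2 C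
            _ = 2 ^ C * l ^ C := by rw [mul_pow]
            _ ≤ l * l ^ C := mul_le_mul_of_nonneg_right h2C' (by positivity)
            _ = _ := by rw [pow_succ]; ring
        have h3 : 1 ≤ l ^ (C + 1) := one_le_pow₀ hl0
        push_cast
        rw [show C + 2 = (C + 1) + 1 by ring, pow_succ]
        nlinarith)
    refine ⟨Bad.image (fun x => (x.1 / 2) ^ 2 - x.2), ?_, ?_⟩
    · calc (((Bad.image (fun x => (x.1 / 2) ^ 2 - x.2)).card : ℕ) : ℝ) ≤ Bad.card := by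
            exact_mod_cast card_image_le
        _ ≤ (ε / 2) ^ 2 / 9 * NN (FR X) := hb1
        _ ≤ (ε / 2) ^ 2 / 9 * (9 * X) := mul_le_mul_of_nonneg_left hN0 (by positivity)
        _ = _ := by ring
    · intro N hN hNB
      rw [hΩ, mem_filter, mem_Icc] at hN
      obtain ⟨⟨hN1, hNX⟩, hNε⟩ := hN
      obtain ⟨σ, hσ⟩ : ∃ σ, σ = N.sqrt + 1 := ⟨_, rfl⟩
      have hs1 : (N.sqrt) ^ 2 ≤ N := Nat.sqrt_le' N
      have hs2 : N < σ ^ 2 := by rw [hσ]; exact Nat.lt_succ_sqrt' N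
      have hσx : σ ≤ x + 1 := by
        rw [hσ, hx]
        have := Nat.sqrt_le_sqrt hNX
        omega
      have hr : σ ^ 2 - N < 2 * σ := by
        have e : σ ^ 2 = (N.sqrt) ^ 2 + 2 * N.sqrt + 1 := by rw [hσ]; ring
        omega
      obtain ⟨i, hi1, hi2, hi3⟩ := hb2 (2 * σ, σ ^ 2 - N) (by rw [hS2]; show 2 * σ < _; omega)
        (by show σ ^ 2 - N < 2 * σ; exact hr)
        (fun p hp => by
          obtain ⟨t, ht⟩ := loc1 σ N p hp
          refine ⟨⟨t, by rw [vv_FR X σ N hs2.le]; exact ht⟩, ?_⟩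
          refine le_trans (le_of_eq ?_) (loc2 σ N p hp)
          congr 1
          apply filter_congr
          intro t _
          rw [vv_FR X σ N hs2.le]) (fun hB => hNB (by
            rw [mem_image]
            refine ⟨_, hB, ?_⟩
            simp only
            rw [Nat.mul_div_cancel_left σ (by norm_num)]
            omega))
      have hJ1 : (i : ℝ) ≤ J + 1 + L ^ B := by
        have h1 : Real.log ((FR X).S2 : ℕ) ^ B ≤ L ^ B :=
          pow_le_pow_left₀ (Real.log_natCast_nonneg _) lS1 B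
        push_cast at hi2
        linarith
      have hLB : 1 ≤ L ^ B := one_le_pow₀ (by linarith)
      have hLC : 1 ≤ L ^ C := one_le_pow₀ (by linarith)
      have hLn : 1 ≤ L ^ (B + C) := one_le_pow₀ (by linarith)
      have hiσ : ((i + Mx : ℕ) : ℝ) ≤ σ := by
        have h1 : ((i + Mx : ℕ) : ℝ) ≤ (Mx + 4) * L ^ (B + C) := by
          have h2 : L ^ B ≤ L ^ (B + C) := pow_le_pow_right₀ (by linarith) (by omega)
          have h3 : L ^ C ≤ L ^ (B + C) := pow_le_pow_right₀ (by linarith) (by omega)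
          push_cast
          nlinarith
        have h2 : ((Mx + 4) * L ^ (B + C)) ^ 2 ≤ (σ : ℝ) ^ 2 := by
          have h3 : (N : ℝ) ≤ (σ : ℝ) ^ 2 := by exact_mod_cast hs2.le
          have h4 : ((Mx + 4) * L ^ (B + C)) ^ 2 ≤ ε / 2 * X := by
            have e : 2 / ε * (Mx + 4) ^ 2 * L ^ (2 * (B + C)) =
                (2 / ε) * ((Mx + 4) * L ^ (B + C)) ^ 2 := by
              rw [mul_pow, ← pow_mul, mul_comm (B + C) 2]; ring
            rw [e] at g1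
            have h5 := mul_le_mul_of_nonneg_left g1 (show 0 ≤ ε / 2 by positivity)
            have h6 : ε / 2 * (2 / ε * ((Mx + 4) * L ^ (B + C)) ^ 2) =
                ((Mx + 4) * L ^ (B + C)) ^ 2 := by field_simp
            linarith
          linarith
        have h3 := le_of_sq_le_sq h2 (Nat.cast_nonneg σ)
        linarith
      have hiσ' : i + Mx ≤ σ := by exact_mod_cast hiσ
      refine ⟨σ - i - Mx, ?_, ?_, ?_⟩
      · have e : ((σ - i - Mx : ℕ) : ℝ) = σ - i - Mx := by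
          rw [Nat.cast_sub (by omega), Nat.cast_sub (by omega)]
        rw [e, ← hL]
        have h1 : Real.sqrt N ≤ σ := by
          rw [hσ]
          push_cast
          exact Real.real_sqrt_lt_nat_sqrt_succ.le
        have h2 : 1 + (Mx : ℝ) + L ^ B ≤ L ^ (B + 1) := by
          rw [pow_succ]
          nlinarith
        linarith
      · have e : ((σ - i - Mx : ℕ) : ℝ) = σ - i - Mx := by
          rw [Nat.cast_sub (by omega), Nat.cast_sub (by omega)]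
        rw [e]
        have h1 : ((N.sqrt : ℕ) : ℝ) ≤ Real.sqrt N := Real.nat_sqrt_le_real_sqrt
        have h2 : (σ : ℝ) = N.sqrt + 1 := by rw [hσ]; push_cast; ring
        have h3 : ((J + 1 : ℕ) : ℝ) + 1 ≤ i := by exact_mod_cast hi1
        push_cast at h3
        linarith
      · refine hi3.trans ?_
        apply card_le_card_of_injOn (fun h => Mx - h)
        · intro h' hh'
          obtain ⟨g4, g5⟩ := mem_filter.1 (mem_coe.1 hh')
          rw [hS', mem_image] at g4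
          obtain ⟨h, hh, rfl⟩ := g4
          have hhM := hMS h hh
          have e0 : Mx - (Mx - h) = h := by omega
          show Mx - (Mx - h) ∈ _
          rw [e0, mem_coe, mem_filter]
          refine ⟨hh, ?_⟩
          rw [vv_FR X σ N hs2.le] at g5
          have e1 : (σ : ℤ) - ((i + (Mx - h) : ℕ) : ℤ) = ((σ - i - Mx + h : ℕ) : ℤ) := by
            omega
          rw [e1] at g5
          have h7 : (σ - i - Mx + h) ^ 2 ≤ N := by
            refine le_trans (Nat.pow_le_pow_left ?_ 2) hs1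
            omega
          have e2 : ((N : ℤ) - ((σ - i - Mx + h : ℕ) : ℤ) ^ 2).natAbs = N - (σ - i - Mx + h) ^ 2 := by
            have : ((N : ℤ) - ((σ - i - Mx + h : ℕ) : ℤ) ^ 2) =
                ((N - (σ - i - Mx + h) ^ 2 : ℕ) : ℤ) := by
              rw [Nat.cast_sub h7]; push_cast; ring
            rw [this, Int.natAbs_natCast]
          rw [e2] at g5
          exact g5
        · intro a ha b hb hab
          obtain ⟨ha1, _⟩ := mem_filter.1 (mem_coe.1 ha)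
          obtain ⟨hb1, _⟩ := mem_filter.1 (mem_coe.1 hb)
          rw [hS', mem_image] at ha1 hb1
          obtain ⟨a', ha', rfl⟩ := ha1
          obtain ⟨b', hb', rfl⟩ := hb1
          have := hMS a' ha'
          have := hMS b' hb'
          simp only at hab
          omega)
  obtain ⟨Bad, hB1, hB2, hB3⟩ := hd
  refine ⟨Bad ∪ (Icc 1 X).filter (fun N : ℕ => (N : ℝ) < ε / 2 * X), ?_, ?_, ?_⟩
  · apply union_subset
    · exact hB1.trans (by rw [hΩ]; exact filter_subset _ _)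
    · exact filter_subset _ _
  · have h1 : (((Icc 1 X).filter (fun N : ℕ => (N : ℝ) < ε / 2 * X)).card : ℝ) ≤ ε / 2 * X := by
      have h2 : (Icc 1 X).filter (fun N : ℕ => (N : ℝ) < ε / 2 * X) ⊆ Icc 1 ⌊ε / 2 * X⌋₊ := by
        intro N hN
        obtain ⟨h3, h4⟩ := mem_filter.1 hN
        exact mem_Icc.2 ⟨(mem_Icc.1 h3).1, Nat.le_floor h4.le⟩
      have h3 := card_le_card h2
      rw [Nat.card_Icc, Nat.add_sub_cancel] at h3
      calc _ ≤ ((⌊ε / 2 * X⌋₊ : ℕ) : ℝ) := by exact_mod_cast h3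
        _ ≤ _ := Nat.floor_le (by positivity)
    have h2 : ((Bad ∪ (Icc 1 X).filter (fun N : ℕ => (N : ℝ) < ε / 2 * X)).card : ℝ) ≤
        Bad.card + ((Icc 1 X).filter (fun N : ℕ => (N : ℝ) < ε / 2 * X)).card := by
      exact_mod_cast card_union_le _ _
    linarith
  · intro N hN hNB
    rw [mem_union, not_or] at hNB
    obtain ⟨𝒢, h1, h2, h3⟩ := hB3 N (by
      rw [hΩ, mem_filter]
      refine ⟨hN, ?_⟩
      by_contra hc
      exact hNB.2 (mem_filter.2 ⟨hN, not_le.1 hc⟩)) hNB.1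
    refine ⟨𝒢, h1, ?_, h3⟩
    have h4 : (0 : ℝ) ≤ 𝒥.card := Nat.cast_nonneg _
    nlinarith

end Pool.Agent.N913.MG
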